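import Pool.Agent.Lib.MP_2b1ae8_co.AT.Base

/-! The base embedding of the bundles of one tree into blocks. -/

set_option autoImplicit false
set_option linter.unusedSectionVars false

namespace Pool.Agent.Lib.MP_12a5fd_co.BT

open Finset Pool.Agent.Lib.MP_2b1ae8_co.AT

/-- Blocks: cluster, digit vector, index. -/
abbrev Bk (G Cl : Type) (m : ℕ) := Cl × (Cl → G) × Fin m
/-- Bundles: (row cluster, column cluster, colour), digit of the top, copy. -/
abbrev Bu (G Cl Cp : Type) := (Cl × Cl × G) × G × Cp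

lemma card_cyl2 {G Cl : Type} [Fintype G] [DecidableEq G] [Fintype Cl] [DecidableEq Cl]
    (Z P : Cl) (h : Z ≠ P) (s : Finset G) (v : G) :
    #{b : Cl → G | b Z ∈ s ∧ b P = v} = #s * Fintype.card G ^ (Fintype.card Cl - 2) := by
  have : ({b : Cl → G | b Z ∈ s ∧ b P = v} : Finset _) =
      Fintype.piFinset fun j => if j = Z then s else if j = P then {v} else univ := by
    ext b
    simp only [mem_filter, mem_univ, true_and, Fintype.mem_piFinset]
    refine ⟨fun hb j => ?_, fun hb => ⟨by simpa using hb Z, by simpa [h.symm] using hb P⟩⟩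
    split_ifs with h1 h2
    · exact h1 ▸ hb.1
    · simpa [h2] using hb.2
    · exact mem_univ _
  rw [this, Fintype.card_piFinset, ← mul_prod_erase _ _ (mem_univ Z),
    ← mul_prod_erase _ _ (mem_erase.2 ⟨h.symm, mem_univ P⟩),
    prod_congr rfl (g := fun _ => Fintype.card G) (fun j hj => by
      have h1 := (mem_erase.1 hj).1
      have h2 := (mem_erase.1 (mem_erase.1 hj).2).1
      simp [h1, h2])]
  simp [h.symm, card_erase_of_mem (mem_erase.2 ⟨h.symm, mem_univ P⟩), Nat.sub_sub]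

theorem exists_base2 {G Cl Cp Lm : Type} [Fintype G] [DecidableEq G] [AddCommGroup G]
    [Fintype Cl] [DecidableEq Cl] [Nonempty Cl] [Fintype Cp] [DecidableEq Cp] [Fintype Lm]
    [DecidableEq Lm] {m K : ℕ} [NeZero m] [NeZero K] (cs : Cl → Bool) (hc : Bool → Cl)
    (SI : Cl → Cl → Finset G) (zs : Cl → Bool → Finset G)
    (hz : ∀ U x, x ∈ zs U true → x ∉ zs U false)
    (hSI : ∀ X Y x, x ∈ SI X Y → cs X = true ∧ cs Y = false ∧ X ≠ hc true ∧ Y ≠ hc false)
    (hm : Fintype.card Cl ≤ m) (us sl zo : Lm → Fin K → Bool) (CS : Lm → Finset Cp)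
    (hn : ∀ U o, (∑ l, #(CS l) * #{j | us l j = true ∧ sl l j = cs U ∧ zo l j = o}) *
      ∑ P, (#(SI U P) + #(SI P U)) ≤
        #(zs U o) * (Fintype.card G ^ (Fintype.card Cl - 2) * (m - Fintype.card Cl))) :
    ∃ β : Lm → Bu G Cl Cp → Fin K → Bk G Cl m,
      (∀ l b j l' b' j', b.1.2.2 ∈ SI b.1.1 b.1.2.1 → b.2.2 ∈ CS l → us l j = true →
        b'.1.2.2 ∈ SI b'.1.1 b'.1.2.1 → b'.2.2 ∈ CS l' → us l' j' = true →
        β l b j = β l' b' j' → l = l' ∧ b = b' ∧ j = j') ∧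
      ∀ l b j, b.1.2.2 ∈ SI b.1.1 b.1.2.1 → b.2.2 ∈ CS l → us l j = true →
        (β l b j).1 = (if sl l j = true then b.1.1 else b.1.2.1) ∧
        (β l b j).2.1 (if sl l j = true then b.1.2.1 else b.1.1) =
          (if sl l j = sl l 0 then b.2.1 else b.1.2.2 - b.2.1) ∧
        (β l b j).2.1 (hc (!sl l j)) ∈ zs (β l b j).1 (zo l j) := by
  set γ := Fintype.card G ^ (Fintype.card Cl - 2) with hγ
  have zdis : ∀ X o o' x, x ∈ zs X o → x ∈ zs X o' → o = o' := by
    intro X o o' x hx hx'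
    cases o <;> cases o' <;>
      first | rfl | exact absurd hx' (hz _ _ hx) | exact absurd hx (hz _ _ hx')
  let T : Cl → Bool → Finset (Σ _ : Lm, Cp × Fin K) := fun U o =>
    univ.sigma fun l => CS l ×ˢ ({j | us l j = true ∧ sl l j = cs U ∧ zo l j = o} : Finset _)
  have hT : ∀ U o, #(T U o) = ∑ l, #(CS l) * #{j | us l j = true ∧ sl l j = cs U ∧ zo l j = o} :=
    fun U o => by simp only [T, card_sigma, card_product]
  let n : Cl → Bool → Cl → ℕ := fun U o P => #(T U o) * (#(SI U P) + #(SI P U))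
  have hn' : ∀ X o, ∑ P, n X o P ≤ #(zs X o) * γ * (m - Fintype.card Cl) := by
    intro X o
    simp only [n, ← mul_sum, hT, mul_assoc]
    exact hn X o
  let μ : Cl → Bool → Cl → ℕ := fun X o P => n X o P / (#(zs X o) * γ) + 1
  have hμ1 : ∀ X o, ∑ P, μ X o P ≤ m := by
    intro X o
    simp only [μ, sum_add_distrib, sum_const, card_univ, smul_eq_mul, mul_one]
    have : ∑ P, n X o P / (#(zs X o) * γ) ≤ m - Fintype.card Cl :=
      (sum_div_le' _ _ _).trans (Nat.div_le_of_le_mul (hn' X o))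
    omega
  have hμ2 : ∀ X o P, n X o P ≤ #(zs X o) * γ * μ X o P := by
    intro X o P
    rcases Nat.eq_zero_or_pos (#(zs X o) * γ) with h | h
    · have := hn' X o
      have h4 := single_le_sum (f := n X o) (fun _ _ => Nat.zero_le _) (mem_univ P)
      rw [h] at this ⊢
      omega
    · exact (Nat.lt_mul_div_succ _ h).le
  choose Mx Mc Md using fun X o => exists_disj (μ X o) m (hμ1 X o)
  let V : Lm × Bu G Cl Cp × Fin K → Prop := fun x =>
    x.2.1.1.2.2 ∈ SI x.2.1.1.1 x.2.1.1.2.1 ∧ x.2.1.2.2 ∈ CS x.1 ∧ us x.1 x.2.2 = true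
  let key : Lm × Bu G Cl Cp × Fin K → Cl × Bool × Cl × G := fun x =>
    (if sl x.1 x.2.2 = true then x.2.1.1.1 else x.2.1.1.2.1, zo x.1 x.2.2,
      if sl x.1 x.2.2 = true then x.2.1.1.2.1 else x.2.1.1.1,
      if sl x.1 x.2.2 = sl x.1 0 then x.2.1.2.1 else x.2.1.1.2.2 - x.2.1.2.1)
  let A : Cl × Bool × Cl × G → Finset (Bk G Cl m) := fun k =>
    {k.1} ×ˢ ({b : Cl → G | b (hc (!cs k.1)) ∈ zs k.1 k.2.1 ∧ b k.2.2.1 = k.2.2.2} : Finset _) ×ˢ
      Mx k.1 k.2.1 k.2.2.1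
  have hS : ∀ x, V x → sl x.1 x.2.2 = cs (key x).1 ∧ hc (!cs (key x).1) ≠ (key x).2.2.1 :=
    fun x hx => by
      obtain ⟨a1, a2, a3, a4⟩ := hSI _ _ _ hx.1
      simp only [key]
      cases sl x.1 x.2.2
      · simp [a2, a3.symm]
      · simp [a1, a4.symm]
  obtain ⟨β, b1, b2⟩ := fib_inj (β := Bk G Cl m) (univ.filter V) key A (by
    rintro ⟨X, o, P, v⟩
    by_cases hP : hc (!cs X) = P
    · rw [filter_false_of_mem]
      · simp
      · intro x hx h
        have := (hS x (mem_filter.1 hx).2).2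
        rw [h] at this
        exact this hP
    simp only [A, card_product, card_singleton, one_mul, card_cyl2 _ P hP, Mc]
    refine le_trans ?_ (hμ2 X o P)
    refine le_trans ?_ (Nat.mul_le_mul_left _ (card_union_le _ _))
    rw [← card_product]
    refine card_le_card_of_injOn
      (fun x => ((⟨x.1, x.2.1.2.2, x.2.2⟩ : Σ _ : Lm, Cp × Fin K), x.2.1.1.2.2)) ?_ ?_
    · intro x hx
      simp only [coe_filter, mem_filter, mem_univ, true_and, Set.mem_ofPred_eq] at hx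
      obtain ⟨hv, hk⟩ := hx
      have e1 := (hS x hv).1
      rw [hk] at e1
      obtain ⟨l, ⟨⟨Y, Y', c⟩, u, r⟩, i⟩ := x
      simp only [key, Prod.mk.injEq] at hk
      obtain ⟨k1, k2, k3, -⟩ := hk
      obtain ⟨v1, v2, v3⟩ := hv
      simp only at e1 v1 v2 v3
      have e2 : c ∈ SI X P ∪ SI P X := by
        rw [mem_union]
        split_ifs at k1 k3
        · exact Or.inl (k1 ▸ k3 ▸ v1)
        · exact Or.inr (k1 ▸ k3 ▸ v1)
      simp only [T, coe_product, Set.mem_prod, mem_coe, mem_sigma, mem_univ, true_and, mem_product,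
        mem_filter]
      exact ⟨⟨v2, v3, e1, k2⟩, e2⟩
    · rintro ⟨l, ⟨⟨Y, Y', c⟩, u, r⟩, i⟩ hx ⟨l2, ⟨⟨Y2, Y2', c2⟩, u2, r2⟩, i2⟩ hy h
      simp only [key, coe_filter, mem_filter, mem_univ, true_and, Set.mem_ofPred_eq,
        Prod.mk.injEq, Sigma.mk.injEq, heq_eq_eq] at hx hy h
      obtain ⟨-, k1, -, k3, k4⟩ := hx
      obtain ⟨-, j1, -, j3, j4⟩ := hy
      obtain ⟨⟨rfl, rfl, rfl⟩, rfl⟩ := h
      have e1 : Y = Y2 ∧ Y' = Y2' := by
        split_ifs at k1 k3 j1 j3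
        · exact ⟨k1.trans j1.symm, k3.trans j3.symm⟩
        · exact ⟨k3.trans j3.symm, k1.trans j1.symm⟩
      have e2 : u = u2 := by
        split_ifs at k4 j4
        · exact k4.trans j4.symm
        · exact sub_right_injective (k4.trans j4.symm)
      rw [e1.1, e1.2, e2])
  have mA : ∀ x, V x → (β x).1 = (key x).1 ∧
      ((β x).2.1 (hc (!cs (key x).1)) ∈ zs (key x).1 (key x).2.1 ∧
      (β x).2.1 (key x).2.2.1 = (key x).2.2.2) ∧
      (β x).2.2 ∈ Mx (key x).1 (key x).2.1 (key x).2.2.1 := fun x hx => by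
    have h := b1 x (mem_filter.2 ⟨mem_univ _, hx⟩)
    simp only [A, mem_product, mem_singleton, mem_filter, mem_univ, true_and] at h
    exact h
  have inj : ∀ x y, V x → V y → β x = β y → x = y := fun x y hx hy h => by
    refine b2 x (mem_filter.2 ⟨mem_univ _, hx⟩) y (mem_filter.2 ⟨mem_univ _, hy⟩) ?_ h
    obtain ⟨x1, ⟨x2, x3⟩, x4⟩ := mA x hx
    obtain ⟨y1, ⟨y2, y3⟩, y4⟩ := mA y hy
    rw [← h] at y1 y2 y3 y4
    have e1 : (key x).1 = (key y).1 := x1.symm.trans y1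
    rw [← e1] at y2 y4
    have e2 := zdis _ _ _ _ x2 y2
    rw [← e2] at y4
    have e3 := Md _ _ _ _ _ x4 y4
    rw [← e3] at y3
    exact Prod.ext e1 (Prod.ext e2 (Prod.ext e3 (x3.symm.trans y3)))
  refine ⟨fun l b j => β (l, b, j), fun l b j l' b' j' h1 h2 h3 h4 h5 h6 h => ?_,
    fun l b j h1 h2 h3 => ?_⟩
  · simpa using inj (l, b, j) (l', b', j') ⟨h1, h2, h3⟩ ⟨h4, h5, h6⟩ h
  · obtain ⟨x1, ⟨x2, x3⟩, -⟩ := mA (l, b, j) ⟨h1, h2, h3⟩
    rw [← (hS (l, b, j) ⟨h1, h2, h3⟩).1, ← x1] at x2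
    exact ⟨x1, x3, x2⟩

end Pool.Agent.Lib.MP_12a5fd_co.BT
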