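import Pool.Agent.Lib.MP_12a5fd_co.BT.Blocks2
import Pool.Agent.Lib.MP_2b1ae8_co.AT.Late

/-! Existence of the block structure. -/

set_option autoImplicit false
set_option linter.unusedSectionVars false
set_option synthInstance.maxSize 4000

namespace Pool.Agent.Lib.MP_12a5fd_co.BT

open Finset Pool.Agent.Lib.MP_2b1ae8_co.AT

/-- Weighted number of the indices with a property. -/
def cnt {Lm : Type} [Fintype Lm] {K : ℕ} (nm : Lm → ℕ) (p : Lm → Fin K → Prop)
    [∀ l j, Decidable (p l j)] : ℕ := ∑ l, nm l * #{j | p l j}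

/-- The index is the top of a piece hanging at an early hub. -/
def zoE {Sh : Type} {K : ℕ} [NeZero K] (l : Option Bool × Sh) (j : Fin K) : Bool :=
  decide (j = 0 ∧ l.1 = some true)

/-- Plans. -/
abbrev Pn (Cs Sh : Type) (M : ℕ) := Cs × (Option Bool × Sh → Fin (M + 1))

lemma div_mul_le (n r y : ℕ) : y * (n / (r * y)) ≤ n / r := by
  rw [← Nat.div_div_eq_div_mul]
  exact Nat.mul_div_le _ _

lemma gen_le2 {α : Type} (T : Finset α) (q : ℕ) (h : ∀ T', T = T' → T'.Nonempty → #T' ≤ q) :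
    #T ≤ q := T.eq_empty_or_nonempty.elim (fun h => by simp [h]) (h T rfl)

lemma SD.re_ce {Lb : Type} {K : ℕ} (S : SD Lb K) (l : Lb) (j : Fin K) (hj : S.us l j = true)
    (hj' : S.us l (S.cp l j) = true) (ho : S.sl l j ≠ S.sl l (S.cp l j)) :
    S.us l (S.re l j) = true ∧ S.us l (S.ce l j) = true ∧ S.sl l (S.re l j) = true ∧
      S.sl l (S.ce l j) = false := by
  unfold SD.re SD.ce
  cases h : S.sl l j <;> simp_all

theorem exists_MS2 {I Sh Cl Cs : Type} [Fintype I] [DecidableEq I] [Fintype Sh] [DecidableEq Sh]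
    [Nonempty Sh] [Fintype Cl] [DecidableEq Cl] [Nonempty Cl] [Fintype Cs] [DecidableEq Cs]
    {K Q m : ℕ} [NeZero K] [NeZero Q] [NeZero m] (S : SD Sh K) (T : DS Cl Cs (RQ Q) Q)
    (cl : I → Cs) (jI : Cs → ℕ) (jS : Cs → Bool → ℕ) (nm : I → Option Bool × Sh → ℕ)
    (nn : I → Option (Knd Cl Q) × Sh → ℕ) (m' q q' n0 r1 Mk cap J lam : ℕ) (St : I → ℕ)
    (hQ : 2 ≤ Q) (hL : 2 ≤ Fintype.card Cl) (hm : Fintype.card Cl ≤ m)
    (hm' : m' = (Q ^ 4) ^ (Fintype.card Cl - 2) * (m - Fintype.card Cl)) (hq' : 0 < q')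
    (hJ : Fintype.card (Pn Cs Sh (Q ^ 2 * m' + 2)) * Fintype.card (Tn (GG Q) Cl m) = J)
    (hlb : 4 * Q ^ 2 * K * Fintype.card (Option Bool × Sh) ≤ m')
    (hcap : cap + J ≤ (Q ^ 4) ^ Fintype.card Cl * n0) (hn0 : n0 ≤ m * q)
    (hr1 : (Fintype.card I + J) * Q ^ 3 ≤ (Q ^ 4) ^ Fintype.card Cl * (r1 * n0))
    (hMk : (Fintype.card I + J) * (2 * lam + q' * (2 * Fintype.card Cl ^ 2 * Q ^ 9 *
      (K * Fintype.card (Option Bool × Sh)))) ≤ (Q ^ 4) ^ Fintype.card Cl * m * q' * Mk)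
    (hcl : ∀ Z, #{i | cl i = Z} ≤ cap) (hj : ∀ Z, jI Z + jS Z true + jS Z false ≤ Q)
    (hjI : ∀ i, 0 < jI (cl i)) (hjS : ∀ i s, 0 < jS (cl i) s) (hδ : ∀ i, 0 < T.δ (cl i))
    (hδ' : ∀ i, T.δ (cl i) ≤ Q) (ht : ∀ i, 0 < T.t (cl i))
    (hSt : ∀ i, St i = T.t (cl i) * (Q ^ 6 * (Q - 1) ^ 2 * q' * m'))
    (hnm : ∀ i l, nm i l ≤ St i)
    (h1 : ∀ i, Q * cnt (nm i) (fun l j => S.us l.2 j = true ∧ S.sl l.2 j = false ∧
      zoE l j = true) + St i ≤ T.a (cl i) * St i)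
    (h2 : ∀ i, Q * cnt (nm i) (fun l j => S.us l.2 j = true ∧ S.sl l.2 j = true ∧
      zoE l j = true) + St i ≤ T.b (cl i) * St i)
    (h3 : ∀ i, Q * cnt (nm i) (fun l j => S.us l.2 j = true ∧ S.sl l.2 j = false ∧
      zoE l j = false) + (T.a (cl i) + 1) * St i ≤ Q * St i)
    (h4 : ∀ i, 2 * (Q * cnt (nm i) (fun l j => S.us l.2 j = true ∧ S.sl l.2 j = true ∧
      zoE l j = false)) + (2 * T.b (cl i) + 1) * St i ≤ Q * St i)
    (h5 : ∀ i, Q * Q * cnt (nm i) (fun l j => j ≠ 0 ∧ S.us l.2 j = true) + T.δ (cl i) * St i ≤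
      T.δ (cl i) * jI (cl i) * St i)
    (h6 : ∀ i s, Q * Q * cnt (nm i) (fun l j => j = 0 ∧ l.1 = some false ∧ S.us l.2 j = true ∧
      S.sl l.2 j = !s) ≤ T.δ (cl i) * jS (cl i) s * St i)
    (h7 : ∀ i, cnt (nm i) (fun l j => S.ma l.2 j = true) ≤ lam)
    (n1 : ∀ i σ, nn i (none, σ) ≤ nm i (none, σ))
    (n2 : ∀ i s σ, nn i (some (Sum.inl s), σ) ≤ if s = S.sl σ 0 then 0 else nm i (some true, σ))
    (n3 : ∀ i U a σ, nn i (some (Sum.inr (U, a)), σ) * (T.wt (cl i) * Q ^ 3) ≤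
      if T.cs U = S.sl σ 0 then 0 else
        T.mg (cl i) U * (nm i (some false, σ) + T.wt (cl i) * Q ^ 3 * q')) :
    ∃ M : MS2 I (Option (Knd Cl Q) × Sh) (Knd Cl Q)
      (Bu (GG Q) Cl (ZMod Q × Fin (Q ^ 2 * m' + 2))) (Bk (GG Q) Cl m) (Cl × (Cl → GG Q))
      (Pn Cs Sh (Q ^ 2 * m' + 2) × Tn (GG Q) Cl m) (Cs × Bool × Bool) (S.ext _) (knD Sh T.cs Q) nn
      m q q' n0 r1 Mk, M.sb = fun B => T.cs B.1 := by
  have hG := card_GG (Q := Q)
  have hQ0 : 0 < Q := by omega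
  have hQ1 : 0 < Q - 1 := by omega
  have hK : 0 < K := NeZero.pos K
  have hm0 : 0 < m := NeZero.pos m
  have hm'0 : 0 < m' := lt_of_lt_of_le (by have := Fintype.card_pos (α := Option Bool × Sh)
                                           positivity) hlb
  have hSt0 : ∀ i, 0 < St i := fun i => by have := ht i; rw [hSt]; positivity
  choose JI JS cJI cJS dJ1 dJ2 using fun Z => exists_J (Q := Q) (jI Z) (jS Z) (hj Z)
  have hwt : ∀ i, 0 < T.wt (cl i) := fun i =>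
    lt_of_lt_of_le (by have := hδ i; have := ht i; positivity) (T.tot (cl i))
  obtain ⟨r, hr⟩ : ∃ r : Cs → ℕ, ∀ Z,
      r Z = T.wt Z * (jI Z * (Q - 1)) * ((Q - 1) * Q ^ 3 * q') := ⟨_, fun _ => rfl⟩
  have hr0 : ∀ i, 0 < r (cl i) := fun i => by
    have := hwt i
    have := hjI i
    rw [hr]
    positivity
  have hr1' : ∀ i, T.δ (cl i) * jI (cl i) * St i ≤ r (cl i) * Q ^ 2 * m' := fun i => by
    rw [hr, hSt]
    calc _ = T.δ (cl i) * Q * T.t (cl i) * (jI (cl i) * (Q - 1)) * ((Q - 1) * Q ^ 3 * q') *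
          Q ^ 2 * m' := by ring
      _ ≤ _ := by gcongr; exact T.tot (cl i)
  have hdiv : ∀ i l, nm i l / r (cl i) ≤ Q ^ 2 * m' := fun i l => by
    refine Nat.div_le_of_le_mul ((hnm i l).trans (le_trans ?_ ((hr1' i).trans_eq (mul_assoc ..))))
    exact Nat.le_mul_of_pos_left _ (Nat.mul_pos (hδ i) (hjI i))
  obtain ⟨N, hN1, hN2⟩ : ∃ N : I → Option Bool × Sh → ℕ,
      (∀ i l, l.1 = some false → N i l = nm i l / (r (cl i) * jS (cl i) (!S.sl l.2 0)) + 2) ∧
      ∀ i l, l.1 ≠ some false → N i l = nm i l / r (cl i) + 1 :=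
    ⟨fun i l => if l.1 = some false then nm i l / (r (cl i) * jS (cl i) (!S.sl l.2 0)) + 2
      else nm i l / r (cl i) + 1, fun i l h => if_pos h, fun i l h => if_neg h⟩
  have hNM : ∀ i l, N i l ≤ Q ^ 2 * m' + 2 := fun i l => by
    have := hdiv i l
    by_cases h : l.1 = some false
    · have h' := Nat.div_le_div_left (a := nm i l)
        (Nat.le_mul_of_pos_right (r (cl i)) (hjS i (!S.sl l.2 0))) (hr0 i)
      rw [hN1 i l h]
      omega
    · rw [hN2 i l h]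
      omega
  have hCS : ∀ i l, #(CSt S JS (Q ^ 2 * m' + 2) (cl i) (N i) l) ≤ nm i l / r (cl i) + 2 * Q := by
    intro i l
    rw [card_CSt _ _ _ _ _ _ (hNM i l)]
    split_ifs with h
    · have a1 := div_mul_le (nm i l) (r (cl i)) (jS (cl i) (!S.sl l.2 0))
      have a2 : jS (cl i) (!S.sl l.2 0) ≤ Q := by
        have := hj (cl i)
        cases S.sl l.2 0 <;> simp only [Bool.not_true, Bool.not_false] <;> omega
      rw [hN1 i l h, cJS, mul_add]
      omega
    · rw [hN2 i l h]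
      omega
  have hjQ : ∀ Z, jI Z ≤ Q := fun Z => by have := hj Z; omega
  have hdj : ∀ i, T.δ (cl i) * jI (cl i) ≤ Q ^ 2 := fun i => by
    rw [sq]
    exact Nat.mul_le_mul (hδ' i) (hjQ _)
  have hu : ∀ (p : Fin K → Prop) [DecidablePred p], #{j | p j} ≤ K := fun p _ =>
    (card_le_univ _).trans (by simp)
  let pl : I → Pn Cs Sh (Q ^ 2 * m' + 2) := fun i =>
    (cl i, fun l => ⟨N i l, Nat.lt_succ_of_le (hNM i l)⟩)
  have hβ : ∀ π : Pn Cs Sh (Q ^ 2 * m' + 2), ∃ β : Option Bool × Sh →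
      Bu (GG Q) Cl (ZMod Q × Fin (Q ^ 2 * m' + 2)) → Fin K → Bk (GG Q) Cl m, (∃ i, pl i = π) →
      (∀ l b j l' b' j', b.1.2.2 ∈ SI T JI π.1 b.1.1 b.1.2.1 →
        b.2.2 ∈ CSt S JS _ π.1 (fun l => π.2 l) l → S.us l.2 j = true →
        b'.1.2.2 ∈ SI T JI π.1 b'.1.1 b'.1.2.1 → b'.2.2 ∈ CSt S JS _ π.1 (fun l => π.2 l) l' →
        S.us l'.2 j' = true → β l b j = β l' b' j' → l = l' ∧ b = b' ∧ j = j') ∧
      ∀ l b j, b.1.2.2 ∈ SI T JI π.1 b.1.1 b.1.2.1 →
        b.2.2 ∈ CSt S JS _ π.1 (fun l => π.2 l) l → S.us l.2 j = true →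
        (β l b j).1 = (if S.sl l.2 j = true then b.1.1 else b.1.2.1) ∧
        (β l b j).2.1 (if S.sl l.2 j = true then b.1.2.1 else b.1.1) =
          (if S.sl l.2 j = S.sl l.2 0 then b.2.1 else b.1.2.2 - b.2.1) ∧
        (β l b j).2.1 (T.hc π.1 (!S.sl l.2 j)) ∈ zs T π.1 (β l b j).1 (zoE l j) := by
    intro π
    by_cases h : ∃ i, pl i = π
    · obtain ⟨i, rfl⟩ := h
      obtain ⟨β, hβ⟩ := exists_base2 (m := m) T.cs (T.hc (cl i)) (SI T JI (cl i)) (zs T (cl i))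
        (zs_disj T _) (SI_supp T JI _) hm (fun l => S.us l.2) (fun l => S.sl l.2) zoE
        (CSt S JS (Q ^ 2 * m' + 2) (cl i) (N i)) (fun U o => by
          rw [hG, ← hm']
          refine base_ok T JI (cl i) (fun s o => ∑ l, #(CSt S JS (Q ^ 2 * m' + 2) (cl i) (N i) l) *
            #{j | S.us l.2 j = true ∧ S.sl l.2 j = s ∧ zoE l j = o}) m' ?_ ?_ ?_ ?_ U o <;>
          rw [cJI] <;>
          refine tr_bound (nm i) _ _ (r (cl i)) Q K m' (St i) _ _ _ _ (hCS i) (fun l => hu _)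
            (hSt0 i) (hr1' i) (by omega) (hdj i) hlb ?_
          · simpa [cnt] using h1 i
          · simpa [cnt] using h2 i
          · simpa [cnt] using h3 i
          · simpa [cnt] using h4 i)
      exact ⟨β, fun _ => hβ⟩
    · exact ⟨fun _ _ _ => (Classical.arbitrary _, 0, 0), fun h' => absurd h' h⟩
  choose β hβ using hβ
  replace hβ := fun i => hβ (pl i) ⟨i, rfl⟩
  obtain ⟨ω, hω⟩ := count_fib (P := Tn (GG Q) Cl m) pl
  rw [hJ] at hω
  let kc : Cs → Knd Cl Q → Cl := fun Z κ => κ.elim (T.hc Z) Prod.fst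
  let ka : Knd Cl Q → GG Q := fun κ => κ.elim (fun _ => 0) fun x => (x.2, 0)
  have hkc : ∀ Z κ, T.cs (kc Z κ) = (knD Sh T.cs Q).ks κ := by
    rintro Z (s | x)
    · exact T.hc_side Z s
    · rfl
  have hka : ∀ κ, (ka κ).2 = 0 := by rintro (s | x) <;> rfl
  let bs : Pn Cs Sh (Q ^ 2 * m' + 2) → Option (Knd Cl Q) × Sh →
      Finset (Bu (GG Q) Cl (ZMod Q × Fin (Q ^ 2 * m' + 2))) := fun π =>
    bsn S T JI JS _ π.1 fun l => π.2 l
  have hb : ∀ i l b j, b ∈ bs (pl i) l → S.us l.2 j = true →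
      (β (pl i) (md l) b j).1 = (if S.sl l.2 j = true then b.1.1 else b.1.2.1) ∧
      (β (pl i) (md l) b j).2.1 (if S.sl l.2 j = true then b.1.2.1 else b.1.1) =
        (if S.sl l.2 j = S.sl l.2 0 then b.2.1 else b.1.2.2 - b.2.1) ∧
      (β (pl i) (md l) b j).2.1 (T.hc (cl i) (!S.sl l.2 j)) ∈
        zs T (cl i) (β (pl i) (md l) b j).1 (zoE (md l) j) := fun i l b j h hj =>
    (hβ i).2 (md l) b j ((mem_bsn ..).1 h).1 ((mem_bsn ..).1 h).2.1 hj
  have hsup : ∀ i l b, b ∈ bs (pl i) l → T.cs b.1.1 = true ∧ T.cs b.1.2.1 = false ∧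
      b.1.2.2.1.1 ∈ T.S b.1.1 b.1.2.1 (cl i) none ∧ b.1.2.2.1.2 ∈ JI (cl i) ∧ b.1.2.2.2 ≠ 0 := by
    intro i l b h
    have h1 := ((mem_bsn ..).1 h).1
    have h2 := SI_supp T JI _ _ _ _ h1
    simp only [SI, mem_product, mem_nz] at h1
    exact ⟨h2.1, h2.2.1, h1.1.1, h1.1.2, h1.2⟩
  have hside : ∀ i l b j, b ∈ bs (pl i) l → S.us l.2 j = true →
      T.cs (β (pl i) (md l) b j).1 = S.sl l.2 j := fun i l b j h hj => by
    rw [(hb i l b j h hj).1]
    have := hsup i l b h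
    cases S.sl l.2 j
    · exact this.2.1
    · exact this.1
  have hin : ∀ i l b j j', b ∈ bs (pl i) l → S.us l.2 j = true → S.us l.2 j' = true →
      S.sl l.2 j = true → S.sl l.2 j' = false → (β (pl i) (md l) b j).1 = b.1.1 ∧
        (β (pl i) (md l) b j').1 = b.1.2.1 ∧ b.1.1 ≠ b.1.2.1 ∧
        col (β (pl i) (md l) b j) (β (pl i) (md l) b j') = b.1.2.2 := by
    intro i l b j j' h hj hj' o o'
    obtain ⟨a1, a2, -⟩ := hb i l b j h hj
    obtain ⟨b1, b2, -⟩ := hb i l b j' h hj'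
    obtain ⟨c1, c2, -⟩ := hsup i l b h
    simp only [o, o', Bool.false_eq_true, if_false, if_true] at a1 a2 b1 b2
    refine ⟨a1, b1, fun e => by simp [e, c2] at c1, ?_⟩
    simp only [col, a1, b1, a2, b2]
    cases S.sl l.2 0 <;> simp
  have hroot : ∀ i σ b U a, b ∈ bs (pl i) (some (Sum.inr (U, a)), σ) → S.us σ 0 = true →
      U ≠ (β (pl i) (some false, σ) b 0).1 ∧ T.cs U ≠ S.sl σ 0 ∧
      (a, 0) + (β (pl i) (some false, σ) b 0).2.1 U = ((b.1.2.2.1.1, b.2.2.1), b.2.1.2) ∧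
      b.2.1.2 ≠ 0 ∧ b.2.2.1 ∈ JS (cl i) (T.cs U) ∧
      (if T.cs U = true then (U, (β (pl i) (some false, σ) b 0).1)
        else ((β (pl i) (some false, σ) b 0).1, U)) = (b.1.1, b.1.2.1) := by
    intro i σ b U a h hj
    obtain ⟨a1, a2, -⟩ := hb i _ b 0 h hj
    have a3 := hside i _ b 0 h hj
    obtain ⟨-, o1, o2, o3, o4, o5⟩ := (mem_bsn ..).1 h
    simp only [CSt, md, Option.map, Sum.isLeft, if_true, mem_product] at o1 o2 o3 o4 o5 a1 a2 a3
    have e : (!S.sl σ 0) = T.cs U := by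
      revert o2
      cases S.sl σ 0 <;> cases T.cs U <;> simp
    refine ⟨fun e' => o2 (by rw [← a3, ← e']), o2, ?_, o5, e ▸ o1.1, ?_⟩
    · rw [← o3] at a2
      rw [a2]
      exact Prod.ext o4 (zero_add _)
    · rw [a1, ← e]
      cases hs : S.sl σ 0 <;> simp [hs] at o3 ⊢ <;> exact o3
  have hs : ∀ Z i i', pl i = pl i' → i ∈ ({i | cl i = Z} : Finset I) →
      i' ∈ ({i | cl i = Z} : Finset I) := fun Z i i' h hi => by
    have : cl i = cl i' := congrArg Prod.fst h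
    simpa [this] using hi
  have hpow : (Q ^ 4) ^ Fintype.card Cl = (Q ^ 4) ^ (Fintype.card Cl - 2) * Q ^ 4 * Q ^ 4 := by
    rw [← pow_succ, ← pow_succ]
    congr 1
    omega
  have hm'le : m' ≤ (Q ^ 4) ^ (Fintype.card Cl - 2) * m := by
    rw [hm']
    exact Nat.mul_le_mul_left _ (Nat.sub_le _ _)
  refine ⟨⟨fun i => (pl i, ω i), fun σ κ => (kc σ.1.1 κ, fun Y => ka κ + (tU (kc σ.1.1 κ) σ.2).1 Y),
    fun σ κ => (σ.1.1, (knD Sh T.cs Q).ks κ, (knD Sh T.cs Q).ke κ), fun a j => (a.1, a.2, j),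
    fun σ => bs σ.1, fun σ l b j => mv σ.2 (β σ.1 (md l) b j), fun B => T.cs B.1,
    fun B B' => purp T JS B.1 B'.1 (col B B'), fun h => h.2.1, fun h => h.2.2, ?_,
    fun i κ j => hkc _ κ, fun i l b j h hj => hside i l b j h hj, fun _ _ => rfl, fun _ _ => rfl,
    ?_, ?_, ?_, ?_, ?_, ?_, ?_, ?_, ?_, ?_, ?_⟩, rfl⟩
  · rintro ⟨Y, b⟩ j ⟨Y', b'⟩ j' h
    simpa [and_assoc] using h
  · intro i l b j l' b' j' h hj h' hj' e
    obtain ⟨a1, a2, a3⟩ := (mem_bsn ..).1 h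
    obtain ⟨b1, b2, b3⟩ := (mem_bsn ..).1 h'
    obtain ⟨e1, rfl, rfl⟩ := (hβ i).1 _ _ _ _ _ _ a1 a2 hj b1 b2 hj' (mv_inj _ e)
    exact ⟨okb_inj S T _ e1 a3 b3, rfl, rfl⟩
  · intro i l b j κ j' h hj e
    have a := (hb i l b j h hj).2.2
    simp only [zs, mem_product, mem_nz] at a
    simp only [mv, Prod.mk.injEq] at e
    have e2 := congrFun (congrArg Prod.fst e.2) (T.hc (cl i) (!S.sl l.2 j))
    simp only [Prod.fst_add, Pi.add_apply, e.1, add_left_inj] at e2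
    exact a.2 (e2 ▸ hka κ)
  · intro i κ κ' j j' k1 k2
    have : kc (cl i) κ ≠ kc (cl i) κ' := fun e => by
      have := hkc (cl i) κ
      rw [e, hkc, k1, k2] at this
      simp at this
    show purp T JS _ _ (col (kc (cl i) κ, _, j) (kc (cl i) κ', _, j')) = none
    rw [col_cells _ _ _ _ _ this, purp, if_pos (by simp [hka])]
  · rintro i ⟨o, σ⟩ b κ j' h hj rfl
    have a3 := hside i _ b 0 h hj
    rcases κ with s | ⟨U, a⟩
    · have o1 : s ≠ S.sl σ 0 := ((mem_bsn ..).1 h).2.2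
      have a := (hb i _ b 0 h hj).2.2
      have e : (!S.sl σ 0) = s := by
        revert o1
        cases S.sl σ 0 <;> cases s <;> simp
      simp only [zs, zoE, md, Option.map, Sum.isLeft, and_self, decide_true, if_true, mem_product,
        mem_nz, e, zn] at a a3
      have hne : T.hc (cl i) s ≠ (β (pl i) (some true, σ) b 0).1 := fun e' =>
        o1 (by rw [← a3, ← e', T.hc_side])
      have c := col_cell (ω i) (T.hc (cl i) s) 0 j' hne
      rw [zero_add] at c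
      cases s
      · have a4 : T.cs (β (pl i) (some true, σ) b 0).1 = true := by simpa [a3] using e
        show purp T JS (β (pl i) (some true, σ) b 0).1 (T.hc (cl i) false) (col _ _) = _
        rw [col_comm]
        simp only [a4, if_true] at a
        exact c ▸ purp_root T JS dJ1 a4 (T.hc_side _ _) a.2 (cl i, false, true) a.1.1
      · have a4 : T.cs (β (pl i) (some true, σ) b 0).1 = false := by simpa [a3] using e
        show purp T JS (T.hc (cl i) true) (β (pl i) (some true, σ) b 0).1 (col _ _) = _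
        simp only [a4, Bool.false_eq_true, if_false] at a
        exact c ▸ purp_root T JS dJ1 (T.hc_side _ _) a4 a.2 (cl i, true, true) a.1.1
    · obtain ⟨r1, r2, r3, r4, r5, r6⟩ := hroot i σ b U a h hj
      obtain ⟨s1, s2, s3, -⟩ := hsup i _ b h
      have c := (col_cell (ω i) U (a, 0) j' r1).trans r3
      cases hU : T.cs U
      · simp only [hU, Bool.false_eq_true, if_false, Prod.mk.injEq] at r5 r6
        have hk : ¬ (knD Sh T.cs Q).ks (Sum.inr (U, a)) = true := by simp [knD, hU]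
        rw [if_neg hk]
        show purp T JS (β (pl i) (some false, σ) b 0).1 U (col _ _) = some (some (cl i, T.cs U, false))
        rw [col_comm, hU]
        refine c ▸ purp_root (c := ((b.1.2.2.1.1, b.2.2.1), b.2.1.2)) T JS dJ1 (r6.1 ▸ s1) hU r4
          (cl i, false, false) ?_
        rw [r6.1, r6.2]
        exact ⟨s3, r5⟩
      · simp only [hU, if_true, Prod.mk.injEq] at r5 r6
        have hk : (knD Sh T.cs Q).ks (Sum.inr (U, a)) = true := hU
        rw [if_pos hk]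
        show purp T JS U (β (pl i) (some false, σ) b 0).1 (col _ _) = some (some (cl i, T.cs U, false))
        rw [hU]
        refine c ▸ purp_root (c := ((b.1.2.2.1.1, b.2.2.1), b.2.1.2)) T JS dJ1 hU (r6.2 ▸ s2) r4
          (cl i, true, false) ?_
        rw [r6.1, r6.2]
        exact ⟨s3, r5⟩
  · intro i l b j j' h hj hj' o o'
    obtain ⟨a1, a2, a3, a4⟩ := hin i l b j j' h hj hj' o o'
    obtain ⟨-, -, s3, s4, s5⟩ := hsup i l b h
    show purp T JS (β (pl i) (md l) b j).1 (β (pl i) (md l) b j').1 (col _ _) = _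
    rw [col_mv _ (by rwa [a1, a2]), a4, a1, a2]
    exact purp_in T JS s5 (cl i) s3 fun s => dJ2 _ _ s s4
  · rintro i ⟨o, σ⟩
    have big : ∀ o : Option (Knd Cl Q), (md (o, σ)).1 ≠ some false →
        (∀ b, okb S T (Q ^ 2 * m' + 2) (o, σ) b) →
        nm i (md (o, σ)) ≤ q' * #(bs (pl i) (o, σ)) := fun o e1 e2 => by
      have e3 := size_big S T JI JS _ (cl i) (N i) (o, σ) (hNM i _) e1 e2
      refine (Nat.lt_mul_div_succ _ (hr0 i)).le.trans (le_trans ?_ (congrArg (q' * ·) e3).ge)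
      rw [hN2 i _ e1, cJI]
      nth_rewrite 1 [hr]
      calc _ ≤ T.wt (cl i) * (jI (cl i) * (Q - 1)) * (Q * Q ^ 3 * q') *
            (nm i (md (o, σ)) / r (cl i) + 1) := by gcongr; omega
        _ = _ := by ring
    rcases o with _ | s | ⟨U, a⟩
    · exact (n1 i σ).trans (big none (by simp [md]) fun _ => trivial)
    · have := n2 i s σ
      split_ifs at this with e
      · omega
      · exact this.trans (big (some (Sum.inl s)) (by simp [md]) fun _ => e)
    · have := n3 i U a σ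
      have p : 0 < T.wt (cl i) * Q ^ 3 := by have := hwt i; positivity
      refine Nat.le_of_mul_le_mul_right (this.trans ?_) p
      split_ifs with e
      · exact Nat.zero_le _
      have e3 := size_small S T JI JS _ (cl i) (N i) U a σ (hNM i _) e
      rw [hN1 i _ rfl, cJI, cJS] at e3
      have e4 := (Nat.lt_mul_div_succ (nm i (some false, σ))
        (Nat.mul_pos (hr0 i) (hjS i (!S.sl σ 0)))).le
      have e5 : T.wt (cl i) * Q ^ 3 * q' ≤ r (cl i) * jS (cl i) (!S.sl σ 0) := by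
        have := hjI i
        have := hjS i (!S.sl σ 0)
        rw [hr]
        calc _ = T.wt (cl i) * (1 * 1) * (1 * Q ^ 3 * q') * 1 := by ring
          _ ≤ _ := by gcongr <;> omega
      generalize nm i (some false, σ) / (r (cl i) * jS (cl i) !S.sl σ 0) = x at e3 e4
      calc _ ≤ T.mg (cl i) U * (r (cl i) * jS (cl i) (!S.sl σ 0) * (x + 1) +
            r (cl i) * jS (cl i) (!S.sl σ 0)) := by gcongr
        _ = q' * (T.mg (cl i) U * (jI (cl i) * (Q - 1)) *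
            ((Q - 1) * (jS (cl i) (!S.sl σ 0) * (x + 2)))) * (T.wt (cl i) * Q ^ 3) := by
          rw [hr]
          ring
        _ ≤ _ := by gcongr
  · rintro ⟨U, α⟩ ⟨Z, s, e⟩
    have := hω _ Unit {i | cl i = Z} (hs Z) ((AddMonoidHom.fst _ _).comp (tU U)) univ
      (fun a _ => by
        obtain ⟨p, hp⟩ := tU_surj (m := m) U (a, 0)
        exact ⟨p, congrArg Prod.fst hp⟩) (fun _ => univ) (fun _ _ => α) 1 1 (by simp)
    simp only [card_univ, Fintype.card_pi, hG, prod_const, mul_one] at this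
    have h3 := (this.trans (Nat.add_le_add_right (hcl Z) _)).trans hcap
    rw [mul_comm] at h3
    refine le_trans ?_ (Nat.le_of_mul_le_mul_left h3 (by positivity))
    refine card_le_card_of_injOn (fun i => (i, ())) (fun i hi => ?_)
      (fun i _ j _ h => by simpa using h)
    simp only [coe_filter, mem_univ, true_and, Set.mem_ofPred_eq, Prod.mk.injEq, mem_filter] at hi ⊢
    obtain ⟨κ, k1, ⟨rfl, rfl⟩, rfl, -⟩ := hi
    rcases κ with s | x
    · exact ⟨rfl, funext fun Y => (zero_add _).symm⟩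
    · simp [knD] at k1
  · rintro ⟨U, α⟩
    have := hω _ (G1 Q) univ (by simp) ((AddMonoidHom.fst _ _).comp (tU U)) univ
      (fun a _ => by
        obtain ⟨p, hp⟩ := tU_surj (m := m) U (a, 0)
        exact ⟨p, congrArg Prod.fst hp⟩) (fun _ => univ) (fun _ a => fun Y => α Y - (a, 0)) 1
      (Q ^ 3) (fun _ _ => by rw [card_univ, card_G1, mul_one])
    simp only [card_univ, Fintype.card_pi, hG, prod_const, mul_one] at this
    have h3 := this.trans hr1
    rw [mul_comm] at h3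
    refine le_trans ?_ (Nat.le_of_mul_le_mul_left h3 (by positivity))
    refine le_trans (card_le_card fun i hi => ?_) (card_image_le (f := Prod.fst))
    simp only [mem_filter, mem_univ, true_and, Prod.mk.injEq] at hi
    obtain ⟨κ, rfl, rfl⟩ := hi
    refine mem_image.2 ⟨(i, (ka κ).1), mem_filter.2 ⟨mem_univ _, mem_univ _, mem_univ _, ?_⟩, rfl⟩
    funext Y
    have : ((ka κ).1, (0 : ZMod Q)) = ka κ := Prod.ext rfl (hka κ).symm
    simp only [this, add_sub_cancel_left]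
    rfl
  · rintro ⟨U, α⟩ B
    refine gen_le2 _ _ fun A hA h0 => ?_
    have key : ∀ x ∈ A, U ≠ B.1 ∧
        (α B.1 + B.2.1 U).1.1 ∈ T.S (if T.cs U = true then (U, B.1) else (B.1, U)).1
          (if T.cs U = true then (U, B.1) else (B.1, U)).2 (cl x.1) none ∧
        (x.2.2 ∈ bs (pl x.1) x.2.1 ∧ S.us x.2.1.2 0 = true ∧
          (∃ a, x.2.1.1 = some (Sum.inr (U, a))) ∧
          (if S.sl x.2.1.2 0 = true then x.2.2.1.1 else x.2.2.1.2.1) = B.1 ∧
          ((x.2.2.1.2.2.1.1, x.2.2.2.2.1), x.2.2.2.1.2) = α B.1 + B.2.1 U) ∧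
        (((AddMonoidHom.fst _ _).comp (tU U)).prod (tU B.1)) (ω x.1) =
          (fun Y => α Y - x.2.1.1.elim 0 ka, B.2 - (β (pl x.1) (md x.2.1) x.2.2 0).2) := by
      rintro ⟨i, ⟨o, σ⟩, b⟩ hx
      rw [← hA] at hx
      simp only [mem_filter, mem_univ, true_and] at hx
      obtain ⟨h, hj, ⟨κ, rfl, k1, k2⟩, rfl⟩ := hx
      rcases κ with s | ⟨U', a⟩
      · simp [knD] at k1
      obtain ⟨rfl, rfl⟩ := Prod.mk.inj k2
      obtain ⟨r1, -, r3, -, -, r6⟩ := hroot i σ b U' a h hj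
      have c := (col_cell (ω i) U' (a, 0) 0 r1).trans r3
      refine ⟨r1, ?_, ⟨h, hj, ⟨a, rfl⟩, (hb i _ b 0 h hj).1.symm, c.symm⟩, ?_⟩
      · have e : (if T.cs U' = true then (U', (mv (ω i) (β (pl i) (some false, σ) b 0)).1)
            else ((mv (ω i) (β (pl i) (some false, σ) b 0)).1, U')) = (b.1.1, b.1.2.1) := r6
        have e' := congrArg (fun x => x.1.1) c
        exact e' ▸ e ▸ (hsup i _ b h).2.2.1
      · refine Prod.ext (funext fun Y => ?_) (by simp [mv])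
        exact (add_sub_cancel_left _ _).symm
    obtain ⟨x0, hx0⟩ := h0
    obtain ⟨k1, k2, -⟩ := key x0 hx0
    have := hω _ ((Option (Knd Cl Q) × Sh) × Bu (GG Q) Cl (ZMod Q × Fin (Q ^ 2 * m' + 2)))
      {i | cl i = cl x0.1} (hs _) (((AddMonoidHom.fst _ _).comp (tU U)).prod (tU B.1))
      (SQ' (GG Q) m U B.1) (tU_surj2' k1)
      (fun π => {y | y.2 ∈ bs π y.1 ∧ S.us y.1.2 0 = true ∧ (∃ a, y.1.1 = some (Sum.inr (U, a))) ∧
        (if S.sl y.1.2 0 = true then y.2.1.1 else y.2.1.2.1) = B.1 ∧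
        ((y.2.1.2.2.1.1, y.2.2.2.1), y.2.2.1.2) = α B.1 + B.2.1 U})
      (fun π y => (fun Y => α Y - y.1.1.elim 0 ka, B.2 - (β π (md y.1) y.2 0).2)) 1 (m' * Q ^ 4)
      (fun i _ => by
        rw [mul_one]
        refine (cnt_XR S T JI JS _ (cl i) (N i) U B.1 _ _ fun y hy => (mem_filter.1 hy).2).trans ?_
        rw [cJI]
        refine root_num (nm i) _ (N i) (r (cl i)) Q m' (St i) (T.δ (cl i)) _ (jS (cl i) (T.cs U))
          (fun l hl => ?_) (fun l => ?_) (hr0 i) (hjS i _) hQ0 (hr1' i) (hjQ _)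
          (le_trans (Nat.mul_le_mul_right _ (Nat.le_mul_of_pos_right _ hK)) hlb) (h6 i _)
        · obtain ⟨j, hj⟩ := card_pos.1 (Nat.pos_of_ne_zero hl)
          obtain ⟨rfl, j1, -, j2⟩ := (mem_filter.1 hj).2
          rw [hN1 i l j1, j2, Bool.not_not]
        · exact card_le_one.2 fun a ha b hb =>
            (mem_filter.1 ha).2.1.trans (mem_filter.1 hb).2.1.symm)
    have h4 : #A * #(SQ' (GG Q) m U B.1) ≤ (Q ^ 4) ^ Fintype.card Cl * n0 *
        ((Q ^ 4) ^ (Fintype.card Cl - 2) * m * Q ^ 4) := by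
      refine le_trans (le_trans ?_ this) (Nat.mul_le_mul
        ((Nat.add_le_add_right (hcl _) _).trans hcap) (Nat.mul_le_mul_right _ hm'le))
      rw [mul_one]
      refine Nat.mul_le_mul_right _ (card_le_card fun x hx => ?_)
      obtain ⟨-, j2, j3, j4⟩ := key x hx
      obtain ⟨s1, s2, -⟩ := T.supp _ _ _ _ j2
      simp only [mem_filter, mem_univ, true_and]
      exact ⟨(T.disj _ _ _ _ _ _ _ s1 s2 j2 k2).1, j3, j4⟩
    have h5 := card_SQ' (G := GG Q) (m := m) U B.1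
    rw [hG] at h5
    refine Nat.le_of_mul_le_mul_right (c := (Q ^ 4) ^ Fintype.card Cl *
      ((Q ^ 4) ^ Fintype.card Cl * m)) ?_ (by positivity)
    calc _ ≤ #A * (#(SQ' (GG Q) m U B.1) * Q ^ 4) := Nat.mul_le_mul_left _ h5
      _ ≤ (Q ^ 4) ^ Fintype.card Cl * n0 * ((Q ^ 4) ^ (Fintype.card Cl - 2) * m * Q ^ 4) *
          Q ^ 4 := by
        rw [← mul_assoc]
        exact Nat.mul_le_mul_right _ h4
      _ = _ := by
        nth_rewrite 3 [hpow]
        ring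
  · intro B B'
    refine gen_le2 _ _ fun A hA h0 => ?_
    have key : ∀ x ∈ A, B.1 ≠ B'.1 ∧ (col B B').1.1 ∈ T.S B.1 B'.1 (cl x.1) none ∧
        (x.2.2.1 ∈ bs (pl x.1) x.2.1 ∧ x.2.2.2 ≠ 0 ∧ S.us x.2.1.2 x.2.2.2 = true ∧
          x.2.2.1.1 = (B.1, B'.1, col B B')) ∧
        ((tU B.1).prod (tU B'.1)) (ω x.1) =
          (B.2 - (β (pl x.1) (md x.2.1) x.2.2.1 ((S.ext _).re x.2.1 x.2.2.2)).2,
            B'.2 - (β (pl x.1) (md x.2.1) x.2.2.1 ((S.ext _).ce x.2.1 x.2.2.2)).2) := by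
      rintro ⟨i, l, b, j⟩ hx
      rw [← hA] at hx
      simp only [mem_filter, mem_univ, true_and] at hx
      obtain ⟨h, hj0, hj, hj', ho, rfl, rfl⟩ := hx
      have o := (S.ext _).re_ce l j hj hj' ho
      obtain ⟨a1, a2, a3, a4⟩ := hin i l b _ _ h o.1 o.2.1 o.2.2.1 o.2.2.2
      have a6 := a3
      rw [← a1, ← a2] at a6
      rw [col_mv _ a6, a4]
      refine ⟨a6, ?_, ⟨h, hj0, hj, ?_⟩, by simp [mv]⟩
      · simpa only [mv, a1, a2] using (hsup i l b h).2.2.1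
      · simp only [mv, a1, a2]
    obtain ⟨x0, hx0⟩ := h0
    obtain ⟨k1, k2, -⟩ := key x0 hx0
    have := hω _ ((Option (Knd Cl Q) × Sh) × Bu (GG Q) Cl (ZMod Q × Fin (Q ^ 2 * m' + 2)) × Fin K)
      {i | cl i = cl x0.1} (hs _) ((tU B.1).prod (tU B'.1)) (SQ (GG Q) m B.1 B'.1) (tU_surj2 k1)
      (fun π => {y | y.2.1 ∈ bs π y.1 ∧ y.2.2 ≠ 0 ∧ S.us y.1.2 y.2.2 = true ∧
        y.2.1.1 = (B.1, B'.1, col B B')})
      (fun π y => (B.2 - (β π (md y.1) y.2.1 ((S.ext _).re y.1 y.2.2)).2,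
        B'.2 - (β π (md y.1) y.2.1 ((S.ext _).ce y.1 y.2.2)).2)) 1 (m' * Q ^ 4) (fun i _ => by
        rw [mul_one]
        refine (cnt_XP S T JI JS _ (cl i) (N i) _ _ fun y hy => (mem_filter.1 hy).2).trans
          (Nat.mul_le_mul_right _ ?_)
        exact tr_in (nm i) _ _ (r (cl i)) Q K m' (St i) _ _ (hCS i) (fun l => hu _) (hSt0 i) (hδ i)
          (hjI i) (hr1' i) (hjQ _) hlb (h5 i))
    have h4 : #A * #(SQ (GG Q) m B.1 B'.1) ≤ (Q ^ 4) ^ Fintype.card Cl * (m * q) *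
        ((Q ^ 4) ^ (Fintype.card Cl - 2) * m * Q ^ 4) := by
      refine le_trans (le_trans ?_ this) (Nat.mul_le_mul (((Nat.add_le_add_right (hcl _) _).trans
        hcap).trans (Nat.mul_le_mul_left _ hn0)) (Nat.mul_le_mul_right _ hm'le))
      rw [mul_one]
      refine Nat.mul_le_mul_right _ (card_le_card fun x hx => ?_)
      obtain ⟨-, j2, j3, j4⟩ := key x hx
      obtain ⟨s1, s2, -⟩ := T.supp _ _ _ _ j2
      simp only [mem_filter, mem_univ, true_and]
      exact ⟨(T.disj _ _ _ _ _ _ _ s1 s2 j2 k2).1, j3, j4⟩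
    have h5 := card_SQ (G := GG Q) (m := m) B.1 B'.1
    rw [hG] at h5
    refine Nat.le_of_mul_le_mul_right (c := (Q ^ 4) ^ Fintype.card Cl * m *
      ((Q ^ 4) ^ Fintype.card Cl * m)) ?_ (by positivity)
    calc _ ≤ #A * (#(SQ (GG Q) m B.1 B'.1) * Q ^ 4) := Nat.mul_le_mul_left _ h5
      _ ≤ (Q ^ 4) ^ Fintype.card Cl * (m * q) * ((Q ^ 4) ^ (Fintype.card Cl - 2) * m * Q ^ 4) *
          Q ^ 4 := by
        rw [← mul_assoc]
        exact Nat.mul_le_mul_right _ h4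
      _ = _ := by
        nth_rewrite 3 [hpow]
        ring
  · intro B
    have := hω _ ((Option (Knd Cl Q) × Sh) × Bu (GG Q) Cl (ZMod Q × Fin (Q ^ 2 * m' + 2)) × Fin K)
      univ (by simp) (tU B.1) univ (fun a _ => tU_surj _ a)
      (fun π => {y | y.2.1 ∈ bs π y.1 ∧ S.ma y.1.2 y.2.2 = true})
      (fun π y => B.2 - (β π (md y.1) y.2.1 y.2.2).2) q' (2 * lam + q' *
        (2 * Fintype.card Cl ^ 2 * Q ^ 9 * (K * Fintype.card (Option Bool × Sh)))) (fun i _ => by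
        refine (Nat.mul_le_mul_right _
          (cnt_XM S T JI JS _ (cl i) (N i) _ fun y hy => (mem_filter.1 hy).2)).trans ?_
        rw [cJI]
        exact mark_num (nm i) _ _ Q K _ _ q' _ lam (fun l => hr (cl i) ▸ hCS i l) (fun l => hu _)
          hQ (hjQ _) (wt_le T _) (h7 i))
    have h3 := this.trans hMk
    simp only [card_univ, Fintype.card_prod, Fintype.card_pi, ZMod.card, prod_const,
      Fintype.card_fin] at h3
    rw [mul_assoc, mul_comm, show Q * Q * Q * Q = Q ^ 4 by ring] at h3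
    refine le_trans (card_le_card fun x hx => ?_) (Nat.le_of_mul_le_mul_left h3 (by positivity))
    simp only [mem_filter, mem_univ, true_and] at hx ⊢
    obtain ⟨j1, -, j3, rfl⟩ := hx
    exact ⟨⟨j1, j3⟩, by simp [mv]⟩

end Pool.Agent.Lib.MP_12a5fd_co.BT
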