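import Pool.Agent.Lib.MP_12a5fd_co.BT.Trans

/-! The sets of colours, copies and bundles attached to a class, and their sizes. -/

set_option autoImplicit false
set_option linter.unusedSectionVars false
set_option synthInstance.maxSize 2000

namespace Pool.Agent.Lib.MP_12a5fd_co.BT

open Finset Pool.Agent.Lib.MP_2b1ae8_co.AT

variable {Sh Cl Cs : Type} [Fintype Sh] [DecidableEq Sh] [Fintype Cl] [DecidableEq Cl]
  {K Q : ℕ} [NeZero K] [NeZero Q] (S : SD Sh K) (T : DS Cl Cs (RQ Q) Q)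
  (JI : Cs → Finset (ZMod Q)) (JS : Cs → Bool → Finset (ZMod Q)) (M : ℕ)

/-- The nonzero residues. -/
def nz (Q : ℕ) [NeZero Q] : Finset (ZMod Q) := {0}ᶜ

lemma card_nz : #(nz Q) = Q - 1 := by simp [nz, card_compl]

lemma mem_nz {x : ZMod Q} : x ∈ nz Q ↔ x ≠ 0 := by simp [nz]

lemma card_GG : Fintype.card (GG Q) = Q ^ 4 := by simp; ring

lemma card_G1 : Fintype.card (G1 Q) = Q ^ 3 := by simp; ring

/-- Colours of inner edges. -/
def SI (Z : Cs) (X Y : Cl) : Finset (GG Q) := (T.S X Y Z none ×ˢ JI Z) ×ˢ nz Q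

/-- Roles of the early hub towards the cluster `U`. -/
def zn (Z : Cs) (U : Cl) : Finset (RQ Q) :=
  if T.cs U = true then T.S U (T.hc Z false) Z (some false) else T.S (T.hc Z true) U Z (some true)

/-- The two zones of a cluster. -/
def zs (Z : Cs) (U : Cl) (o : Bool) : Finset (GG Q) :=
  ((if o = true then zn T Z U else (zn T Z U)ᶜ) ×ˢ univ) ×ˢ nz Q

/-- Copies of a model label. -/
def CSt (Z : Cs) (N : Option Bool × Sh → ℕ) (l : Option Bool × Sh) : Finset (ZMod Q × Fin M) :=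
  (if l.1 = some false then JS Z (!S.sl l.2 0) else {0}) ×ˢ ({r | (r : ℕ) < N l} : Finset (Fin M))

/-- The model label of a label. -/
def md (l : Option (Knd Cl Q) × Sh) : Option Bool × Sh := (l.1.map Sum.isLeft, l.2)

/-- The bundle fits the kind of the hub. -/
def okb (l : Option (Knd Cl Q) × Sh) (b : Bu (GG Q) Cl (ZMod Q × Fin M)) : Prop :=
  match l.1 with
  | none => True
  | some (Sum.inl s) => s ≠ S.sl l.2 0
  | some (Sum.inr x) => T.cs x.1 ≠ S.sl l.2 0 ∧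
      x.1 = (if S.sl l.2 0 = true then b.1.2.1 else b.1.1) ∧
      x.2 + b.2.1.1 = (b.1.2.2.1.1, b.2.2.1) ∧ b.2.1.2 ≠ 0

open Classical in
/-- The admissible bundles of a label. -/
noncomputable def bsn (Z : Cs) (N : Option Bool × Sh → ℕ) (l : Option (Knd Cl Q) × Sh) :
    Finset (Bu (GG Q) Cl (ZMod Q × Fin M)) :=
  {b | b.1.2.2 ∈ SI T JI Z b.1.1 b.1.2.1 ∧ b.2.2 ∈ CSt S JS M Z N (md l) ∧ okb S T M l b}

lemma mem_bsn {Z : Cs} {N : Option Bool × Sh → ℕ} {l : Option (Knd Cl Q) × Sh}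
    {b : Bu (GG Q) Cl (ZMod Q × Fin M)} : b ∈ bsn S T JI JS M Z N l ↔
      b.1.2.2 ∈ SI T JI Z b.1.1 b.1.2.1 ∧ b.2.2 ∈ CSt S JS M Z N (md l) ∧ okb S T M l b := by
  simp [bsn]

lemma okb_inj {l l' : Option (Knd Cl Q) × Sh} {b : Bu (GG Q) Cl (ZMod Q × Fin M)}
    (h : md l = md l') (h1 : okb S T M l b) (h2 : okb S T M l' b) : l = l' := by
  obtain ⟨o, σ⟩ := l
  obtain ⟨o', σ'⟩ := l'
  simp only [md, Prod.mk.injEq] at h
  obtain ⟨h, rfl⟩ := h
  rcases o with _ | s | ⟨U, a⟩ <;> rcases o' with _ | s' | ⟨U', a'⟩ <;>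
    simp only [Option.map, Sum.isLeft, reduceCtorEq, Option.some.injEq, Bool.true_eq_false,
      Bool.false_eq_true] at h
  · rfl
  · simp only [okb] at h1 h2
    have : s = s' := by revert h1 h2; cases s <;> cases s' <;> cases S.sl σ 0 <;> simp
    rw [this]
  · simp only [okb] at h1 h2
    rw [h1.2.1, h2.2.1, add_right_cancel (h1.2.2.1.trans h2.2.2.1.symm)]

lemma card_SI (Z : Cs) (X Y : Cl) :
    #(SI T JI Z X Y) = #(T.S X Y Z none) * (#(JI Z) * (Q - 1)) := by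
  rw [SI, card_product, card_product, card_nz, mul_assoc]

lemma SI_supp (Z : Cs) (X Y : Cl) (x : GG Q) (h : x ∈ SI T JI Z X Y) :
    T.cs X = true ∧ T.cs Y = false ∧ X ≠ T.hc Z true ∧ Y ≠ T.hc Z false :=
  T.supp _ _ _ _ (mem_product.1 (mem_product.1 h).1).1

lemma card_pairs {G : Type} [Fintype G] [DecidableEq G] (A : Cl → Cl → Finset G) :
    #({x | x.2.2 ∈ A x.1 x.2.1} : Finset (Cl × Cl × G)) = ∑ X, ∑ Y, #(A X Y) := by
  rw [card_filter, Fintype.sum_prod_type]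
  refine sum_congr rfl fun Y _ => ?_
  rw [Fintype.sum_prod_type]
  refine sum_congr rfl fun Y' _ => ?_
  simp

lemma card_PW (Z : Cs) : #({x | x.2.2 ∈ SI T JI Z x.1 x.2.1} : Finset (Cl × Cl × GG Q)) =
    T.wt Z * (#(JI Z) * (Q - 1)) := by
  simp only [card_pairs, card_SI, DS.wt, sum_mul]

lemma card_CSt (Z : Cs) (N : Option Bool × Sh → ℕ) (l : Option Bool × Sh) (h : N l ≤ M) :
    #(CSt S JS M Z N l) = (if l.1 = some false then #(JS Z (!S.sl l.2 0)) else 1) * N l := by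
  rw [CSt, card_product, Fin.card_filter_val_lt, min_eq_right h]
  split_ifs <;> simp

lemma mg_row (Z : Cs) {U : Cl} (h : T.cs U = true) : T.mg Z U = ∑ P, #(T.S U P Z none) := by
  refine sum_congr rfl fun P _ => ?_
  rw [eq_empty_of_forall_notMem (s := T.S P U Z none) fun x hx => by
    simpa [h] using (T.supp _ _ _ _ hx).2.1]
  simp

lemma mg_col (Z : Cs) {U : Cl} (h : T.cs U = false) : T.mg Z U = ∑ P, #(T.S P U Z none) := by
  refine sum_congr rfl fun P _ => ?_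
  rw [eq_empty_of_forall_notMem (s := T.S U P Z none) fun x hx => by
    simpa [h] using (T.supp _ _ _ _ hx).1]
  simp

lemma size_big (Z : Cs) (N : Option Bool × Sh → ℕ) (l : Option (Knd Cl Q) × Sh)
    (h : N (md l) ≤ M) (h1 : (md l).1 ≠ some false) (h2 : ∀ b, okb S T M l b) :
    #(bsn S T JI JS M Z N l) = T.wt Z * (#(JI Z) * (Q - 1)) * (Q ^ 4 * N (md l)) := by
  have e : bsn S T JI JS M Z N l =
      ({x | x.2.2 ∈ SI T JI Z x.1 x.2.1} : Finset (Cl × Cl × GG Q)) ×ˢ (univ : Finset (GG Q)) ×ˢ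
        CSt S JS M Z N (md l) := by
    ext b
    simp [mem_bsn, h2]
  rw [e, card_product, card_product, card_PW, card_CSt S JS M Z N _ h, if_neg h1, card_univ,
    card_GG, one_mul]

lemma size_small (Z : Cs) (N : Option Bool × Sh → ℕ) (U : Cl) (a : G1 Q) (σ : Sh)
    (h : N (some false, σ) ≤ M) (h1 : T.cs U ≠ S.sl σ 0) :
    T.mg Z U * (#(JI Z) * (Q - 1)) * ((Q - 1) * (#(JS Z (!S.sl σ 0)) * N (some false, σ))) ≤
      #(bsn S T JI JS M Z N (some (Sum.inr (U, a)), σ)) := by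
  have e1 : T.mg Z U * (#(JI Z) * (Q - 1)) ≤ #({x | x.2.2 ∈ SI T JI Z x.1 x.2.1 ∧
      U = if S.sl σ 0 = true then x.2.1 else x.1} : Finset (Cl × Cl × GG Q)) := by
    cases hs : S.sl σ 0
    · rw [mg_row T Z (by simpa [hs] using h1), sum_mul]
      simp only [← card_SI]
      rw [← card_sigma]
      refine card_le_card_of_injOn (fun x => (U, x.1, x.2)) (fun x hx => by simpa using hx) ?_
      rintro ⟨x, y⟩ - ⟨x', y'⟩ - h
      simp only [Prod.mk.injEq, true_and] at h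
      rw [h.1, h.2]
    · rw [mg_col T Z (by simpa [hs] using h1), sum_mul]
      simp only [← card_SI]
      rw [← card_sigma]
      refine card_le_card_of_injOn (fun x => (x.1, U, x.2)) (fun x hx => by simpa using hx) ?_
      rintro ⟨x, y⟩ - ⟨x', y'⟩ - h
      simp only [Prod.mk.injEq, true_and] at h
      rw [h.1, h.2]
  have e2 := card_CSt S JS M Z N (some false, σ) h
  simp only [if_true] at e2
  refine (Nat.mul_le_mul_right _ e1).trans ?_
  rw [← e2, ← card_nz (Q := Q), ← card_product, ← card_product]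
  refine card_le_card_of_injOn
    (fun x => (x.1, ((x.1.2.2.1.1, x.2.2.1) - a, x.2.1), x.2.2)) ?_ ?_
  · rintro ⟨x, g, c⟩ hx
    simp only [coe_product, Set.mem_prod, coe_filter, mem_univ, true_and, Set.mem_ofPred_eq,
      mem_coe, mem_nz] at hx
    rw [mem_coe, mem_bsn]
    exact ⟨hx.1.1, hx.2.2, h1, hx.1.2, by simp, hx.2.1⟩
  · rintro ⟨x, g, c⟩ - ⟨x', g', c'⟩ - h
    simp only [Prod.mk.injEq] at h
    rw [h.1, h.2.1.2, h.2.2]

lemma card_zs_true (Z : Cs) (U : Cl) : #(zs T Z U true) = #(zn T Z U) * (Q * (Q - 1)) := by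
  simp [zs, card_nz, mul_assoc]

lemma card_zs_false (Z : Cs) (U : Cl) :
    #(zs T Z U false) = (Q * Q - #(zn T Z U)) * (Q * (Q - 1)) := by
  simp [zs, card_nz, mul_assoc, card_compl]

lemma zs_disj (Z : Cs) (U : Cl) (x : GG Q) (h : x ∈ zs T Z U true) : x ∉ zs T Z U false := by
  simp only [zs, if_true, mem_product, Bool.false_eq_true, if_false, mem_compl] at h ⊢
  tauto

lemma zone_num (Q c a y t d m' g : ℕ) (hc : c ≤ Q) (hg : g ≤ d * c)
    (h : t * d * y + a * (Q * m') ≤ Q * (Q * m')) :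
    t * (g * (y * (Q - 1))) ≤ (Q * Q - a * c) * (Q * (Q - 1)) * m' := by
  have h1 : t * d * y ≤ (Q - a) * (Q * m') := by rw [Nat.sub_mul]; omega
  have h2 : (Q - a) * c ≤ Q * Q - a * c := by
    rw [Nat.sub_mul]
    exact Nat.sub_le_sub_right (Nat.mul_le_mul_left _ hc) _
  calc _ ≤ t * (d * c * (y * (Q - 1))) := by gcongr
    _ = t * d * y * (c * (Q - 1)) := by ring
    _ ≤ (Q - a) * (Q * m') * (c * (Q - 1)) := by gcongr
    _ = (Q - a) * c * (Q * (Q - 1)) * m' := by ring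
    _ ≤ _ := by gcongr

/-- The hypothesis of the base embedding. -/
lemma base_ok (Z : Cs) (t : Bool → Bool → ℕ) (m' : ℕ)
    (h1 : 1 * t false true * (T.δ Z * #(JI Z)) + 0 * (Q * m') ≤ T.a Z * (Q * m'))
    (h2 : 1 * t true true * (T.δ Z * #(JI Z)) + 0 * (Q * m') ≤ T.b Z * (Q * m'))
    (h3 : 1 * t false false * (T.δ Z * #(JI Z)) + T.a Z * (Q * m') ≤ Q * (Q * m'))
    (h4 : 2 * t true false * (T.δ Z * #(JI Z)) + 2 * T.b Z * (Q * m') ≤ Q * (Q * m'))
    (U : Cl) (o : Bool) :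
    t (T.cs U) o * ∑ P, (#(SI T JI Z U P) + #(SI T JI Z P U)) ≤ #(zs T Z U o) * m' := by
  have e : ∑ P, (#(SI T JI Z U P) + #(SI T JI Z P U)) = T.mg Z U * (#(JI Z) * (Q - 1)) := by
    simp only [card_SI, DS.mg, sum_mul, add_mul]
  rw [e]
  simp only [one_mul, zero_mul, add_zero] at h1 h2 h3
  cases hU : T.cs U
  · have g1 : T.mg Z U ≤ T.δ Z * T.c Z U := (mg_col T Z hU).trans_le (T.mgC Z U)
    have g2 : #(zn T Z U) = T.a Z * T.c Z U := by simp [zn, hU, T.zoneC Z U hU]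
    cases o
    · rw [card_zs_false, g2]
      exact zone_num _ _ _ _ _ _ _ _ (T.c_le Z U) g1 (by rw [mul_assoc]; exact h3)
    · rw [card_zs_true, g2]
      calc _ ≤ t false true * (T.δ Z * T.c Z U * (#(JI Z) * (Q - 1))) := by gcongr
        _ = t false true * (T.δ Z * #(JI Z)) * (T.c Z U * (Q - 1)) := by ring
        _ ≤ T.a Z * (Q * m') * (T.c Z U * (Q - 1)) := Nat.mul_le_mul_right _ h1
        _ = _ := by ring
  · have g1 : T.mg Z U ≤ 2 * T.δ Z * T.c Z U := (mg_row T Z hU).trans_le (T.mgR Z U)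
    have g2 : #(zn T Z U) = 2 * T.b Z * T.c Z U := by simp [zn, hU, T.zoneR Z U hU]
    cases o
    · rw [card_zs_false, g2]
      refine zone_num _ _ _ _ _ _ _ _ (T.c_le Z U) g1 (le_trans (le_of_eq ?_) h4)
      ring
    · rw [card_zs_true, g2]
      calc _ ≤ t true true * (2 * T.δ Z * T.c Z U * (#(JI Z) * (Q - 1))) := by gcongr
        _ = t true true * (T.δ Z * #(JI Z)) * (2 * T.c Z U * (Q - 1)) := by ring
        _ ≤ T.b Z * (Q * m') * (2 * T.c Z U * (Q - 1)) := Nat.mul_le_mul_right _ h2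
        _ = _ := by ring

end Pool.Agent.Lib.MP_12a5fd_co.BT
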