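import Pool.Agent.Lib.MP_12a5fd_co.BT.Blocks1

/-! Counting the incidences of the bundles of one plan. -/

set_option autoImplicit false
set_option linter.unusedSectionVars false
set_option synthInstance.maxSize 2000

namespace Pool.Agent.Lib.MP_12a5fd_co.BT

open Finset Pool.Agent.Lib.MP_2b1ae8_co.AT

variable {Sh Cl Cs : Type} [Fintype Sh] [DecidableEq Sh] [Fintype Cl] [DecidableEq Cl]
  {K Q : ℕ} [NeZero K] [NeZero Q] (S : SD Sh K) (T : DS Cl Cs (RQ Q) Q)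
  (JI : Cs → Finset (ZMod Q)) (JS : Cs → Bool → Finset (ZMod Q)) (M : ℕ)

lemma card_TC {Lm Cp : Type} [Fintype Lm] [DecidableEq Lm] [Fintype Cp] [DecidableEq Cp]
    (CS : Lm → Finset Cp) (p : Lm → Fin K → Prop) [∀ l j, Decidable (p l j)] :
    #({x | x.2.1 ∈ CS x.1 ∧ p x.1 x.2.2} : Finset (Lm × Cp × Fin K)) ≤
      ∑ l, #(CS l) * #{j | p l j} := by
  rw [card_eq_sum_card_fiberwise (f := Prod.fst) (t := univ) (fun _ _ => mem_univ _)]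
  refine sum_le_sum fun l _ => ?_
  rw [← card_product]
  refine card_le_card_of_injOn (fun x => x.2) (fun x hx => ?_) (fun x hx y hy h => ?_)
  · simp only [coe_filter, mem_filter, mem_univ, true_and, Set.mem_ofPred_eq] at hx
    obtain ⟨h1, rfl⟩ := hx
    simpa using h1
  · simp only [coe_filter, mem_filter, mem_univ, true_and, Set.mem_ofPred_eq] at hx hy
    exact Prod.ext (hx.2.trans hy.2.symm) h

lemma cnt_XP (Z : Cs) (N : Option Bool × Sh → ℕ) (c : Cl × Cl × GG Q)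
    (A : Finset ((Option (Knd Cl Q) × Sh) × Bu (GG Q) Cl (ZMod Q × Fin M) × Fin K))
    (hA : ∀ y ∈ A, y.2.1 ∈ bsn S T JI JS M Z N y.1 ∧ y.2.2 ≠ 0 ∧ S.us y.1.2 y.2.2 = true ∧
      y.2.1.1 = c) :
    #A ≤ (∑ l, #(CSt S JS M Z N l) * #{j | j ≠ 0 ∧ S.us l.2 j = true}) * Q ^ 4 := by
  refine le_trans ?_ (Nat.mul_le_mul (card_TC (CSt S JS M Z N) fun l j => j ≠ 0 ∧ S.us l.2 j = true)
    ((card_univ (α := GG Q)).trans card_GG).le)
  rw [← card_product]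
  refine card_le_card_of_injOn (fun y => ((md y.1, y.2.1.2.2, y.2.2), y.2.1.2.1)) ?_ ?_
  · intro y hy
    obtain ⟨h1, h2, h3, -⟩ := hA y hy
    simpa using ⟨((mem_bsn ..).1 h1).2.1, h2, h3⟩
  · rintro ⟨l, ⟨x, u, r⟩, j⟩ hy ⟨l', ⟨x', u', r'⟩, j'⟩ hy' h
    obtain ⟨h1, -, -, rfl⟩ := hA _ hy
    obtain ⟨h2, -, -, rfl⟩ := hA _ hy'
    simp only [Prod.mk.injEq] at h
    obtain ⟨⟨h, rfl, rfl⟩, rfl⟩ := h
    rw [okb_inj S T M h ((mem_bsn ..).1 h1).2.2 ((mem_bsn ..).1 h2).2.2]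

lemma cnt_XM (Z : Cs) (N : Option Bool × Sh → ℕ)
    (A : Finset ((Option (Knd Cl Q) × Sh) × Bu (GG Q) Cl (ZMod Q × Fin M) × Fin K))
    (hA : ∀ y ∈ A, y.2.1 ∈ bsn S T JI JS M Z N y.1 ∧ S.ma y.1.2 y.2.2 = true) :
    #A ≤ (∑ l, #(CSt S JS M Z N l) * #{j | S.ma l.2 j = true}) *
      (T.wt Z * (#(JI Z) * (Q - 1)) * Q ^ 4) := by
  refine le_trans ?_ (Nat.mul_le_mul (card_TC (CSt S JS M Z N) fun l j => S.ma l.2 j = true)
    (Nat.mul_le_mul (card_PW T JI Z).le ((card_univ (α := GG Q)).trans card_GG).le))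
  rw [← card_product, ← card_product]
  refine card_le_card_of_injOn (fun y => ((md y.1, y.2.1.2.2, y.2.2), y.2.1.1, y.2.1.2.1)) ?_ ?_
  · intro y hy
    obtain ⟨h1, h2⟩ := hA y hy
    simpa using ⟨⟨((mem_bsn ..).1 h1).2.1, h2⟩, ((mem_bsn ..).1 h1).1⟩
  · rintro ⟨l, ⟨x, u, r⟩, j⟩ hy ⟨l', ⟨x', u', r'⟩, j'⟩ hy' h
    obtain ⟨h1, -⟩ := hA _ hy
    obtain ⟨h2, -⟩ := hA _ hy'
    simp only [Prod.mk.injEq] at h
    obtain ⟨⟨h, rfl, rfl⟩, rfl, rfl⟩ := h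
    rw [okb_inj S T M h ((mem_bsn ..).1 h1).2.2 ((mem_bsn ..).1 h2).2.2]

lemma cnt_XR (Z : Cs) (N : Option Bool × Sh → ℕ) (U P : Cl) (c : GG Q)
    (A : Finset ((Option (Knd Cl Q) × Sh) × Bu (GG Q) Cl (ZMod Q × Fin M)))
    (hA : ∀ y ∈ A, y.2 ∈ bsn S T JI JS M Z N y.1 ∧ S.us y.1.2 0 = true ∧
      (∃ a, y.1.1 = some (Sum.inr (U, a))) ∧
      (if S.sl y.1.2 0 = true then y.2.1.1 else y.2.1.2.1) = P ∧
      ((y.2.1.2.2.1.1, y.2.2.2.1), y.2.2.1.2) = c) :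
    #A ≤ (∑ l, N l * #{j | j = 0 ∧ l.1 = some false ∧ S.us l.2 j = true ∧
      S.sl l.2 j = !T.cs U}) * (#(JI Z) * (Q - 1) * Q ^ 3) := by
  refine le_trans ?_ (Nat.mul_le_mul (card_TR M K N fun l j => j = 0 ∧ l.1 = some false ∧
    S.us l.2 j = true ∧ S.sl l.2 j = !T.cs U) (Nat.mul_le_mul
      (Nat.mul_le_mul_left _ card_nz.le) ((card_univ (α := G1 Q)).trans card_G1).le))
  rw [← card_product, ← card_product, ← card_product]
  refine card_le_card_of_injOn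
    (fun y => ((md y.1, y.2.2.2.2, 0), (y.2.1.2.2.1.2, y.2.1.2.2.2), y.2.2.1.1)) ?_ ?_
  · rintro ⟨⟨o, σ⟩, b⟩ hy
    obtain ⟨h1, h2, ⟨a, rfl⟩, -⟩ := hA _ hy
    obtain ⟨b1, b2, b3⟩ := (mem_bsn ..).1 h1
    simp only [SI, CSt, mem_product, mem_filter, mem_univ, true_and, okb] at b1 b2 b3 h2
    have : S.sl σ 0 = !T.cs U := by
      have := b3.1
      revert this
      cases S.sl σ 0 <;> cases T.cs U <;> simp
    simpa [TR, md] using ⟨⟨b2.2, h2, this⟩, b1.1.2, b1.2⟩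
  · rintro ⟨l, ⟨X, Y, ⟨w, j1⟩, g⟩, ⟨u, u2⟩, j, r⟩ hy
      ⟨l', ⟨X', Y', ⟨w', j1'⟩, g'⟩, ⟨u', u2'⟩, j', r'⟩ hy' h
    obtain ⟨h1, -, ⟨a, a1⟩, p1, rfl⟩ := hA _ hy
    obtain ⟨h2, -, ⟨a', a2⟩, p2, c2⟩ := hA _ hy'
    simp only [Prod.mk.injEq] at h c2 p1 p2 a1 a2
    obtain ⟨⟨h, rfl, -⟩, ⟨rfl, rfl⟩, rfl⟩ := h
    obtain ⟨⟨rfl, rfl⟩, rfl⟩ := c2
    have o1 := ((mem_bsn ..).1 h1).2.2
    have o2 := ((mem_bsn ..).1 h2).2.2
    have e : l.2 = l'.2 := (congrArg Prod.snd h :)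
    have : X = X' ∧ Y = Y' := by
      have q1 := o1
      have q2 := o2
      simp only [okb, a1, a2] at q1 q2
      rw [← e] at q2 p2
      have r1 := q1.2.1
      have r2 := q2.2.1
      cases hs : S.sl l.2 0 <;>
        simp only [hs, if_true, Bool.false_eq_true, if_false] at r1 r2 p1 p2
      · exact ⟨r1.symm.trans r2, p1.trans p2.symm⟩
      · exact ⟨p1.trans p2.symm, r1.symm.trans r2⟩
    obtain ⟨rfl, rfl⟩ := this
    rw [okb_inj S T M h o1 o2]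

lemma root_num {Lm : Type} [Fintype Lm] (nm u N : Lm → ℕ) (r Q m' St d j y : ℕ)
    (h : ∀ l, u l ≠ 0 → N l ≤ nm l / (r * y) + 2) (hu : ∀ l, u l ≤ 1) (hr0 : 0 < r) (hy : 0 < y)
    (hQ : 0 < Q) (hr : d * j * St ≤ r * Q ^ 2 * m') (hjQ : j ≤ Q)
    (hlb : 4 * Q ^ 2 * Fintype.card Lm ≤ m')
    (hx : Q * Q * ∑ l, nm l * u l ≤ d * y * St) :
    (∑ l, N l * u l) * (j * (Q - 1) * Q ^ 3) ≤ m' * Q ^ 4 := by
  have e1 := tr_zero nm u (r * y)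
  have e2 : ∑ l, N l * u l ≤ ∑ l, nm l / (r * y) * u l + 2 * (1 * Fintype.card Lm) := by
    refine le_trans (sum_le_sum fun l _ => ?_)
      (tr_err nm u (fun l => nm l / (r * y) + 2) (r * y) 2 1 (fun _ => le_rfl) hu)
    by_cases h0 : u l = 0
    · simp [h0]
    · exact Nat.mul_le_mul_right _ (h l h0)
  generalize ∑ l, nm l / (r * y) * u l = t0 at e1 e2
  generalize ∑ l, N l * u l = t1 at e2
  generalize ∑ l, nm l * u l = X at e1 hx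
  have e3 : t0 * j ≤ m' := by
    refine Nat.le_of_mul_le_mul_right (c := Q * Q * (r * y)) ?_ (by positivity)
    calc _ = j * (Q * Q * (t0 * (r * y))) := by ring
      _ ≤ j * (Q * Q * X) := by gcongr
      _ ≤ j * (d * y * St) := by gcongr
      _ = y * (d * j * St) := by ring
      _ ≤ y * (r * Q ^ 2 * m') := by gcongr
      _ = _ := by ring
  obtain ⟨P, rfl⟩ : ∃ P, Q = P + 1 := ⟨Q - 1, by omega⟩
  rw [Nat.add_sub_cancel]
  have e4 : 2 * (1 * Fintype.card Lm) * j * P ≤ m' := by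
    calc _ ≤ 4 * (1 * Fintype.card Lm) * (P + 1) * (P + 1) := by gcongr <;> omega
      _ = 4 * (P + 1) ^ 2 * Fintype.card Lm := by ring
      _ ≤ _ := hlb
  calc _ ≤ (t0 + 2 * (1 * Fintype.card Lm)) * (j * P * (P + 1) ^ 3) := by gcongr
    _ = (t0 * j * P + 2 * (1 * Fintype.card Lm) * j * P) * (P + 1) ^ 3 := by ring
    _ ≤ (m' * P + m') * (P + 1) ^ 3 := by gcongr
    _ = _ := by ring

lemma mark_num {Lm : Type} [Fintype Lm] (nm u cs : Lm → ℕ) (Q K wt j q' L lam : ℕ)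
    (h : ∀ l, cs l ≤ nm l / (wt * (j * (Q - 1)) * ((Q - 1) * Q ^ 3 * q')) + 2 * Q)
    (hu : ∀ l, u l ≤ K) (hQ : 2 ≤ Q) (hj : j ≤ Q) (hwt : wt ≤ L ^ 2 * Q ^ 2)
    (hx : ∑ l, nm l * u l ≤ lam) :
    (∑ l, cs l * u l) * (wt * (j * (Q - 1)) * Q ^ 4) * q' ≤
      2 * lam + q' * (2 * L ^ 2 * Q ^ 9 * (K * Fintype.card Lm)) := by
  have e1 := (tr_zero nm u (wt * (j * (Q - 1)) * ((Q - 1) * Q ^ 3 * q'))).trans hx
  have e2 := tr_err nm u cs _ (2 * Q) K h hu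
  generalize ∑ l, nm l / (wt * (j * (Q - 1)) * ((Q - 1) * Q ^ 3 * q')) * u l = t0 at e1 e2
  generalize ∑ l, cs l * u l = t1 at e2
  have e3 : Q ≤ 2 * (Q - 1) := by omega
  have e4 : Q - 1 ≤ Q := by omega
  generalize Q - 1 = P at *
  calc _ ≤ (t0 + 2 * Q * (K * Fintype.card Lm)) * (wt * (j * P) * Q ^ 4) * q' := by gcongr
    _ = t0 * (wt * (j * P) * (Q * Q ^ 3 * q')) +
        q' * (2 * Q * (wt * (j * P) * Q ^ 4) * (K * Fintype.card Lm)) := by ring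
    _ ≤ t0 * (wt * (j * P) * (2 * P * Q ^ 3 * q')) +
        q' * (2 * Q * (L ^ 2 * Q ^ 2 * (Q * Q) * Q ^ 4) * (K * Fintype.card Lm)) := by gcongr
    _ = 2 * (t0 * (wt * (j * P) * (P * Q ^ 3 * q'))) +
        q' * (2 * L ^ 2 * Q ^ 9 * (K * Fintype.card Lm)) := by ring
    _ ≤ _ := by gcongr

lemma wt_le (Z : Cs) : T.wt Z ≤ Fintype.card Cl ^ 2 * Q ^ 2 := by
  calc _ ≤ ∑ _X : Cl, ∑ _Y : Cl, Q ^ 2 :=
        sum_le_sum fun _ _ => sum_le_sum fun _ _ => (card_le_univ _).trans (by simp [sq])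
    _ = _ := by simp [sq, mul_assoc]

end Pool.Agent.Lib.MP_12a5fd_co.BT
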