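import Pool.Agent.Lib.MP_2b1ae8_co.AT.Defs2

/-! Asymptotic packing of trees into a complete bipartite graph: labels, kinds, block structure,
cluster design and numerical conditions. Side `true` is the row side (smaller class). -/

set_option autoImplicit false

namespace Pool.Agent.Lib.MP_12a5fd_co.BT

open Finset Pool.Agent.Lib.MP_2b1ae8_co.AT

/-- What a label says about the shape of a piece: used indices, sides, marks, parent index. -/
structure SD (Lb : Type) (K : ℕ) where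
  us : Lb → Fin K → Bool
  sl : Lb → Fin K → Bool
  ma : Lb → Fin K → Bool
  cp : Lb → Fin K → Fin K

/-- The row end of the edge from index `j` to its parent index. -/
def SD.re {Lb : Type} {K : ℕ} (S : SD Lb K) (l : Lb) (j : Fin K) : Fin K :=
  if S.sl l j then j else S.cp l j

/-- The column end of the edge from index `j` to its parent index. -/
def SD.ce {Lb : Type} {K : ℕ} (S : SD Lb K) (l : Lb) (j : Fin K) : Fin K :=
  if S.sl l j then S.cp l j else j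

/-- Labels of the pieces of a decomposed forest; `Tp` is the set of top vertices of pieces. -/
structure LS1 {V I Lb : Type} [Fintype V] [DecidableEq V] [DecidableEq I] {K D g : ℕ} [NeZero K]
    (F : GF V I K D g) (sd : V → Bool) (S : SD Lb K) where
  lab : V → Lb
  ix : V → Fin K
  Tp : Finset V
  mem_Tp : ∀ v, v ∈ Tp ↔ v ∉ F.Z ∧ v ∉ F.La ∧ (F.par v ∈ F.Z ∨ F.par v ∈ F.La)
  top_mem : ∀ v, v ∉ F.Z → v ∉ F.La → F.top v ∈ Tp ∧ F.tr (F.top v) = F.tr v ∧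
    lab (F.top v) = lab v ∧ S.us (lab v) (ix v) = true
  top_self : ∀ r ∈ Tp, F.top r = r ∧ ix r = 0
  ix_inj : ∀ u v, u ∉ F.Z → u ∉ F.La → v ∉ F.Z → v ∉ F.La → F.top u = F.top v → ix u = ix v →
    u = v
  inner : ∀ v, v ∉ F.Z → v ∉ F.La → v ∉ Tp → F.top (F.par v) = F.top v ∧
    S.cp (lab v) (ix v) = ix (F.par v) ∧ ix (F.par v) < ix v
  side : ∀ v, v ∉ F.Z → v ∉ F.La → S.sl (lab v) (ix v) = sd v
  mark : ∀ v, v ∉ F.Z → v ∉ F.La → (F.par v ∈ F.La ∨ ∃ u ∈ F.La, F.par u = v) →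
    S.ma (lab v) (ix v) = true
  cnt_side : ∀ i s, ∑ r ∈ Tp with F.tr r = i,
    #{j | S.us (lab r) j = true ∧ S.sl (lab r) j = s} ≤ #{v | F.tr v = i ∧ sd v = s}
  cnt_ma : ∀ i, ∑ r ∈ Tp with F.tr r = i, #{j | S.ma (lab r) j = true} ≤
    (D + 1) * #{v ∈ F.La | F.tr v = i}

open Classical in
/-- The number of pieces of tree `i` with label `l`. -/
noncomputable def LS1.nn {V I Lb : Type} [Fintype V] [DecidableEq V] [DecidableEq I]
    {K D g : ℕ} [NeZero K] {F : GF V I K D g} {sd : V → Bool} {S : SD Lb K} (P : LS1 F sd S)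
    (i : I) (l : Lb) : ℕ := #{r ∈ P.Tp | F.tr r = i ∧ P.lab r = l}

/-- Kinds of core vertices: the kind of the hub of a label, the side of a kind, and whether it is
a kind of early vertices. -/
structure KD (Lb Kd : Type) where
  hk : Lb → Option Kd
  ks : Kd → Bool
  ke : Kd → Bool

/-- The kinds of the core vertices of a labelled forest. -/
structure KS {V I Lb Kd : Type} [Fintype V] [DecidableEq V] [DecidableEq I] {K D g : ℕ} [NeZero K]
    {F : GF V I K D g} {sd : V → Bool} {S : SD Lb K} (P : LS1 F sd S) (Y : KD Lb Kd) where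
  kn : V → Kd
  hub_some : ∀ r ∈ P.Tp, F.par r ∈ F.Z → Y.hk (P.lab r) = some (kn (F.par r))
  hub_none : ∀ r ∈ P.Tp, F.par r ∉ F.Z → Y.hk (P.lab r) = none
  kn_side : ∀ z ∈ F.Z, Y.ks (kn z) = sd z
  kn_E : ∀ z ∈ F.Z, (Y.ke (kn z) = true ↔ z ∈ F.E)
  kn_EE : ∀ u ∈ F.E, ∀ v ∈ F.E, F.tr u = F.tr v → sd u = sd v → kn u = kn v

open Classical in
/-- The block structure. `sc i` is the subclass of tree `i`; it determines the cell and the hub
instance of each kind, the admissible bundles of each label and the block of each index of each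
bundle. `pu B B'` is the purpose of the pair (row block `B`, column block `B'`): `none` for core
edges, `some none` for inner edges, `some (some h)` for root edges of the hub instance `h`. -/
structure MS2 (I Lb Kd Bn BB CC Sb Hd : Type) [Fintype I] [Fintype Lb] [Fintype Bn]
    {K : ℕ} [NeZero K] (S : SD Lb K) (Y : KD Lb Kd) (nn : I → Lb → ℕ) (m q q' n0 r1 Mk : ℕ) where
  sc : I → Sb
  cell : Sb → Kd → CC
  hid : Sb → Kd → Hd
  cb : CC → Fin m → BB
  bs : Sb → Lb → Finset Bn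
  bl : Sb → Lb → Bn → Fin K → BB
  sb : BB → Bool
  pu : BB → BB → Option (Option Hd)
  hs : Hd → Bool
  he : Hd → Bool
  cb_inj : ∀ a j a' j', cb a j = cb a' j' → a = a' ∧ j = j'
  cb_side : ∀ i κ j, sb (cb (cell (sc i) κ) j) = Y.ks κ
  bl_side : ∀ i l b j, b ∈ bs (sc i) l → S.us l j = true → sb (bl (sc i) l b j) = S.sl l j
  hs_hid : ∀ i κ, hs (hid (sc i) κ) = Y.ks κ
  he_hid : ∀ i κ, he (hid (sc i) κ) = Y.ke κ
  bl_inj : ∀ i l b j l' b' j', b ∈ bs (sc i) l → S.us l j = true → b' ∈ bs (sc i) l' →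
    S.us l' j' = true → bl (sc i) l b j = bl (sc i) l' b' j' → l = l' ∧ b = b' ∧ j = j'
  bl_ne : ∀ i l b j κ j', b ∈ bs (sc i) l → S.us l j = true →
    bl (sc i) l b j ≠ cb (cell (sc i) κ) j'
  pu_core : ∀ i κ κ' j j', Y.ks κ = true → Y.ks κ' = false →
    pu (cb (cell (sc i) κ) j) (cb (cell (sc i) κ') j') = none
  pu_root : ∀ i l b κ j', b ∈ bs (sc i) l → S.us l 0 = true → Y.hk l = some κ →
    (if Y.ks κ = true then pu (cb (cell (sc i) κ) j') (bl (sc i) l b 0)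
      else pu (bl (sc i) l b 0) (cb (cell (sc i) κ) j')) = some (some (hid (sc i) κ))
  pu_in : ∀ i l b j j', b ∈ bs (sc i) l → S.us l j = true → S.us l j' = true → S.sl l j = true →
    S.sl l j' = false → pu (bl (sc i) l b j) (bl (sc i) l b j') = some none
  size : ∀ i l, nn i l ≤ q' * #(bs (sc i) l)
  cnt_E : ∀ a h, #{i | ∃ κ, Y.ke κ = true ∧ cell (sc i) κ = a ∧ hid (sc i) κ = h} ≤ n0
  cnt_tree : ∀ a, #{i | ∃ κ, cell (sc i) κ = a} ≤ r1 * n0
  cnt_root : ∀ a B, #{x : I × Lb × Bn | x.2.2 ∈ bs (sc x.1) x.2.1 ∧ S.us x.2.1 0 = true ∧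
    (∃ κ, Y.hk x.2.1 = some κ ∧ Y.ke κ = false ∧ cell (sc x.1) κ = a) ∧
    bl (sc x.1) x.2.1 x.2.2 0 = B} ≤ n0
  cnt_pair : ∀ B B', #{x : I × Lb × Bn × Fin K | x.2.2.1 ∈ bs (sc x.1) x.2.1 ∧ x.2.2.2 ≠ 0 ∧
    S.us x.2.1 x.2.2.2 = true ∧ S.us x.2.1 (S.cp x.2.1 x.2.2.2) = true ∧
    S.sl x.2.1 x.2.2.2 ≠ S.sl x.2.1 (S.cp x.2.1 x.2.2.2) ∧
    bl (sc x.1) x.2.1 x.2.2.1 (S.re x.2.1 x.2.2.2) = B ∧
    bl (sc x.1) x.2.1 x.2.2.1 (S.ce x.2.1 x.2.2.2) = B'} ≤ q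
  cnt_ma : ∀ B, #{x : I × Lb × Bn × Fin K | x.2.2.1 ∈ bs (sc x.1) x.2.1 ∧
    S.us x.2.1 x.2.2.2 = true ∧ S.ma x.2.1 x.2.2.2 = true ∧
    bl (sc x.1) x.2.1 x.2.2.1 x.2.2.2 = B} ≤ Mk

/-- The cluster design. `S X Y Z o` is the set of colours of the pair (row cluster `X`, column
cluster `Y`) given to class `Z`: `o = some s` for the early hub on side `s`, `o = none` for the
diagonal window. -/
structure DS (Cl Cs R : Type) [Fintype Cl] (Q : ℕ) where
  cs : Cl → Bool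
  hc : Cs → Bool → Cl
  S : Cl → Cl → Cs → Option Bool → Finset R
  a : Cs → ℕ
  b : Cs → ℕ
  δ : Cs → ℕ
  t : Cs → ℕ
  c : Cs → Cl → ℕ
  hc_side : ∀ Z s, cs (hc Z s) = s
  disj : ∀ X Y Z o Z' o' x, cs X = true → cs Y = false → x ∈ S X Y Z o → x ∈ S X Y Z' o' →
    Z = Z' ∧ o = o'
  c_le : ∀ Z U, c Z U ≤ Q
  zoneC : ∀ Z Y, cs Y = false → #(S (hc Z true) Y Z (some true)) = a Z * c Z Y
  zoneR : ∀ Z X, cs X = true → #(S X (hc Z false) Z (some false)) = 2 * b Z * c Z X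
  supp : ∀ X Y Z x, x ∈ S X Y Z none → cs X = true ∧ cs Y = false ∧ X ≠ hc Z true ∧ Y ≠ hc Z false
  mgC : ∀ Z Y, ∑ X, #(S X Y Z none) ≤ δ Z * c Z Y
  mgR : ∀ Z X, ∑ Y, #(S X Y Z none) ≤ 2 * δ Z * c Z X
  tot : ∀ Z, δ Z * Q * t Z ≤ ∑ X, ∑ Y, #(S X Y Z none)

/-- The total size of the diagonal window of class `Z`. -/
def DS.wt {Cl Cs R : Type} [Fintype Cl] {Q : ℕ} (T : DS Cl Cs R Q) (Z : Cs) : ℕ :=
  ∑ X, ∑ Y, #(T.S X Y Z none)

/-- The part of the diagonal window of class `Z` at cluster `U`. -/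
def DS.mg {Cl Cs R : Type} [Fintype Cl] {Q : ℕ} (T : DS Cl Cs R Q) (Z : Cs) (U : Cl) : ℕ :=
  ∑ P, (#(T.S U P Z none) + #(T.S P U Z none))

/-- Roles of a pair of clusters. -/
abbrev RQ (Q : ℕ) := ZMod Q × ZMod Q
/-- Offsets of cells. -/
abbrev G1 (Q : ℕ) := RQ Q × ZMod Q
/-- Colours of pairs of blocks. -/
abbrev GG (Q : ℕ) := G1 Q × ZMod Q
/-- Kinds: the early kind of a side, or a cluster and an offset. -/
abbrev Knd (Cl : Type) (Q : ℕ) := Bool ⊕ (Cl × G1 Q)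

/-- Shapes with an extra component. -/
def SD.ext {Sh : Type} {K : ℕ} (S : SD Sh K) (A : Type) : SD (A × Sh) K where
  us l := S.us l.2
  sl l := S.sl l.2
  ma l := S.ma l.2
  cp l := S.cp l.2

/-- Shapes of pieces. -/
abbrev Shp (K : ℕ) := (Fin K → Bool) × (Fin K → Bool) × (Fin K → Bool) × (Fin K → Fin K)

/-- The shape data of `Shp`. -/
def shD (K : ℕ) : SD (Shp K) K where
  us l := l.1
  sl l := l.2.1
  ma l := l.2.2.1
  cp l := l.2.2.2

/-- Refine the labels by a function of the top vertex. -/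
def LS1.ext {V I Sh A : Type} [Fintype V] [DecidableEq V] [DecidableEq I] {K D g : ℕ} [NeZero K]
    {F : GF V I K D g} {sd : V → Bool} {S : SD Sh K} (P : LS1 F sd S) (x : V → A) :
    LS1 F sd (S.ext A) where
  lab v := (x (F.top v), P.lab v)
  ix := P.ix
  Tp := P.Tp
  mem_Tp := P.mem_Tp
  top_mem v h1 h2 := by
    obtain ⟨a1, a2, a3, a4⟩ := P.top_mem v h1 h2
    exact ⟨a1, a2, by rw [(P.top_self _ a1).1, a3], a4⟩
  top_self := P.top_self
  ix_inj := P.ix_inj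
  inner := P.inner
  side := P.side
  mark := P.mark
  cnt_side := P.cnt_side
  cnt_ma := P.cnt_ma

/-- The model kind of the hub of a top vertex: none, early or small. -/
def mo {V I : Type} [Fintype V] [DecidableEq V] [DecidableEq I] {K D g : ℕ} (F : GF V I K D g)
    (r : V) : Option Bool := if F.par r ∈ F.Z then some (decide (F.par r ∈ F.E)) else none

/-- The kind of the hub of a top vertex. -/
def ko {V I Kd : Type} [Fintype V] [DecidableEq V] [DecidableEq I] {K D g : ℕ} (F : GF V I K D g)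
    (kn : V → Kd) (r : V) : Option Kd := if F.par r ∈ F.Z then some (kn (F.par r)) else none

/-- The kinds used with a cluster design. -/
def knD (Sh : Type) {Cl : Type} (cs : Cl → Bool) (Q : ℕ) :
    KD (Option (Knd Cl Q) × Sh) (Knd Cl Q) where
  hk l := l.1
  ks κ := κ.elim id fun x => cs x.1
  ke κ := κ.isLeft

/-- The number of model copies available in a base embedding. -/
def mP (Q Lr m : ℕ) : ℕ := (Q ^ 4) ^ (3 * Lr - 2) * (m - 3 * Lr)

/-- The capacity of a class of trees. -/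
def capN (Q Lr m q' : ℕ) : ℕ := (Q - 8) * (Q ^ 5 * (Q - 1) ^ 2 * q' * mP Q Lr m)

/-- All numerical conditions. `lb` is the number of model labels, `J` the number of
subclasses. -/
structure Num2 (k K D g Q Lr m q q' ζ lam e η η' θ Mh n0 r1 Mk w wd lb J : ℕ) : Prop where
  hK : 0 < K
  hD : 0 < D
  hg : 0 < g
  hQ : 9 ≤ Q
  hL : 1 ≤ Lr
  hm : 3 * Lr ≤ m
  hq' : 0 < q'
  hη : 0 < η
  hη' : 0 < η'
  hn0 : 0 < n0
  hζ : (2 * D + K) * k + K * D ≤ K * D * ζ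
  hlam : 2 * k ≤ K * lam
  he : 2 * k + g ≤ g * e
  hwd : k + capN Q Lr m q' < Q * wd
  hk : k + wd + 2 + capN Q Lr m q' * (2 * ((Q + 1) ^ 5 * Q) ^ 2 + 8) ≤ capN Q Lr m q' * (2 * Lr)
  hlb : 4 * Q ^ 2 * K * lb ≤ mP Q Lr m
  hcap : capN Q Lr m q' + J ≤ (Q ^ 4) ^ (3 * Lr) * n0
  hr1 : (k + 1 + J) * Q ^ 3 ≤ (Q ^ 4) ^ (3 * Lr) * (r1 * n0)
  hMk : (k + 1 + J) * (2 * ((D + 1) * lam) + q' * (18 * Lr ^ 2 * Q ^ 9 * (K * lb))) ≤
    (Q ^ 4) ^ (3 * Lr) * m * q' * Mk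
  hbal : g * k ≤ q' ^ 2
  hM1 : q' ≤ Mh * η'
  hM2 : 2 * ζ ≤ Mh * η'
  hM3 : (D + 1) * lam ≤ Mh * η'
  hroom : n0 + (Mh + 1) ^ (e * (3 * Lr * (Q ^ 4) ^ (3 * Lr) * m + 2)) * (e + 8 * Lr * e ^ 4) ≤ m * q
  hθ : (g + 1) * n0 * (3 * Lr * (Q ^ 4) ^ (3 * Lr) * m * q' + r1 * (2 * ζ) +
    r1 * ((D + 1) * lam)) ≤ θ * η ^ 2
  hfree : ζ + 2 * (8 * Lr * (2 * ζ + e * η') + r1 * (2 * ζ) + η + g + 1) + θ + n0 ≤ m * q
  hq : q' + e * η' + η + g + 1 + J ≤ q
  hw : lam + (D + 1) * (8 * Lr * ((D + 1) * lam + e * η') + r1 * ((D + 1) * lam) + η + g + 1 +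
    2 * Mk) < w

end Pool.Agent.Lib.MP_12a5fd_co.BT
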