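import Pool.Agent.Lib.MP_12a5fd_co.BT.Defs
import Pool.Agent.Lib.MP_2b1ae8_co.AT.Design

/-! The two-triangle cluster design. -/

set_option autoImplicit false
set_option linter.unusedSectionVars false

namespace Pool.Agent.Lib.MP_12a5fd_co.BT

open Finset Pool.Agent.Lib.MP_2b1ae8_co.AT

/-- a prescription of units to clusters extends to a bijection -/
lemma dsg_ext {C ι : Type} [Fintype C] [Fintype ι] [DecidableEq C] (Q M : ℕ) [NeZero Q]
    (hM : Fintype.card C * Q = M) (I : ι → Finset (Fin M)) (cl : ι → C)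
    (hd : ∀ i j x, x ∈ I i → x ∈ I j → i = j) (hc : ∀ c, ∑ i with cl i = c, #(I i) ≤ Q) :
    ∃ e : C × ZMod Q → Fin M, Function.Injective e ∧ ∀ i x, e x ∈ I i → x.1 = cl i := by
  classical
  have h1 : ∀ c, ∃ r : Fin M → ZMod Q, ∀ i j x y, cl i = c → cl j = c → x ∈ I i → y ∈ I j →
      r x = r y → x = y := fun c => by
    obtain ⟨r⟩ := Function.Embedding.nonempty_of_card_le
      (α := ((univ.filter fun i => cl i = c).biUnion I : Finset (Fin M))) (β := ZMod Q) (by
        rw [Fintype.card_coe, ZMod.card]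
        exact card_biUnion_le.trans (hc c))
    refine ⟨fun x => if h : x ∈ (univ.filter fun i => cl i = c).biUnion I then r ⟨x, h⟩ else 0,
      fun i j x y hi hj hx hy e => ?_⟩
    have hx' : x ∈ (univ.filter fun i => cl i = c).biUnion I :=
      mem_biUnion.2 ⟨i, mem_filter.2 ⟨mem_univ _, hi⟩, hx⟩
    have hy' : y ∈ (univ.filter fun i => cl i = c).biUnion I :=
      mem_biUnion.2 ⟨j, mem_filter.2 ⟨mem_univ _, hj⟩, hy⟩
    simp only [dif_pos hx', dif_pos hy'] at e
    exact congrArg Subtype.val (r.injective e)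
  choose r hr using h1
  have hcard : Fintype.card (Fin M) = Fintype.card (C × ZMod Q) := by
    rw [Fintype.card_fin, Fintype.card_prod, ZMod.card, hM]
  obtain ⟨f, hf⟩ : ∃ f : Fin M → C × ZMod Q, ∀ i, ∀ x ∈ I i, f x = (cl i, r (cl i) x) := by
    refine ⟨fun x => if h : ∃ i, x ∈ I i then (cl h.choose, r (cl h.choose) x)
      else Fintype.equivOfCardEq hcard x, fun i x hx => ?_⟩
    have h : ∃ i, x ∈ I i := ⟨i, hx⟩
    simp only [dif_pos h, hd _ _ _ h.choose_spec hx]
  obtain ⟨g, hg⟩ := Set.MapsTo.exists_equiv_extend_of_card_eq (t := univ) (s := {x | ∃ i, x ∈ I i})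
    (f := f) (hcard.trans card_univ.symm) (fun _ _ => mem_coe.2 (mem_univ _)) (by
      rintro x ⟨i, hi⟩ y ⟨j, hj⟩ e
      rw [hf i x hi, hf j y hj, Prod.mk.injEq] at e
      exact hr (cl j) i j x y e.1 rfl hi hj (by rw [← e.2, e.1]))
  refine ⟨fun x => g.symm ⟨x, mem_univ _⟩, fun x y e => congrArg Subtype.val (g.symm.injective e),
    fun i x hx => ?_⟩
  have h2 := hg _ ⟨i, hx⟩
  rw [Equiv.apply_symm_apply, hf i _ hx] at h2
  exact congrArg Prod.fst h2

/-- cumulative sums inside the two families -/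
lemma dsg_pre (W : ℕ → ℕ) : ∃ J : ℕ → ℕ, (∀ n, J (n + 2) = J n + W n) ∧ J 0 = 0 ∧ J 1 = 0 ∧
    (∀ n m, n ≤ m → n % 2 = m % 2 → J n ≤ J m) ∧ ∀ n, J n + J (n + 1) = ∑ i ∈ range n, W i := by
  let J : ℕ → ℕ := fun n => ∑ i ∈ range (n / 2), W (2 * i + n % 2)
  have h1 : ∀ n, J (n + 2) = J n + W n := fun n => by
    simp only [J]
    rw [show (n + 2) / 2 = n / 2 + 1 by omega, sum_range_succ, show (n + 2) % 2 = n % 2 by omega,
      Nat.div_add_mod]
  refine ⟨J, h1, rfl, rfl, fun n m h h2 => ?_, fun n => ?_⟩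
  · simp only [J, h2]
    exact sum_le_sum_of_subset (range_mono (Nat.div_le_div_right h))
  · induction n with
    | zero => rfl
    | succ n ih => rw [sum_range_succ, ← ih, h1]; ring

/-- positions of the units in the coordinates of each class -/
lemma dsg_pos {C : Type} [Fintype C] [DecidableEq C] (Q M L : ℕ) [NeZero Q]
    (hM : Fintype.card C * Q = M) (W J : ℕ → ℕ) (hJ : ∀ n, J (n + 2) = J n + W n)
    (mJ : ∀ n m, n ≤ m → n % 2 = m % 2 → J n ≤ J m) (hs : J (2 * L) + J (2 * L + 1) ≤ M)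
    (cl : Fin (2 * L) → C) (hc : ∀ c, ∑ Z with cl Z = c, W Z ≤ Q) :
    ∃ pos : ℕ → C × ZMod Q → ℕ, (∀ n, Function.Injective (pos n)) ∧ (∀ n x, pos n x < M) ∧
      (∀ n m x, n % 2 = m % 2 → pos n x = pos m x) ∧
      (∀ n m x, n % 2 ≠ m % 2 → pos n x + pos m x + 1 = M) ∧
      ∀ Z : Fin (2 * L),
        #{v | J Z ≤ pos Z (cl Z, v) ∧ pos Z (cl Z, v) < J Z + W Z} = W Z := by
  obtain ⟨u, hu⟩ : ∃ u : ℕ → Fin M → ℕ, ∀ n x, (n % 2 = 0 → u n x = x) ∧
      (n % 2 = 1 → u n x + x + 1 = M) := by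
    refine ⟨fun n x => if n % 2 = 0 then x else M - 1 - x, fun n x => ⟨fun h => if_pos h,
      fun h => ?_⟩⟩
    have := x.2
    simp only [if_neg (show ¬ n % 2 = 0 by omega)]
    omega
  have ui : ∀ n, Function.Injective (u n) := fun n x y e => Fin.ext (by
    have := hu n x
    have := hu n y
    omega)
  have hb : ∀ Z : Fin (2 * L), ((Z : ℕ) % 2 = 0 → J Z + W Z ≤ J (2 * L)) ∧
      ((Z : ℕ) % 2 = 1 → J Z + W Z ≤ J (2 * L + 1)) := fun Z => by
    have := Z.2
    rw [← hJ]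
    exact ⟨fun h => mJ _ _ (by omega) (by omega), fun h => mJ _ _ (by omega) (by omega)⟩
  obtain ⟨e, he, hI⟩ := dsg_ext Q M hM
    (fun Z : Fin (2 * L) => univ.filter fun x => J Z ≤ u Z x ∧ u Z x < J Z + W Z) cl
    (fun Z Z' x h h' => by
      simp only [mem_filter, mem_univ, true_and] at h h'
      have h1 := hu Z x
      have h2 := hu Z' x
      have h3 := hb Z
      have h4 := hb Z'
      have h5 := mJ (Z + 2) Z'
      have h6 := mJ (Z' + 2) Z
      rw [hJ] at h5 h6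
      exact Fin.ext (by omega))
    (fun c => le_trans (sum_le_sum fun Z _ => ds_le _ (ui Z) _ _ _ fun x hx => hx) (hc c))
  have pi : ∀ n, Function.Injective fun x => u n (e x) := fun n => (ui n).comp he
  have pl : ∀ n x, u n (e x) < M := fun n x => by
    have := hu n (e x)
    have := (e x).2
    omega
  refine ⟨fun n x => u n (e x), pi, pl, fun n m x h => ?_, fun n m x h => ?_, fun Z => ?_⟩
  · have := hu n (e x)
    have := hu m (e x)
    dsimp only
    omega
  · have := hu n (e x)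
    have := hu m (e x)
    dsimp only
    omega
  · refine le_antisymm (ds_le (fun v => u Z (e (cl Z, v)))
      ((pi Z).comp (Prod.mk_right_injective _)) _ _ _ fun x hx => hx) ?_
    have h1 := ds_ge _ (pi Z) M (by rw [Fintype.card_prod, ZMod.card, hM]) (pl Z) (J Z) (W Z)
      (by have := hb Z; omega) _ fun x h h' => And.intro h h'
    refine h1.trans (card_le_card_of_injOn Prod.snd (fun x hx => ?_) fun x hx y hy h => ?_)
    · have h2 := hI Z x (by simpa using hx)
      rw [← h2]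
      simpa using hx
    · exact Prod.ext ((hI Z x (by simpa using hx)).trans (hI Z y (by simpa using hy)).symm) h

lemma dsg_prod {α β : Type} [Fintype α] [Fintype β] (P : α → Prop) (R : β → Prop)
    [DecidablePred P] [DecidablePred R] :
    #{v : α × β | P v.1 ∧ R v.2} = #{v | P v} * #{v | R v} := by
  rw [← card_product, ← filter_product, univ_product_univ]

lemma dsg_mg {α β : Type} [Fintype α] [Fintype β] (P : α → β → Prop) (R : α → Prop) (d : ℕ)
    [∀ x y, Decidable (P x y)] [DecidablePred R] (h : ∀ x y, P x y → R x)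
    (h' : ∀ x, #{y | P x y} ≤ d) : ∑ x, #{y | P x y} ≤ d * #{x | R x} := by
  rw [card_filter R, mul_sum]
  refine sum_le_sum fun x _ => ?_
  split_ifs with hx
  · rw [mul_one]
    exact h' x
  · rw [mul_zero, Nat.le_zero, card_eq_zero, filter_eq_empty_iff]
    exact fun y _ hy => hx (h x y hy)

theorem design2 (Q Lr : ℕ) [NeZero Q] (a b δ : Fin (2 * Lr) → ℕ) (xr : Fin (2 * Lr) → Fin Lr)
    (habd : ∀ Z, a Z + b Z + δ Z = Q) (hb : ∀ Z, 2 * b Z ≤ Q)
    (hx : ∀ X, ∑ Z with xr Z = X, a Z ≤ Q) :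
    ∃ T : DS (Fin Lr ⊕ Fin (2 * Lr)) (Fin (2 * Lr)) (RQ Q) Q, T.cs = Sum.isLeft ∧ T.a = a ∧
      T.b = b ∧ T.δ = δ ∧ ∀ Z, T.t Z = 2 * Lr - Z - 7 := by
  classical
  have hQ : 0 < Q := Nat.pos_of_ne_zero (NeZero.ne Q)
  have hext : ∀ f : Fin (2 * Lr) → ℕ, ∃ F : ℕ → ℕ, ∀ Z : Fin (2 * Lr), F Z = f Z := fun f =>
    ⟨fun i => if h : i < 2 * Lr then f ⟨i, h⟩ else 0, fun Z => dif_pos Z.2⟩
  obtain ⟨A, hA⟩ := hext a
  obtain ⟨B, hB⟩ := hext fun Z => 2 * b Z
  obtain ⟨D, hD⟩ := hext fun Z => 2 * δ Z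
  obtain ⟨j, hj, j0, j1, mj, sj⟩ := dsg_pre A
  obtain ⟨k, hk, k0, k1, mk, sk⟩ := dsg_pre B
  obtain ⟨p, hp, p0, p1, mp, -⟩ := dsg_pre D
  have hs : ∀ n, n < 2 * Lr → 2 * j n + k n + p n ≤ n * Q := by
    intro n
    induction n using Nat.twoStepInduction with
    | zero => omega
    | one => omega
    | more n ih _ =>
      intro h
      have h1 := habd ⟨n, by omega⟩
      have h2 := hA ⟨n, by omega⟩
      have h3 := hB ⟨n, by omega⟩
      have h4 := hD ⟨n, by omega⟩
      have h5 := ih (by omega)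
      simp only at h2 h3 h4
      rw [hj, hk, hp, add_mul]
      omega
  obtain ⟨N, hN⟩ : ∃ N, Lr * Q = N := ⟨_, rfl⟩
  have hN2 : 2 * Lr * Q = 2 * N := by rw [mul_assoc, hN]
  obtain ⟨x, xi, xl, xs, xd, xc⟩ := dsg_pos Q N Lr (by rw [Fintype.card_fin, hN]) A j hj mj
    (by
      rw [sj, sum_range, sum_congr rfl fun Z _ => hA Z, ← sum_fiberwise univ xr, ← hN]
      exact (sum_le_card_nsmul _ _ Q fun X _ => hx X).trans (by simp))
    xr (by simpa only [hA] using hx)
  obtain ⟨y, yi, yl, ys, yd, yc⟩ := dsg_pos Q (2 * N) Lr (by rw [Fintype.card_fin, hN2]) B k hk mk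
    (by
      rw [sk, sum_range, sum_congr rfl fun Z _ => hB Z, ← hN2]
      exact (sum_le_card_nsmul _ _ Q fun Z _ => hb Z).trans (by simp))
    id (fun Z => by simpa [filter_eq', hB] using hb Z)
  simp only [hA, hB, id] at xc yc
  have cx : Fintype.card (Fin Lr × ZMod Q) = N := by simp [ZMod.card, hN]
  have cy : Fintype.card (Fin (2 * Lr) × ZMod Q) = 2 * N := by simp [ZMod.card, hN2]
  obtain ⟨CY, hCY⟩ : ∃ CY : Fin (2 * Lr) → Fin (2 * Lr) × ZMod Q → Prop, ∀ Z w, CY Z w ↔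
    k Z + 2 * b Z ≤ y Z w ∧ y Z w + (p Z + 2 * δ Z) + 2 * (j Z + a Z) + 2 < 2 * N :=
    ⟨_, fun _ _ => Iff.rfl⟩
  obtain ⟨RX, hRX⟩ : ∃ RX : Fin (2 * Lr) → Fin Lr × ZMod Q → Prop, ∀ Z u, RX Z u ↔
    j Z + a Z ≤ x Z u ∧ 2 * x Z u + p Z + (k Z + 2 * b Z) + 2 < 2 * N := ⟨_, fun _ _ => Iff.rfl⟩
  obtain ⟨W, hW⟩ : ∃ W : Fin (2 * Lr) → Fin Lr × ZMod Q → Fin (2 * Lr) × ZMod Q → Prop,
    ∀ Z u w, W Z u w ↔ CY Z w ∧ 2 * N ≤ 2 * x Z u + y Z w + (p Z + 2 * δ Z) + 2 ∧
      2 * x Z u + y Z w + p Z + 2 < 2 * N := ⟨_, fun _ _ _ => Iff.rfl⟩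
  obtain ⟨P, hT, hF, hO⟩ : ∃ P : Fin (2 * Lr) → Option Bool → Fin Lr × ZMod Q →
      Fin (2 * Lr) × ZMod Q → Prop,
      (∀ Z u w, P Z (some true) u w ↔ (j Z ≤ x Z u ∧ x Z u < j Z + a Z) ∧ CY Z w) ∧
      (∀ Z u w, P Z (some false) u w ↔ RX Z u ∧ (k Z ≤ y Z w ∧ y Z w < k Z + 2 * b Z)) ∧
      ∀ Z u w, P Z none u w ↔ (u.1 ≠ xr Z ∧ w.1 ≠ Z) ∧ W Z u w :=
    ⟨fun Z o u w =>
      match o with
      | some true => (j Z ≤ x Z u ∧ x Z u < j Z + a Z) ∧ CY Z w
      | some false => RX Z u ∧ (k Z ≤ y Z w ∧ y Z w < k Z + 2 * b Z)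
      | none => (u.1 ≠ xr Z ∧ w.1 ≠ Z) ∧ W Z u w,
      fun _ _ _ => Iff.rfl, fun _ _ _ => Iff.rfl, fun _ _ _ => Iff.rfl⟩
  have ex : ∀ Z o Z' o' u w, P Z o u w → P Z' o' u w → Z = Z' ∧ o = o' := by
    intro Z o Z' o' u w h h'
    have h1 := xs Z Z' u
    have h2 := xd Z Z' u
    have h3 := ys Z Z' w
    have h4 := yd Z Z' w
    have hZ : Z = Z' := by
      have m1 := mj (Z + 2) Z'
      have m2 := mk (Z + 2) Z'
      have m3 := mp (Z + 2) Z'
      have m4 := mj (Z' + 2) Z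
      have m5 := mk (Z' + 2) Z
      have m6 := mp (Z' + 2) Z
      rw [hj, hA] at m1 m4
      rw [hk, hB] at m2 m5
      rw [hp, hD] at m3 m6
      refine Fin.ext ?_
      by_cases hf : (Z : ℕ) % 2 = Z' % 2
      · have h1 := h1 hf
        have h3 := h3 hf
        rcases lt_trichotomy (Z : ℕ) Z' with hl | hl | hl
        · have m1 := m1 (by omega) (by omega)
          have m2 := m2 (by omega) (by omega)
          have m3 := m3 (by omega) (by omega)
          rcases o with _ | _ | _ <;> rcases o' with _ | _ | _ <;>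
            simp only [hT, hF, hO, hW, hCY, hRX] at h h' <;> omega
        · exact hl
        · have m4 := m4 (by omega) (by omega)
          have m5 := m5 (by omega) (by omega)
          have m6 := m6 (by omega) (by omega)
          rcases o with _ | _ | _ <;> rcases o' with _ | _ | _ <;>
            simp only [hT, hF, hO, hW, hCY, hRX] at h h' <;> omega
      · have h2 := h2 hf
        have h4 := h4 hf
        rcases o with _ | _ | _ <;> rcases o' with _ | _ | _ <;>
          simp only [hT, hF, hO, hW, hCY, hRX] at h h' <;> omega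
    subst hZ
    refine ⟨rfl, ?_⟩
    rcases o with _ | _ | _ <;> rcases o' with _ | _ | _ <;>
      first | rfl | (simp only [hT, hF, hO, hW, hCY, hRX] at h h'; omega)
  have in_le : ∀ Z w, #{u | W Z u w} ≤ δ Z := fun Z w =>
    ds_le (x Z) (xi Z) ((2 * N - (y Z w + (p Z + 2 * δ Z) + 2) + 1) / 2) (δ Z) _ fun u hu => by
      simp only [hW, hCY] at hu
      omega
  have in_ge : ∀ Z w, CY Z w → δ Z ≤ #{u | W Z u w} := fun Z w hw =>
    ds_ge (x Z) (xi Z) N cx (xl Z) ((2 * N - (y Z w + (p Z + 2 * δ Z) + 2) + 1) / 2) (δ Z)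
      (by rw [hCY] at hw; omega) _ fun u h1 h2 => (hW _ _ _).2 ⟨hw, by
        rw [hCY] at hw
        omega⟩
  have out_le : ∀ Z u, #{w | W Z u w} ≤ 2 * δ Z := fun Z u =>
    ds_le (y Z) (yi Z) (2 * N - (2 * x Z u + (p Z + 2 * δ Z) + 2)) (2 * δ Z) _ fun w hw => by
      simp only [hW, hCY] at hw
      omega
  let S : Fin Lr ⊕ Fin (2 * Lr) → Fin Lr ⊕ Fin (2 * Lr) → Fin (2 * Lr) → Option Bool →
      Finset (RQ Q) := fun U V Z o =>
    match U, V with
    | Sum.inl X, Sum.inr Y => {v | P Z o (X, v.1) (Y, v.2)}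
    | _, _ => ∅
  have hcol : ∀ Z Y, ∑ X, #(S X (Sum.inr Y) Z none) = ∑ v', #{u | P Z none u (Y, v')} := by
    intro Z Y
    simp only [S, Fintype.sum_sum_type, card_empty, sum_const_zero, add_zero, card_filter,
      Fintype.sum_prod_type]
    rw [sum_comm (γ := ZMod Q)]
    exact sum_congr rfl fun _ _ => sum_comm
  have hrow : ∀ Z X, ∑ Y, #(S (Sum.inl X) Y Z none) = ∑ v, #{w | P Z none (X, v) w} := by
    intro Z X
    simp only [S, Fintype.sum_sum_type, card_empty, sum_const_zero, zero_add, card_filter,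
      Fintype.sum_prod_type]
    exact sum_comm
  have hz1 : ∀ Z Y U, #(S U (Sum.inl Y) Z none) = 0 := fun Z Y U => by cases U <;> rfl
  refine ⟨{
    cs := Sum.isLeft
    hc := fun Z s => match s with
      | true => Sum.inl (xr Z)
      | false => Sum.inr Z
    S := S
    a := a
    b := b
    δ := δ
    t := fun Z => 2 * Lr - Z - 7
    c := fun Z U => match U with
      | Sum.inl X => #{v | RX Z (X, v)}
      | Sum.inr Y => #{v | CY Z (Y, v)}
    hc_side := fun Z s => by cases s <;> rfl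
    disj := ?_
    c_le := fun Z U => by cases U <;> exact (card_le_univ _).trans (ZMod.card Q).le
    zoneC := ?_
    zoneR := ?_
    supp := ?_
    mgC := ?_
    mgR := ?_
    tot := ?_ }, rfl, rfl, rfl, rfl, fun _ => rfl⟩
  · rintro (X | X) (Y | Y) Z o Z' o' v h1 h2 h h' <;> simp only [S, notMem_empty] at h
    exact ex _ _ _ _ _ _ (mem_filter.1 h).2 (mem_filter.1 h').2
  · rintro Z (Y | Y) h
    · simp at h
    · refine Eq.trans ?_ ((dsg_prod _ _).trans (congrArg (· * _) (xc Z)))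
      simp only [S, hT]
  · rintro Z (X | X) h
    · refine Eq.trans ?_ ((dsg_prod _ _).trans ((mul_comm _ _).trans (congrArg (· * _) (yc Z))))
      simp only [S, hF]
    · simp at h
  · rintro (X | X) (Y | Y) Z v h <;> simp only [S, notMem_empty] at h
    have := ((hO _ _ _).1 (mem_filter.1 h).2).1
    exact ⟨rfl, rfl, fun e => this.1 (Sum.inl.inj e), fun e => this.2 (Sum.inr.inj e)⟩
  · rintro Z (Y | Y)
    · simp only [hz1, sum_const_zero, Nat.zero_le]
    · rw [hcol]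
      exact dsg_mg (fun v' u => P Z none u (Y, v')) _ _
        (fun _ _ h => ((hW _ _ _).1 ((hO _ _ _).1 h).2).1) fun v' => le_trans
          (card_le_card (monotone_filter_right _ fun _ _ h => ((hO _ _ _).1 h).2)) (in_le Z _)
  · rintro Z (X | X)
    · rw [hrow]
      refine dsg_mg (fun v w => P Z none (X, v) w) _ _ (fun v w h => ?_) fun v => le_trans
        (card_le_card (monotone_filter_right _ fun _ _ h => ((hO _ _ _).1 h).2)) (out_le Z _)
      simp only [hO, hW, hCY, hRX] at h ⊢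
      omega
    · simp only [S, card_empty, sum_const_zero, Nat.zero_le]
  · intro Z
    have e0 : ∑ X, ∑ Y, #(S X Y Z none) =
        #{q : (Fin Lr × ZMod Q) × (Fin (2 * Lr) × ZMod Q) | P Z none q.1 q.2} := by
      rw [Fintype.sum_sum_type, ds_sum, Fintype.sum_prod_type]
      simp only [hrow]
      simp only [S, card_empty, sum_const_zero, add_zero]
    have e2 : #{q : (Fin Lr × ZMod Q) × (Fin (2 * Lr) × ZMod Q) |
        q.1.1 = xr Z ∧ W Z q.1 q.2} ≤ Q * (2 * δ Z) := by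
      rw [ds_sum, Fintype.sum_prod_type, sum_eq_single (xr Z) (fun Y _ hY => by simp [hY])
        (by simp)]
      refine le_trans (sum_le_card_nsmul _ _ (2 * δ Z) fun v _ => ?_) (by simp [ZMod.card])
      simpa using out_le Z (xr Z, v)
    have e3 : #{q : (Fin Lr × ZMod Q) × (Fin (2 * Lr) × ZMod Q) |
        q.2.1 = Z ∧ W Z q.1 q.2} ≤ Q * δ Z := by
      rw [ds_sum', Fintype.sum_prod_type, sum_eq_single Z (fun Y _ hY => by simp [hY]) (by simp)]
      refine le_trans (sum_le_card_nsmul _ _ (δ Z) fun v _ => ?_) (by simp [ZMod.card])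
      simpa using in_le Z (Z, v)
    have e5 : ({q | W Z q.1 q.2} : Finset ((Fin Lr × ZMod Q) × (Fin (2 * Lr) × ZMod Q))) ⊆
        (univ.filter fun q => P Z none q.1 q.2) ∪ (univ.filter fun q => q.1.1 = xr Z ∧ W Z q.1 q.2)
          ∪ (univ.filter fun q => q.2.1 = Z ∧ W Z q.1 q.2) := by
      intro q hq
      simp only [mem_filter, mem_univ, true_and, mem_union] at hq ⊢
      by_cases h1 : q.1.1 = xr Z
      · exact Or.inl (Or.inr ⟨h1, hq⟩)
      by_cases h2 : q.2.1 = Z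
      · exact Or.inr ⟨h2, hq⟩
      exact Or.inl (Or.inl ((hO _ _ _).2 ⟨⟨h1, h2⟩, hq⟩))
    have e6 := (card_le_card e5).trans ((card_union_le _ _).trans (add_le_add
      ((card_union_le _ _).trans (add_le_add le_rfl e2)) e3))
    rw [e0]
    by_cases hZ : 2 * Lr ≤ Z + 7
    · rw [show 2 * Lr - Z - 7 = 0 by omega]
      simp
    · obtain ⟨t, ht⟩ : ∃ t, 2 * Lr = Z + 7 + t := ⟨2 * Lr - Z - 7, by omega⟩
      have h1 : 2 * N = Z * Q + 4 * Q + (t + 3) * Q := by
        rw [← hN2]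
        conv_lhs => rw [ht]
        ring
      have h2 := hs Z Z.2
      have h3 := habd Z
      have h4 := ds_ge (y Z) (yi Z) _ cy (yl Z) (k Z + 2 * b Z) ((t + 3) * Q) (by omega) (CY Z)
        fun w h h' => (hCY _ _).2 ⟨h, by omega⟩
      have e1 : (t + 3) * Q * δ Z ≤
          #{q : (Fin Lr × ZMod Q) × (Fin (2 * Lr) × ZMod Q) | W Z q.1 q.2} := by
        rw [ds_sum']
        refine le_trans (Nat.mul_le_mul_right _ h4) ?_
        rw [card_filter, sum_mul]
        refine sum_le_sum fun w _ => ?_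
        split_ifs with hw
        · rw [one_mul]
          exact in_ge Z w hw
        · simp
      rw [show 2 * Lr - Z - 7 = t by omega]
      have h5 : (t + 3) * Q * δ Z = δ Z * Q * t + Q * (2 * δ Z) + Q * δ Z := by ring
      omega

end Pool.Agent.Lib.MP_12a5fd_co.BT
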