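import Pool.Agent.Lib.MP_12a5fd_co.BT.Hub1

/-! Placing the cores in many cells. -/

set_option autoImplicit false
set_option linter.unusedSectionVars false

namespace Pool.Agent.Lib.MP_12a5fd_co.BT

open Finset Pool.Agent.Lib.MP_2b1ae8_co.AT

theorem hub2 {V I C CC Gr H : Type} [Fintype V] [DecidableEq V] [Fintype I] [DecidableEq I]
    [Fintype C] [DecidableEq CC] [Fintype Gr] [DecidableEq Gr] [Fintype H] [DecidableEq H]
    [Nonempty H] (tr : V → I) (par : V → V) (dep : V → ℕ) (R A E : Finset V) (sd : V → Bool)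
    (cl : V → CC) (gr : V → Gr) (w : V → C → ℝ) (c0 : C) (e M n0 : ℕ) (ζ g η η' : ℝ)
    (Bd Bd2 : C → ℝ) (hE : E ⊆ A) (htr : ∀ v, tr (par v) = tr v)
    (hdep : ∀ v, v ∉ R → dep (par v) < dep v) (hsd : ∀ v, v ∉ R → sd (par v) ≠ sd v)
    (hw : ∀ v c, 0 ≤ w v c) (hBd : ∀ c, 0 ≤ Bd c) (hBd2 : ∀ c, 0 ≤ Bd2 c) (hg : 0 ≤ g)
    (hη : 0 < η) (hη' : 0 < η')
    (hcl : ∀ u ∈ E, ∀ v ∈ E, cl u = cl v → sd u = sd v)
    (hgr : ∀ u ∈ E, ∀ v ∈ E, tr u = tr v → sd u = sd v → cl u = cl v ∧ gr u = gr v)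
    (hc0 : ∀ v ∈ A, (1 : ℝ) + #{u ∈ A | u ∉ R ∧ par u = v} ≤ w v c0)
    (hcE : ∀ i, #{v ∈ E | tr v = i} ≤ e)
    (hcA : ∀ i, (#{v ∈ A | tr v = i} : ℝ) ≤ ζ)
    (hone : ∀ v ∈ A, v ∉ E → ∀ u ∈ E, ∀ u' ∈ E, u ∉ R → u' ∉ R → par u = v → par u' = v → u = u')
    (hsmall : ∀ v ∈ A, v ∉ E → ∀ c, w v c ≤ g)
    (hcnt : ∀ a h, #{i | ∃ v ∈ E, tr v = i ∧ cl v = a ∧ gr v = h} ≤ n0)
    (htot : ∀ i c, ∑ v ∈ E with tr v = i, w v c ≤ Bd c) (hM : ∀ c, Bd c ≤ M * η')
    (htot2 : ∀ a c, ∑ v ∈ A \ E with cl v = a, w v c ≤ n0 * Bd2 c) (hn0 : 0 < n0)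
    (hroom : n0 + (M + 1) ^ (e * Fintype.card C) * (e + Fintype.card Gr * e ^ 4) ≤
      Fintype.card H)
    (hfree : ζ + 2 * (Fintype.card Gr * (Bd c0 + e * η') + Bd2 c0 + η + g) +
      g * n0 * (∑ c, Bd2 c) / η ^ 2 + n0 ≤ Fintype.card H) :
    ∃ φ : V → H,
      (∀ u ∈ A, ∀ v ∈ A, tr u = tr v → cl u = cl v → φ u = φ v → u = v) ∧
      (∀ u ∈ A, ∀ v ∈ A, u ∉ R → v ∉ R → par u ∈ A → par v ∈ A →
        s((cl u, φ u), (cl (par u), φ (par u))) = s((cl v, φ v), (cl (par v), φ (par v))) →
          tr u = tr v) ∧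
      (∀ a h x c, ∑ v ∈ E with cl v = a ∧ gr v = h ∧ φ v = x, w v c ≤ Bd c + e * η') ∧
      (∀ a x c, ∑ v ∈ A \ E with cl v = a ∧ φ v = x, w v c ≤ Bd2 c + η + g) := by
  have hn : (0 : ℝ) < n0 := by exact_mod_cast hn0
  obtain ⟨φ0, p1, p2, p3⟩ := phase1_two (H := H) tr E sd cl gr w e M n0 η' Bd hw hBd hη' hcl hgr
    hcE hcnt htot hM hroom
  have hne : ∀ u, u ∉ R → par u ≠ u := fun u hu h => by
    have := hdep u hu
    rw [h] at this
    exact lt_irrefl _ this
  have hAs : ∀ s ⊆ A \ E, ∀ b c, (∑ v ∈ s with cl v = b, w v c) / n0 ≤ Bd2 c := by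
    intro s hs b c
    rw [div_le_iff₀ hn]
    calc ∑ v ∈ s with cl v = b, w v c ≤ ∑ v ∈ A \ E with cl v = b, w v c :=
          sum_le_sum_of_subset_of_nonneg (filter_subset_filter _ hs) fun v _ _ => hw v c
      _ ≤ n0 * Bd2 c := htot2 b c
      _ = Bd2 c * n0 := mul_comm _ _
  have main : ∀ s : Finset V, s ⊆ A \ E → ∃ φ : V → H,
      (∀ u ∈ E ∪ s, ∀ v ∈ E ∪ s, tr u = tr v → cl u = cl v → φ u = φ v → u = v) ∧
      (∀ u ∈ E ∪ s, ∀ v ∈ E ∪ s, u ∉ R → v ∉ R → par u ∈ E ∪ s → par v ∈ E ∪ s →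
        s((cl u, φ u), (cl (par u), φ (par u))) = s((cl v, φ v), (cl (par v), φ (par v))) →
          tr u = tr v) ∧
      (∀ a h x c, ∑ v ∈ E with cl v = a ∧ gr v = h ∧ φ v = x, w v c ≤ Bd c + e * η') ∧
      (∀ b x c, ∑ v ∈ s with cl v = b ∧ φ v = x, w v c ≤
        (∑ v ∈ s with cl v = b, w v c) / n0 + η + g) ∧
      ∀ b, ∑ c, ∑ x, (max (∑ v ∈ s with cl v = b ∧ φ v = x, w v c -
        (∑ v ∈ s with cl v = b, w v c) / n0) 0) ^ 2 ≤
          g * ∑ c, ∑ v ∈ s with cl v = b, w v c := by
    intro s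
    induction s using Finset.induction_on_max_value dep with
    | empty =>
      intro _
      refine ⟨φ0, by simpa using p1, ?_, p3, ?_, by simp⟩
      · simp only [union_empty]
        intro u hu v hv huR hvR hpu hpv h
        rcases Sym2.eq_iff.1 h with ⟨h1, h2⟩ | ⟨h1, h2⟩
        · exact p2 u hu _ hpu v hv _ hpv (htr u).symm (htr v).symm (hsd u huR).symm
            (Prod.mk.inj h1).1 (Prod.mk.inj h1).2 (Prod.mk.inj h2).1 (Prod.mk.inj h2).2
        · exact (p2 u hu _ hpu _ hpv v hv (htr u).symm (htr v) (hsd u huR).symm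
            (Prod.mk.inj h1).1 (Prod.mk.inj h1).2 (Prod.mk.inj h2).1 (Prod.mk.inj h2).2).trans
            (htr v)
      · intro b x c
        simp only [filter_empty, sum_empty, zero_div, zero_add]
        positivity
    | insert a s has hmax ih =>
      intro hsub
      have hs : s ⊆ A \ E := (subset_insert a s).trans hsub
      obtain ⟨haA, haE⟩ := mem_sdiff.1 (hsub (mem_insert_self a s))
      obtain ⟨φ, i1, i2, i3, i4, i5⟩ := ih hs
      have hP : E ∪ s ⊆ A := union_subset hE (hs.trans sdiff_subset)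
      have haP : a ∉ E ∪ s := by simp [haE, has]
      have hdisj : Disjoint E s := disjoint_left.2 fun _ h1 h2 => (mem_sdiff.1 (hs h2)).2 h1
      have hload : ∀ y : CC × H, ∑ p ∈ E ∪ s with (cl p, φ p) = y, w p c0 ≤
          Fintype.card Gr * (Bd c0 + e * η') + Bd2 c0 + η + g := by
        rintro ⟨b, y⟩
        rw [filter_union, sum_union (disjoint_filter_filter hdisj)]
        have a1 : ∑ p ∈ E with (cl p, φ p) = (b, y), w p c0 ≤
            Fintype.card Gr * (Bd c0 + e * η') := by
          rw [← sum_fiberwise (s := {p ∈ E | (cl p, φ p) = (b, y)}) (g := gr)]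
          calc _ ≤ ∑ _h : Gr, (Bd c0 + e * η') := sum_le_sum fun h _ => by
                refine le_trans (le_of_eq ?_) (i3 b h y c0)
                rw [filter_filter]
                refine sum_congr (filter_congr fun v _ => ?_) fun _ _ => rfl
                simp only [Prod.mk.injEq]
                tauto
            _ = _ := by rw [sum_const, nsmul_eq_mul, card_univ]
        have a2 : ∑ p ∈ s with (cl p, φ p) = (b, y), w p c0 =
            ∑ p ∈ s with cl p = b ∧ φ p = y, w p c0 :=
          sum_congr (filter_congr fun v _ => by simp only [Prod.mk.injEq]) fun _ _ => rfl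
        linarith [i4 b y c0, hAs s hs b c0]
      obtain ⟨u0, hu0⟩ : ∃ u0, ∀ u ∈ E, u ∉ R → par u = a → u = u0 := by
        by_cases h : ∃ u ∈ E, u ∉ R ∧ par u = a
        · obtain ⟨u0, h1, h2, h3⟩ := h
          exact ⟨u0, fun u hu huR hp => hone a haA haE u hu u0 h1 huR h2 hp h3⟩
        · exact ⟨a, fun u hu huR hp => absurd ⟨u, hu, huR, hp⟩ h⟩
      obtain ⟨N1, hN1, hN1'⟩ := hub_nbr par R A (E ∪ s) hP (fun v => (cl v, φ v))
        (fun v => w v c0) hc0 (cl (par a), φ (par a))
      obtain ⟨N2, hN2, hN2'⟩ := hub_nbr par R A (E ∪ s) hP (fun v => (cl v, φ v))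
        (fun v => w v c0) hc0 (cl u0, φ u0)
      set y : H → C → ℝ := fun x c => ∑ v ∈ s with cl v = cl a ∧ φ v = x, w v c -
        (∑ v ∈ s with cl v = cl a, w v c) / n0 with hy
      set B : Finset H := {x | ∃ c, η < y x c} with hB
      set U : Finset H := {v ∈ A | tr v = tr a}.image φ with hU
      set M1 : Finset H := N1.image Prod.snd with hM1
      set M2 : Finset H := N2.image Prod.snd with hM2
      have hM1c : (#M1 : ℝ) ≤ #N1 := Nat.cast_le.2 card_image_le
      have hM2c : (#M2 : ℝ) ≤ #N2 := Nat.cast_le.2 card_image_le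
      have hBc : (#B : ℝ) ≤ g * n0 * (∑ c, Bd2 c) / η ^ 2 := by
        rw [le_div_iff₀ (by positivity)]
        refine (hub_bad y η hη B fun x hx => (mem_filter.1 hx).2).trans ((i5 (cl a)).trans ?_)
        rw [mul_assoc, mul_sum univ Bd2]
        refine mul_le_mul_of_nonneg_left (sum_le_sum fun c _ => ?_) hg
        have := hAs s hs (cl a) c
        rw [div_le_iff₀ hn] at this
        linarith
      have hUc : (#U : ℝ) ≤ ζ := le_trans (Nat.cast_le.2 card_image_le) (hcA (tr a))
      have hF : n0 ≤ #(U ∪ M1 ∪ M2 ∪ B)ᶜ := by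
        have c1 : #(U ∪ M1 ∪ M2 ∪ B) ≤ #U + #M1 + #M2 + #B := by
          have a1 := card_union_le (U ∪ M1 ∪ M2) B
          have a2 := card_union_le (U ∪ M1) M2
          have a3 := card_union_le U M1
          omega
        have c2 := card_add_card_compl (U ∪ M1 ∪ M2 ∪ B)
        have c3 : (#(U ∪ M1 ∪ M2 ∪ B) : ℝ) ≤ #U + #M1 + #M2 + #B := by exact_mod_cast c1
        have c4 : (#(U ∪ M1 ∪ M2 ∪ B) : ℝ) + #(U ∪ M1 ∪ M2 ∪ B)ᶜ = Fintype.card H := by
          exact_mod_cast c2
        have c5 : (n0 : ℝ) ≤ #(U ∪ M1 ∪ M2 ∪ B)ᶜ := by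
          linarith [hload (cl (par a), φ (par a)), hload (cl u0, φ u0)]
        exact_mod_cast c5
      obtain ⟨x0, hx0, hpot⟩ := hub_pot y (w a) g n0 hn0 (hw a) (hsmall a haA haE) _ hF
      simp only [mem_compl, mem_union, not_or] at hx0
      obtain ⟨⟨⟨hxU, hxM1⟩, hxM2⟩, hxB⟩ := hx0
      have hxN1 : (cl a, x0) ∉ N1 := fun h => hxM1 (mem_image.2 ⟨_, h, rfl⟩)
      have hxN2 : (cl a, x0) ∉ N2 := fun h => hxM2 (mem_image.2 ⟨_, h, rfl⟩)
      set ψ : V → H := Function.update φ a x0 with hψ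
      have hψa : ψ a = x0 := Function.update_self ..
      have hψP : ∀ u ∈ E ∪ s, ψ u = φ u := fun u hu =>
        Function.update_of_ne (fun h : u = a => haP (h ▸ hu)) ..
      have hmem : ∀ u ∈ E ∪ insert a s, u = a ∨ u ∈ E ∪ s := by
        intro u hu
        simp only [mem_union, mem_insert] at hu ⊢
        tauto
      have hload' : ∀ b x c, ∑ v ∈ insert a s with cl v = b ∧ ψ v = x, w v c =
          ∑ v ∈ s with cl v = b ∧ φ v = x, w v c + if cl a = b ∧ x0 = x then w a c else 0 := by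
        intro b x c
        rw [sum_filter, sum_insert has, sum_filter, hψa, add_comm]
        congr 1
        exact sum_congr rfl fun v hv => by rw [hψP v (mem_union_right _ hv)]
      have htot' : ∀ b c, ∑ v ∈ insert a s with cl v = b, w v c =
          ∑ v ∈ s with cl v = b, w v c + if cl a = b then w a c else 0 := by
        intro b c
        rw [sum_filter, sum_insert has, sum_filter, add_comm]
      have hedge : ∀ u ∈ E ∪ insert a s, u ∉ R → par u ∈ E ∪ insert a s →
          (u ∈ E ∪ s ∧ par u ∈ E ∪ s ∧ s((cl u, ψ u), (cl (par u), ψ (par u))) =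
            s((cl u, φ u), (cl (par u), φ (par u)))) ∨
          (tr u = tr a ∧ (s((cl u, ψ u), (cl (par u), ψ (par u))) =
            s((cl a, x0), (cl (par a), φ (par a))) ∨
            s((cl u, ψ u), (cl (par u), ψ (par u))) = s((cl a, x0), (cl u0, φ u0)))) := by
        intro u hu huR hpu
        rcases hmem u hu with rfl | hu'
        · rcases hmem _ hpu with h | h
          · exact absurd h (hne u huR)
          · exact Or.inr ⟨rfl, Or.inl (by rw [hψa, hψP _ h])⟩
        · rcases hmem _ hpu with h | h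
          · refine Or.inr ⟨by rw [← h, htr], Or.inr ?_⟩
            rcases mem_union.1 hu' with h1 | h1
            · rw [h, hψa, hψP u hu', ← hu0 u h1 huR h, Sym2.eq_swap]
            · have a1 := hmax u h1
              have a2 := hdep u huR
              rw [h] at a2
              omega
          · exact Or.inl ⟨hu', h, by rw [hψP u hu', hψP _ h]⟩
      refine ⟨ψ, ?_, ?_, ?_, ?_, ?_⟩
      · have key : ∀ v ∈ E ∪ s, tr v = tr a → φ v ≠ x0 := fun v hv ht h =>
          hxU (mem_image.2 ⟨v, mem_filter.2 ⟨hP hv, ht⟩, h⟩)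
        intro u hu v hv ht hc h
        rcases hmem u hu with hua | hu' <;> rcases hmem v hv with hva | hv'
        · rw [hua, hva]
        · rw [hua, hψa, hψP v hv'] at h
          exact absurd h.symm (key v hv' (by rw [← ht, hua]))
        · rw [hva, hψa, hψP u hu'] at h
          exact absurd h (key u hu' (by rw [ht, hva]))
        · rw [hψP u hu', hψP v hv'] at h
          exact i1 u hu' v hv' ht hc h
      · intro u hu v hv huR hvR hpu hpv h
        rcases hedge u hu huR hpu with ⟨a1, a2, a3⟩ | ⟨a1, a2⟩ <;>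
          rcases hedge v hv hvR hpv with ⟨b1, b2, b3⟩ | ⟨b1, b2⟩
        · exact i2 u a1 v b1 huR hvR a2 b2 (by rw [← a3, ← b3, h])
        · exfalso
          rcases b2 with b2 | b2
          · exact hN1' _ hxN1 u a1 huR a2 (by rw [← b2, ← h, a3])
          · exact hN2' _ hxN2 u a1 huR a2 (by rw [← b2, ← h, a3])
        · exfalso
          rcases a2 with a2 | a2
          · exact hN1' _ hxN1 v b1 hvR b2 (by rw [← a2, h, b3])
          · exact hN2' _ hxN2 v b1 hvR b2 (by rw [← a2, h, b3])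
        · rw [a1, b1]
      · intro b h x c
        refine le_trans (le_of_eq ?_) (i3 b h x c)
        refine sum_congr (filter_congr fun v hv => ?_) fun _ _ => rfl
        rw [hψP v (mem_union_left _ hv)]
      · intro b x c
        rw [hload', htot', add_div]
        have a1 : 0 ≤ w a c / n0 := div_nonneg (hw a c) hn.le
        by_cases hb : cl a = b
        · subst hb
          rw [if_pos rfl]
          by_cases h : x0 = x
          · rw [if_pos ⟨rfl, h⟩]
            have a2 : y x0 c ≤ η := by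
              by_contra a2
              exact hxB (mem_filter.2 ⟨mem_univ _, c, not_le.1 a2⟩)
            have a3 := hsmall a haA haE c
            simp only [hy, h] at a2
            linarith
          · rw [if_neg fun h' => h h'.2]
            linarith [i4 (cl a) x c]
        · rw [if_neg hb, if_neg fun h' => hb h'.1, zero_div]
          linarith [i4 b x c]
      · intro b
        by_cases hb : cl a = b
        · subst hb
          have e1 : ∀ x c, ∑ v ∈ insert a s with cl v = cl a ∧ ψ v = x, w v c -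
              (∑ v ∈ insert a s with cl v = cl a, w v c) / n0 =
              y x c + (if x0 = x then w a c else 0) - w a c / n0 := by
            intro x c
            rw [hload', htot', add_div, hy, if_pos rfl]
            simp only [true_and]
            ring
          simp only [e1]
          refine hpot.trans ?_
          simp only [htot', if_true, sum_add_distrib, mul_add]
          linarith [i5 (cl a)]
        · simp only [hload', htot', hb, false_and, if_false, add_zero]
          exact i5 b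
  obtain ⟨φ, i1, i2, i3, i4, -⟩ := main (A \ E) subset_rfl
  rw [union_sdiff_of_subset hE] at i1 i2
  exact ⟨φ, i1, i2, i3, fun b x c => by linarith [i4 b x c, hAs _ subset_rfl b c]⟩

end Pool.Agent.Lib.MP_12a5fd_co.BT
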