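import Pool.Agent.Lib.MP_2b1ae8_co.AT.Hub1

/-! Placing the early core vertices in two cells per tree. -/

set_option autoImplicit false
set_option linter.unusedSectionVars false

namespace Pool.Agent.Lib.MP_12a5fd_co.BT

open Finset Pool.Agent.Lib.MP_2b1ae8_co.AT

theorem greedy_forb {I T : Type} [DecidableEq I] [DecidableEq T] (s : Finset I) (key : I → T)
    (Bad : I → I → ℕ → ℕ → Prop) (nb : I → Finset I) (d1 d2 : ℕ)
    (hsymm : ∀ i j c c', Bad i j c c' → Bad j i c' c)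
    (hnb : ∀ i j c c', Bad i j c c' → j ∈ nb i) (hd1 : ∀ i ∈ s, #(nb i) ≤ d1)
    (hd2 : ∀ i ∈ s, ∀ j ∈ s, ∀ c', ∃ W : Finset ℕ, #W ≤ d2 ∧
      ∀ c, c < #{x ∈ s | key x = key i} + d1 * d2 → Bad i j c c' → c ∈ W) :
    ∃ c : I → ℕ, (∀ i ∈ s, c i < #{x ∈ s | key x = key i} + d1 * d2) ∧
      (∀ i ∈ s, ∀ j ∈ s, key i = key j → c i = c j → i = j) ∧
      ∀ i ∈ s, ∀ j ∈ s, Bad i j (c i) (c j) → i = j := by
  classical
  choose! W hW1 hW2 using hd2
  suffices H : ∀ t : Finset I, t ⊆ s → ∃ c : I → ℕ,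
      (∀ i ∈ t, c i < #{x ∈ s | key x = key i} + d1 * d2) ∧
      (∀ i ∈ t, ∀ j ∈ t, key i = key j → c i = c j → i = j) ∧
      ∀ i ∈ t, ∀ j ∈ t, Bad i j (c i) (c j) → i = j from H s subset_rfl
  intro t
  induction t using Finset.induction_on with
  | empty => intro _; exact ⟨fun _ => 0, by simp, by simp, by simp⟩
  | insert a t ha ih =>
    intro hsub
    have has : a ∈ s := hsub (mem_insert_self _ _)
    have hts : t ⊆ s := fun x hx => hsub (mem_insert_of_mem hx)
    obtain ⟨c, h1, h2, h3⟩ := ih hts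
    set X : Finset ℕ := {x ∈ t | key x = key a}.image c with hX
    set Y : Finset ℕ := (t ∩ nb a).biUnion fun j => W a j (c j) with hY
    have hXc : #X < #{x ∈ s | key x = key a} := by
      refine lt_of_le_of_lt card_image_le (card_lt_card ?_)
      refine ⟨fun x hx => ?_, fun h => ?_⟩
      · exact mem_filter.2 ⟨hts (mem_filter.1 hx).1, (mem_filter.1 hx).2⟩
      · exact ha (mem_filter.1 (h (mem_filter.2 ⟨has, rfl⟩))).1
    have hYc : #Y ≤ d1 * d2 := by
      refine le_trans card_biUnion_le ?_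
      calc ∑ j ∈ t ∩ nb a, #(W a j (c j)) ≤ ∑ j ∈ t ∩ nb a, d2 :=
            sum_le_sum fun j hj => hW1 a has j (hts (mem_inter.1 hj).1) (c j)
        _ = #(t ∩ nb a) * d2 := by rw [sum_const, smul_eq_mul]
        _ ≤ d1 * d2 := Nat.mul_le_mul_right _
            ((card_le_card inter_subset_right).trans (hd1 a has))
    obtain ⟨n, hn, hn'⟩ : ∃ n ∈ range (#{x ∈ s | key x = key a} + d1 * d2), n ∉ X ∪ Y := by
      refine exists_mem_notMem_of_card_lt_card ?_
      have := card_union_le X Y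
      rw [card_range]
      omega
    rw [mem_range] at hn
    rw [mem_union, not_or] at hn'
    have hne : ∀ j ∈ t, j ≠ a := fun j hj h => ha (h ▸ hj)
    have k1 : ∀ j ∈ t, key a = key j → n ≠ c j := fun j hj hk h =>
      hn'.1 (mem_image.2 ⟨j, mem_filter.2 ⟨hj, hk.symm⟩, h.symm⟩)
    have k2 : ∀ j ∈ t, ¬ Bad a j n (c j) := fun j hj hb =>
      hn'.2 (mem_biUnion.2 ⟨j, mem_inter.2 ⟨hj, hnb _ _ _ _ hb⟩,
        hW2 a has j (hts hj) (c j) n hn hb⟩)
    refine ⟨Function.update c a n, ?_, ?_, ?_⟩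
    · intro i hi
      rcases mem_insert.1 hi with rfl | hi
      · rwa [Function.update_self]
      · rw [Function.update_of_ne (hne i hi)]
        exact h1 i hi
    · intro i hi j hj hk hc
      rw [mem_insert] at hi hj
      rcases hi with rfl | hi <;> rcases hj with rfl | hj
      · rfl
      · rw [Function.update_self, Function.update_of_ne (hne j hj)] at hc
        exact absurd hc (k1 j hj hk)
      · rw [Function.update_self, Function.update_of_ne (hne i hi)] at hc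
        exact absurd hc.symm (k1 i hi hk.symm)
      · rw [Function.update_of_ne (hne i hi), Function.update_of_ne (hne j hj)] at hc
        exact h2 i hi j hj hk hc
    · intro i hi j hj hb
      rw [mem_insert] at hi hj
      rcases hi with rfl | hi <;> rcases hj with rfl | hj
      · rfl
      · rw [Function.update_self, Function.update_of_ne (hne j hj)] at hb
        exact absurd hb (k2 j hj)
      · rw [Function.update_self, Function.update_of_ne (hne i hi)] at hb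
        exact absurd (hsymm _ _ _ _ hb) (k2 i hi)
      · rw [Function.update_of_ne (hne i hi), Function.update_of_ne (hne j hj)] at hb
        exact h3 i hi j hj hb

/-- The load bound: a set of vertices of one type with distinct ranks. -/
lemma load_aux {V I : Type} [DecidableEq V] [DecidableEq I] (tr : V → I) (E F : Finset V)
    (κ : V → ℕ) (w : V → ℝ) (e : ℕ) (η' B : ℝ) (hw : ∀ v, 0 ≤ w v) (hB : 0 ≤ B) (hη' : 0 < η')
    (hκe : ∀ v ∈ E, κ v < e) (hFE : F ⊆ E) (hinj : ∀ u ∈ F, ∀ v ∈ F, κ u = κ v → u = v)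
    (htot : ∀ i, ∑ v ∈ E with tr v = i, w v ≤ B)
    (hty : ∀ u ∈ F, ∀ v ∈ F, ∀ k < e, ⌈(∑ x ∈ E with (tr x = tr u ∧ κ x = k), w x) / η'⌉₊ =
      ⌈(∑ x ∈ E with (tr x = tr v ∧ κ x = k), w x) / η'⌉₊) :
    ∑ v ∈ F, w v ≤ B + e * η' := by
  classical
  rcases F.eq_empty_or_nonempty with h0 | ⟨v0, hv0⟩
  · rw [h0, sum_empty]
    positivity
  set W : I → ℕ → ℝ := fun i k => ∑ v ∈ E with (tr v = i ∧ κ v = k), w v with hW
  have hW0 : ∀ i k, 0 ≤ W i k := fun i k => sum_nonneg fun v _ => hw v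
  have h1 : ∀ v ∈ F, w v ≤ W (tr v0) (κ v) + η' := by
    intro v hv
    have a1 : w v ≤ W (tr v) (κ v) :=
      single_le_sum (f := fun u => w u) (fun u _ => hw u) (by simp [hFE hv])
    have a2 : ⌈W (tr v) (κ v) / η'⌉₊ = ⌈W (tr v0) (κ v) / η'⌉₊ :=
      hty v hv v0 hv0 (κ v) (hκe v (hFE hv))
    have a3 : W (tr v) (κ v) / η' ≤ ⌈W (tr v) (κ v) / η'⌉₊ := Nat.le_ceil _
    have a4 : (⌈W (tr v0) (κ v) / η'⌉₊ : ℝ) < W (tr v0) (κ v) / η' + 1 :=
      Nat.ceil_lt_add_one (div_nonneg (hW0 _ _) hη'.le)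
    rw [a2] at a3
    have a5 : W (tr v) (κ v) / η' ≤ (W (tr v0) (κ v) + η') / η' := by
      rw [add_div, div_self hη'.ne']
      linarith
    rw [div_le_div_iff_of_pos_right hη'] at a5
    linarith
  calc ∑ v ∈ F, w v ≤ ∑ v ∈ F, (W (tr v0) (κ v) + η') := sum_le_sum h1
    _ = ∑ k ∈ F.image κ, (W (tr v0) k + η') :=
      (sum_image (f := fun k => W (tr v0) k + η') (fun u hu v hv h => hinj u hu v hv h)).symm
    _ ≤ ∑ k ∈ range e, (W (tr v0) k + η') := by
      refine sum_le_sum_of_subset_of_nonneg ?_ fun k _ _ => add_nonneg (hW0 _ _) hη'.le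
      intro k hk
      obtain ⟨v, hv, rfl⟩ := mem_image.1 hk
      exact mem_range.2 (hκe v (hFE hv))
    _ = ∑ v ∈ E with tr v = tr v0, w v + e * η' := by
      rw [sum_add_distrib, sum_const, card_range, nsmul_eq_mul]
      congr 1
      rw [← sum_fiberwise_of_maps_to (s := {v ∈ E | tr v = tr v0}) (t := range e) (g := κ)
        (fun v hv => mem_range.2 (hκe v (mem_filter.1 hv).1))]
      refine sum_congr rfl fun k _ => ?_
      simp only [hW, filter_filter]
    _ ≤ B + e * η' := by linarith [htot (tr v0)]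

/-- The combinatorial part, for an arbitrary finite type of trees types. -/
lemma phase1_core {V I CC Gr H Th : Type} [DecidableEq V] [Fintype I] [DecidableEq I]
    [DecidableEq CC] [Fintype Gr] [DecidableEq Gr] [Fintype H] [DecidableEq H] [Nonempty H]
    [Fintype Th] [DecidableEq Th]
    (tr : V → I) (E : Finset V) (sd : V → Bool) (cl : V → CC) (gr : V → Gr) (th : I → Th)
    (κ : V → ℕ) (e n0 : ℕ) (hκe : ∀ v ∈ E, κ v < e)
    (hκ2 : ∀ u ∈ E, ∀ v ∈ E, tr u = tr v → κ u = κ v → u = v)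
    (hcl : ∀ u ∈ E, ∀ v ∈ E, cl u = cl v → sd u = sd v)
    (hgr : ∀ u ∈ E, ∀ v ∈ E, tr u = tr v → sd u = sd v → cl u = cl v ∧ gr u = gr v)
    (hcE : ∀ i, #{v ∈ E | tr v = i} ≤ e)
    (hcnt : ∀ a h, #{i | ∃ v ∈ E, tr v = i ∧ cl v = a ∧ gr v = h} ≤ n0)
    (hroom : n0 + Fintype.card Th * (e + Fintype.card Gr * e ^ 4) ≤ Fintype.card H) :
    ∃ φ : V → H, (∀ u ∈ E, ∀ v ∈ E, tr u = tr v → cl u = cl v → φ u = φ v → u = v) ∧
      (∀ u ∈ E, ∀ u' ∈ E, ∀ v ∈ E, ∀ v' ∈ E, tr u = tr u' → tr v = tr v' → sd u ≠ sd u' →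
        cl u = cl v → φ u = φ v → cl u' = cl v' → φ u' = φ v' → tr u = tr v) ∧
      (∀ u ∈ E, ∀ v ∈ E, cl u = cl v → gr u = gr v → φ u = φ v →
        th (tr u) = th (tr v) ∧ (κ u = κ v → u = v)) := by
  classical
  set TT : CC → Gr → Finset I := fun a h => {i | ∃ v ∈ E, tr v = i ∧ cl v = a ∧ gr v = h}
    with hTT
  set S : CC → Gr → Finset (Th × ℕ) := fun a h =>
    univ.biUnion fun θ => {θ} ×ˢ range (#{j ∈ TT a h | th j = θ} + (e + Fintype.card Gr * e ^ 4))
    with hS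
  have hScard : ∀ a h, #(S a h) ≤ Fintype.card H := by
    intro a h
    refine le_trans card_biUnion_le (le_trans ?_ hroom)
    simp only [card_product, card_singleton, card_range, one_mul, sum_add_distrib, sum_const,
      card_univ, smul_eq_mul]
    rw [← card_eq_sum_card_fiberwise (fun j _ => mem_univ (th j)), ← mul_add]
    exact Nat.add_le_add_right (hcnt a h) _
  choose gH hgH using fun a h => hub_inj (S a h) (hScard a h)
  have hkey : ∃ key : Bool → I → Option (CC × Gr) × Th,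
      (∀ v ∈ E, key (sd v) (tr v) = (some (cl v, gr v), th (tr v))) ∧
      ∀ s i p θ, key s i = (some p, θ) → i ∈ TT p.1 p.2 ∧ th i = θ := by
    refine ⟨fun s i => (if h : ∃ v ∈ E, tr v = i ∧ sd v = s then
      some (cl h.choose, gr h.choose) else none, th i), ?_, ?_⟩
    · intro v hv
      have h : ∃ u ∈ E, tr u = tr v ∧ sd u = sd v := ⟨v, hv, rfl, rfl⟩
      obtain ⟨a1, a2, a3⟩ := h.choose_spec
      obtain ⟨b1, b2⟩ := hgr _ a1 v hv a2 a3
      simp only [dif_pos h, b1, b2]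
    · intro s i p θ hk
      obtain ⟨k1, k2⟩ := Prod.mk.inj hk
      refine ⟨?_, k2⟩
      split_ifs at k1 with h
      obtain ⟨a1, a2, -⟩ := h.choose_spec
      have k3 := Option.some.inj k1
      simp only [hTT, mem_filter, mem_univ, true_and]
      exact ⟨_, a1, a2, congrArg Prod.fst k3, congrArg Prod.snd k3⟩
  obtain ⟨key, hk1, hk2⟩ := hkey
  have hmem : ∀ v ∈ E, ∀ n, n < #{x ∈ (univ : Finset I) | key (sd v) x = key (sd v) (tr v)} +
      Fintype.card Gr * e ^ 4 → (th (tr v), n + κ v) ∈ S (cl v) (gr v) := by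
    intro v hv n hn
    simp only [hS, mem_biUnion, mem_univ, true_and, mem_product, mem_singleton, mem_range]
    refine ⟨th (tr v), rfl, ?_⟩
    have h1 : #{x ∈ (univ : Finset I) | key (sd v) x = key (sd v) (tr v)} ≤
        #{j ∈ TT (cl v) (gr v) | th j = th (tr v)} := by
      refine card_le_card fun x hx => ?_
      have := hk2 _ _ _ _ ((mem_filter.1 hx).2.trans (hk1 v hv))
      exact mem_filter.2 this
    have h2 := hκe v hv
    omega
  -- the general injectivity statement on one side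
  have hone : ∀ (s : Bool) (ρ : I → ℕ),
      (∀ i, ρ i < #{x ∈ (univ : Finset I) | key s x = key s i} + Fintype.card Gr * e ^ 4) →
      (∀ i j, key s i = key s j → ρ i = ρ j → i = j) →
      ∀ u ∈ E, ∀ v ∈ E, sd u = s → cl u = cl v → gr u = gr v →
      gH (cl u) (gr u) (th (tr u), ρ (tr u) + κ u) = gH (cl v) (gr v) (th (tr v), ρ (tr v) + κ v) →
      th (tr u) = th (tr v) ∧ ρ (tr u) + κ u = ρ (tr v) + κ v ∧ (κ u = κ v → u = v) := by
    intro s ρ r1 r2 u hu v hv hs hc hg h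
    have hsv : sd v = s := (hcl u hu v hv hc).symm.trans hs
    have m1 := hmem u hu (ρ (tr u)) (by rw [hs]; exact r1 _)
    have m2 := hmem v hv (ρ (tr v)) (by rw [hsv]; exact r1 _)
    rw [hc, hg] at h m1
    obtain ⟨a1, a2⟩ := Prod.mk.inj (hgH _ _ _ m1 _ m2 h)
    refine ⟨a1, a2, fun hk => ?_⟩
    rw [hk] at a2
    refine hκ2 u hu v hv (r2 _ _ ?_ (Nat.add_right_cancel a2)) hk
    have e1 := hk1 u hu
    have e2 := hk1 v hv
    rw [hs] at e1
    rw [hsv] at e2
    rw [e1, e2, hc, hg, a1]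
  obtain ⟨ρ1, hρ1, hρ1'⟩ := hub_rank (univ : Finset I) (key true)
  have r1 : ∀ i, ρ1 i < #{x ∈ (univ : Finset I) | key true x = key true i} +
      Fintype.card Gr * e ^ 4 := fun i => (hρ1 i (mem_univ _)).trans_le (Nat.le_add_right _ _)
  have r2 : ∀ i j, key true i = key true j → ρ1 i = ρ1 j → i = j := fun i j =>
    hρ1' i (mem_univ _) j (mem_univ _)
  set φ1 : V → H := fun v => gH (cl v) (gr v) (th (tr v), ρ1 (tr v) + κ v) with hφ1
  have hdd : e * (Fintype.card Gr * e) * e ^ 2 = Fintype.card Gr * e ^ 4 := by ring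
  obtain ⟨ρ2, hρ2, hρ2', hρ2''⟩ := greedy_forb (univ : Finset I) (key false)
    (fun i j c c' =>
      (∃ u ∈ E, ∃ v ∈ E, sd u = true ∧ sd v = true ∧ tr u = i ∧ tr v = j ∧ cl u = cl v ∧
        φ1 u = φ1 v) ∧
      (∃ u ∈ E, ∃ v ∈ E, sd u = false ∧ sd v = false ∧ tr u = i ∧ tr v = j ∧ cl u = cl v ∧
        gH (cl u) (gr u) (th i, c + κ u) = gH (cl v) (gr v) (th j, c' + κ v)))
    (fun i => {u ∈ E | tr u = i}.biUnion fun u =>
      {v ∈ E | sd v = true ∧ cl v = cl u ∧ φ1 v = φ1 u}.image tr)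
    (e * (Fintype.card Gr * e)) (e ^ 2)
    (by
      rintro i j c c' ⟨⟨u, hu, v, hv, a1, a2, a3, a4, a5, a6⟩, ⟨u', hu', v', hv', b1, b2, b3, b4,
        b5, b6⟩⟩
      exact ⟨⟨v, hv, u, hu, a2, a1, a4, a3, a5.symm, a6.symm⟩,
        ⟨v', hv', u', hu', b2, b1, b4, b3, b5.symm, b6.symm⟩⟩)
    (by
      rintro i j c c' ⟨⟨u, hu, v, hv, a1, a2, a3, a4, a5, a6⟩, -⟩
      exact mem_biUnion.2 ⟨u, mem_filter.2 ⟨hu, a3⟩,
        mem_image.2 ⟨v, mem_filter.2 ⟨hv, a2, a5.symm, a6.symm⟩, a4⟩⟩)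
    (by
      intro i _
      refine le_trans card_biUnion_le ?_
      calc _ ≤ ∑ u ∈ E with tr u = i, Fintype.card Gr * e := by
            refine sum_le_sum fun u _ => le_trans card_image_le ?_
            have := card_le_card_of_injOn (s := {v ∈ E | sd v = true ∧ cl v = cl u ∧ φ1 v = φ1 u})
              (t := (univ : Finset Gr) ×ˢ range e) (fun v => (gr v, κ v))
              (fun v hv => by
                have hv' := mem_filter.1 (mem_coe.1 hv)
                exact mem_coe.2 (mem_product.2 ⟨mem_univ _, mem_range.2 (hκe v hv'.1)⟩))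
              (fun v hv v' hv' h => by
                obtain ⟨p1, p2, p3, p4⟩ := mem_filter.1 (mem_coe.1 hv)
                obtain ⟨q1, q2, q3, q4⟩ := mem_filter.1 (mem_coe.1 hv')
                obtain ⟨h1, h2⟩ := Prod.mk.inj h
                exact (hone true ρ1 r1 r2 v p1 v' q1 p2 (p3.trans q3.symm) h1
                  (p4.trans q4.symm)).2.2 h2)
            simpa using this
        _ = #{u ∈ E | tr u = i} * (Fintype.card Gr * e) := by rw [sum_const, smul_eq_mul]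
        _ ≤ _ := Nat.mul_le_mul_right _ (hcE i))
    (by
      intro i _ j _ c'
      refine ⟨({u ∈ E | tr u = i} ×ˢ {v ∈ E | tr v = j}).biUnion fun p =>
        {c ∈ range (#{x ∈ (univ : Finset I) | key false x = key false i} +
          Fintype.card Gr * e ^ 4) | sd p.1 = false ∧
          gH (cl p.1) (gr p.1) (th i, c + κ p.1) = gH (cl p.2) (gr p.2) (th j, c' + κ p.2)},
        ?_, ?_⟩
      · refine le_trans card_biUnion_le ?_
        calc _ ≤ ∑ p ∈ {u ∈ E | tr u = i} ×ˢ {v ∈ E | tr v = j}, 1 := by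
              refine sum_le_sum fun p hp => card_le_one.2 fun c hc d hd => ?_
              obtain ⟨p1, p2⟩ := mem_filter.1 (mem_product.1 hp).1
              obtain ⟨c1, c2, c3⟩ := mem_filter.1 hc
              obtain ⟨d1, -, d3⟩ := mem_filter.1 hd
              have m1 := hmem p.1 p1 c (by rw [c2, p2]; exact mem_range.1 c1)
              have m2 := hmem p.1 p1 d (by rw [c2, p2]; exact mem_range.1 d1)
              rw [p2] at m1 m2
              exact Nat.add_right_cancel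
                (Prod.mk.inj (hgH _ _ _ m1 _ m2 (c3.trans d3.symm))).2
          _ = #{u ∈ E | tr u = i} * #{v ∈ E | tr v = j} := by
              rw [sum_const, smul_eq_mul, mul_one, card_product]
          _ ≤ e ^ 2 := by rw [sq]; exact Nat.mul_le_mul (hcE i) (hcE j)
      · rintro c hc ⟨-, ⟨u, hu, v, hv, b1, -, b3, b4, -, b6⟩⟩
        rw [hdd] at hc
        exact mem_biUnion.2 ⟨(u, v), mem_product.2 ⟨mem_filter.2 ⟨hu, b3⟩, mem_filter.2 ⟨hv, b4⟩⟩,
          mem_filter.2 ⟨mem_range.2 hc, b1, b6⟩⟩)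
  rw [hdd] at hρ2
  set ρ : Bool → I → ℕ := fun s => if s then ρ1 else ρ2 with hρ
  have s1 : ∀ s i, ρ s i < #{x ∈ (univ : Finset I) | key s x = key s i} +
      Fintype.card Gr * e ^ 4 := by
    intro s i
    cases s
    · exact hρ2 i (mem_univ _)
    · exact r1 i
  have s2 : ∀ s i j, key s i = key s j → ρ s i = ρ s j → i = j := by
    intro s i j
    cases s
    · exact hρ2' i (mem_univ _) j (mem_univ _)
    · exact r2 i j
  have hmain : ∀ u ∈ E, ∀ v ∈ E, cl u = cl v → gr u = gr v →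
      gH (cl u) (gr u) (th (tr u), ρ (sd u) (tr u) + κ u) =
        gH (cl v) (gr v) (th (tr v), ρ (sd v) (tr v) + κ v) →
      th (tr u) = th (tr v) ∧ ρ (sd u) (tr u) + κ u = ρ (sd u) (tr v) + κ v ∧
        (κ u = κ v → u = v) := by
    intro u hu v hv hc hg h
    rw [← hcl u hu v hv hc] at h
    exact hone (sd u) (ρ (sd u)) (s1 _) (s2 _) u hu v hv rfl hc hg h
  have hbad : ∀ u ∈ E, ∀ u' ∈ E, ∀ v ∈ E, ∀ v' ∈ E, tr u = tr u' → tr v = tr v' →
      sd u = true → sd u' = false → cl u = cl v →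
      gH (cl u) (gr u) (th (tr u), ρ (sd u) (tr u) + κ u) =
        gH (cl v) (gr v) (th (tr v), ρ (sd v) (tr v) + κ v) → cl u' = cl v' →
      gH (cl u') (gr u') (th (tr u'), ρ (sd u') (tr u') + κ u') =
        gH (cl v') (gr v') (th (tr v'), ρ (sd v') (tr v') + κ v') → tr u = tr v := by
    intro u hu u' hu' v hv v' hv' t1 t2 a1 a2 c1 g1 c2 g2
    have a3 : sd v = true := (hcl u hu v hv c1).symm.trans a1
    have a4 : sd v' = false := (hcl u' hu' v' hv' c2).symm.trans a2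
    rw [a1, a3] at g1
    rw [a2, a4, ← t1, ← t2] at g2
    exact hρ2'' _ (mem_univ _) _ (mem_univ _)
      ⟨⟨u, hu, v, hv, a1, a3, rfl, rfl, c1, g1⟩, ⟨u', hu', v', hv', a2, a4, t1.symm, t2.symm, c2, g2⟩⟩
  refine ⟨fun v => gH (cl v) (gr v) (th (tr v), ρ (sd v) (tr v) + κ v), ?_, ?_, ?_⟩
  · intro u hu v hv ht hc h
    obtain ⟨-, a2, a3⟩ := hmain u hu v hv hc (hgr u hu v hv ht (hcl u hu v hv hc)).2 h
    rw [ht] at a2
    exact a3 (Nat.add_left_cancel a2)
  · intro u hu u' hu' v hv v' hv' t1 t2 hne c1 g1 c2 g2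
    cases h1 : sd u <;> cases h2 : sd u'
    · exact absurd (h1.trans h2.symm) hne
    · exact t1.trans ((hbad u' hu' u hu v' hv' v hv t1.symm t2.symm h2 h1 c2 g2 c1 g1).trans
        t2.symm)
    · exact hbad u hu u' hu' v hv v' hv' t1 t2 h1 h2 c1 g1 c2 g2
    · exact absurd (h1.trans h2.symm) hne
  · intro u hu v hv hc hg h
    obtain ⟨a1, -, a3⟩ := hmain u hu v hv hc hg h
    exact ⟨a1, a3⟩

theorem phase1_two {V I C CC Gr H : Type} [DecidableEq V] [Fintype I] [DecidableEq I] [Fintype C]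
    [DecidableEq CC] [Fintype Gr] [DecidableEq Gr] [Fintype H] [DecidableEq H] [Nonempty H]
    (tr : V → I) (E : Finset V) (sd : V → Bool) (cl : V → CC) (gr : V → Gr) (w : V → C → ℝ)
    (e M n0 : ℕ) (η' : ℝ) (Bd : C → ℝ)
    (hw : ∀ v c, 0 ≤ w v c) (hBd : ∀ c, 0 ≤ Bd c) (hη' : 0 < η')
    (hcl : ∀ u ∈ E, ∀ v ∈ E, cl u = cl v → sd u = sd v)
    (hgr : ∀ u ∈ E, ∀ v ∈ E, tr u = tr v → sd u = sd v → cl u = cl v ∧ gr u = gr v)
    (hcE : ∀ i, #{v ∈ E | tr v = i} ≤ e)
    (hcnt : ∀ a h, #{i | ∃ v ∈ E, tr v = i ∧ cl v = a ∧ gr v = h} ≤ n0)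
    (htot : ∀ i c, ∑ v ∈ E with tr v = i, w v c ≤ Bd c) (hM : ∀ c, Bd c ≤ M * η')
    (hroom : n0 + (M + 1) ^ (e * Fintype.card C) * (e + Fintype.card Gr * e ^ 4) ≤
      Fintype.card H) :
    ∃ φ : V → H, (∀ u ∈ E, ∀ v ∈ E, tr u = tr v → cl u = cl v → φ u = φ v → u = v) ∧
      (∀ u ∈ E, ∀ u' ∈ E, ∀ v ∈ E, ∀ v' ∈ E, tr u = tr u' → tr v = tr v' → sd u ≠ sd u' →
        cl u = cl v → φ u = φ v → cl u' = cl v' → φ u' = φ v' → tr u = tr v) ∧
      (∀ a h x c, ∑ v ∈ E with cl v = a ∧ gr v = h ∧ φ v = x, w v c ≤ Bd c + e * η') := by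
  classical
  obtain ⟨κ, hκ1, hκ2⟩ := hub_rank E tr
  have hκe : ∀ v ∈ E, κ v < e := fun v hv => (hκ1 v hv).trans_le (hcE _)
  have hWM : ∀ i k c, ⌈(∑ v ∈ E with (tr v = i ∧ κ v = k), w v c) / η'⌉₊ < M + 1 := by
    intro i k c
    refine Nat.lt_succ_of_le (Nat.ceil_le.2 ?_)
    rw [div_le_iff₀ hη']
    refine le_trans ?_ ((htot i c).trans (hM c))
    refine sum_le_sum_of_subset_of_nonneg ?_ fun v _ _ => hw v c
    intro v hv
    simp only [mem_filter] at hv ⊢
    exact ⟨hv.1, hv.2.1⟩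
  obtain ⟨φ, h1, h2, h3⟩ := phase1_core (H := H) (Th := Fin e → C → Fin (M + 1)) tr E sd cl gr
    (fun i k c => ⟨⌈(∑ v ∈ E with (tr v = i ∧ κ v = k), w v c) / η'⌉₊, hWM i k c⟩) κ e n0 hκe hκ2
    hcl hgr hcE hcnt (by
      simp only [Fintype.card_pi, prod_const, card_univ, Fintype.card_fin]
      rw [← pow_mul, mul_comm (Fintype.card C) e]
      exact hroom)
  refine ⟨φ, h1, h2, fun a h x c => ?_⟩
  have hF : ∀ u ∈ ({v ∈ E | cl v = a ∧ gr v = h ∧ φ v = x} : Finset V),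
      ∀ v ∈ ({v ∈ E | cl v = a ∧ gr v = h ∧ φ v = x} : Finset V), _ := fun u hu v hv =>
    h3 u (mem_filter.1 hu).1 v (mem_filter.1 hv).1
      ((mem_filter.1 hu).2.1.trans (mem_filter.1 hv).2.1.symm)
      ((mem_filter.1 hu).2.2.1.trans (mem_filter.1 hv).2.2.1.symm)
      ((mem_filter.1 hu).2.2.2.trans (mem_filter.1 hv).2.2.2.symm)
  refine load_aux tr E _ κ (fun v => w v c) e η' (Bd c) (fun v => hw v c) (hBd c) hη' hκe
    (filter_subset _ _) (fun u hu v hv => (hF u hu v hv).2) (fun i => htot i c) ?_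
  intro u hu v hv k hk
  exact congrArg Fin.val (congrFun (congrFun (hF u hu v hv).1 ⟨k, hk⟩) c)

end Pool.Agent.Lib.MP_12a5fd_co.BT
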