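import Pool.Agent.Lib.MP_12a5fd_co.BT.Defs
import Pool.Agent.Lib.MP_2b1ae8_co.AT.Hub1

/-! Balanced assignment of kinds to the small core vertices. -/

set_option autoImplicit false
set_option linter.unusedSectionVars false

namespace Pool.Agent.Lib.MP_12a5fd_co.BT

open Finset Pool.Agent.Lib.MP_2b1ae8_co.AT

theorem kd_pot {V C H : Type} [DecidableEq V] [Fintype C] [Fintype H] [DecidableEq H]
    [Nonempty H] (w : V → C → ℝ) (g : ℝ) (s : Finset V) (hw0 : ∀ v c, 0 ≤ w v c)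
    (hw : ∀ v ∈ s, ∀ c, w v c ≤ g) :
    ∃ τ : V → H, ∑ c, ∑ x, (max (∑ v ∈ s with τ v = x, w v c -
      (∑ v ∈ s, w v c) / (Fintype.card H : ℕ)) 0) ^ 2 ≤ g * ∑ c, ∑ v ∈ s, w v c := by
  induction s using Finset.induction_on with
  | empty => exact ⟨fun _ => Classical.arbitrary H, by simp⟩
  | insert v s hv ih =>
    obtain ⟨τ, hτ⟩ := ih fun u hu => hw u (mem_insert_of_mem hu)
    obtain ⟨x0, -, hx⟩ := hub_pot (fun x c => ∑ u ∈ s with τ u = x, w u c -
      (∑ u ∈ s, w u c) / (Fintype.card H : ℕ)) (w v) g (Fintype.card H) Fintype.card_pos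
      (hw0 v) (hw v (mem_insert_self _ _)) univ (by simp)
    refine ⟨Function.update τ v x0, ?_⟩
    have e1 : ∀ x c, ∑ u ∈ insert v s with Function.update τ v x0 u = x, w u c =
        ∑ u ∈ s with τ u = x, w u c + if x0 = x then w v c else 0 := by
      intro x c
      rw [sum_filter, sum_insert hv, Function.update_self, add_comm, sum_filter]
      congr 1
      refine sum_congr rfl fun u hu => ?_
      rw [Function.update_of_ne (fun h : u = v => hv (h ▸ hu))]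
    have e2 : ∀ x c, ∑ u ∈ insert v s with Function.update τ v x0 u = x, w u c -
        (∑ u ∈ insert v s, w u c) / (Fintype.card H : ℕ) =
        (∑ u ∈ s with τ u = x, w u c - (∑ u ∈ s, w u c) / (Fintype.card H : ℕ)) +
          (if x0 = x then w v c else 0) - w v c / (Fintype.card H : ℕ) := by
      intro x c
      rw [e1, sum_insert hv]
      ring
    simp only [e2]
    refine hx.trans ?_
    simp only [sum_insert hv, sum_add_distrib]
    linarith

theorem balance {V C T : Type} [DecidableEq V] [Fintype C] [DecidableEq T] (s : Finset V)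
    (w : V → C → ℕ) (g η : ℕ) (SL : Finset T) (hSL : SL.Nonempty)
    (hw : ∀ v ∈ s, ∀ c, w v c ≤ g) (hη : g * ∑ c, ∑ v ∈ s, w v c ≤ η ^ 2) :
    ∃ τ : V → T, (∀ v, τ v ∈ SL) ∧
      ∀ x c, (∑ v ∈ s with τ v = x, w v c) * #SL ≤ ∑ v ∈ s, w v c + #SL * η := by
  have : Nonempty SL := hSL.to_subtype
  obtain ⟨τ, hτ⟩ := kd_pot (H := SL) (fun v c => (w v c : ℝ)) g s (fun v c => by positivity)
    (fun v hv c => by exact_mod_cast hw v hv c)
  refine ⟨fun v => τ v, fun v => (τ v).2, fun x c => ?_⟩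
  by_cases hx : x ∈ SL
  · have hn : (0 : ℝ) < #SL := by exact_mod_cast card_pos.2 hSL
    have h1 : (max (∑ v ∈ s with τ v = ⟨x, hx⟩, (w v c : ℝ) -
        (∑ v ∈ s, (w v c : ℝ)) / (Fintype.card SL : ℕ)) 0) ^ 2 ≤ (η : ℝ) ^ 2 := by
      have h2 : (g : ℝ) * ∑ c, ∑ v ∈ s, (w v c : ℝ) ≤ (η : ℝ) ^ 2 := by exact_mod_cast hη
      refine le_trans ?_ (hτ.trans h2)
      refine le_trans ?_ (single_le_sum (f := fun c => ∑ x, (max (∑ v ∈ s with τ v = x,
        (w v c : ℝ) - (∑ v ∈ s, (w v c : ℝ)) / (Fintype.card SL : ℕ)) 0) ^ 2)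
        (fun c _ => sum_nonneg fun x _ => sq_nonneg _) (mem_univ c))
      exact single_le_sum (f := fun x => (max (∑ v ∈ s with τ v = x,
        (w v c : ℝ) - (∑ v ∈ s, (w v c : ℝ)) / (Fintype.card SL : ℕ)) 0) ^ 2)
        (fun x _ => sq_nonneg _) (mem_univ _)
    have h3 := le_trans (le_max_left _ _) (abs_le_of_sq_le_sq' h1 (by positivity)).2
    rw [Fintype.card_coe, sub_le_iff_le_add, ← mul_le_mul_iff_left₀ hn, add_mul,
      div_mul_cancel₀ _ hn.ne'] at h3
    have e : ({v ∈ s | (τ v : T) = x} : Finset V) = {v ∈ s | τ v = ⟨x, hx⟩} :=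
      filter_congr fun v _ => by rw [Subtype.ext_iff]
    rw [e]
    have h4 : (∑ v ∈ s with τ v = ⟨x, hx⟩, (w v c : ℝ)) * #SL ≤
        ∑ v ∈ s, (w v c : ℝ) + #SL * η := by linarith
    exact_mod_cast h4
  · rw [filter_false_of_mem fun v _ (h : (τ v : T) = x) => hx (h ▸ (τ v).2)]
    simp

/-- The slots of a class. -/
def kdSL {Cl Cs : Type} [Fintype Cl] [DecidableEq Cl] {Q : ℕ} [NeZero Q]
    (T : DS Cl Cs (RQ Q) Q) (Z : Cs) : Finset ((Cl × Cl × RQ Q) × G1 Q) :=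
  {t | t.1.2.2 ∈ T.S t.1.1 t.1.2.1 Z none}

theorem kd_card3 {Cl Cs : Type} [Fintype Cl] [DecidableEq Cl] {Q : ℕ} [NeZero Q]
    (T : DS Cl Cs (RQ Q) Q) (Z : Cs) (p : Cl → Cl → Prop) [∀ X Y, Decidable (p X Y)] :
    #{t : Cl × Cl × RQ Q | t.2.2 ∈ T.S t.1 t.2.1 Z none ∧ p t.1 t.2.1} =
      ∑ X, ∑ Y, if p X Y then #(T.S X Y Z none) else 0 := by
  rw [card_filter, Fintype.sum_prod_type]
  refine sum_congr rfl fun X _ => ?_
  rw [Fintype.sum_prod_type]
  refine sum_congr rfl fun Y _ => ?_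
  by_cases h : p X Y <;> simp [h]

theorem kd_card {Cl Cs : Type} [Fintype Cl] [DecidableEq Cl] {Q : ℕ} [NeZero Q]
    (T : DS Cl Cs (RQ Q) Q) (Z : Cs) : #(kdSL T Z) = T.wt Z * Q ^ 3 := by
  have e : kdSL T Z = ({t : Cl × Cl × RQ Q | t.2.2 ∈ T.S t.1 t.2.1 Z none ∧ True} : Finset _) ×ˢ
      (univ : Finset (G1 Q)) := by
    ext t
    simp [kdSL]
  rw [e, card_product, kd_card3 T Z fun _ _ => True]
  simp [DS.wt, ZMod.card]
  left
  ring

theorem kd_mg {Cl Cs : Type} [Fintype Cl] [DecidableEq Cl] {Q : ℕ} [NeZero Q]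
    (T : DS Cl Cs (RQ Q) Q) (Z : Cs) (U : Cl) (a : G1 Q) (s : Bool) :
    #{t ∈ kdSL T Z | (if s then t.1.1 else t.1.2.1) = U ∧ t.2 = a} ≤ T.mg Z U := by
  have e : ({t ∈ kdSL T Z | (if s then t.1.1 else t.1.2.1) = U ∧ t.2 = a} : Finset _) =
      ({t : Cl × Cl × RQ Q | t.2.2 ∈ T.S t.1 t.2.1 Z none ∧ (if s then t.1 else t.2.1) = U} :
        Finset _) ×ˢ ({a} : Finset (G1 Q)) := by
    ext t
    simp only [kdSL, mem_filter, mem_univ, true_and, mem_product, mem_singleton, and_assoc]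
  rw [e, card_product, kd_card3 T Z fun X Y => (if s then X else Y) = U, card_singleton, mul_one,
    DS.mg, sum_add_distrib]
  cases s
  · simp
  · rw [sum_comm]
    simp

theorem kd_le_nn {V I Lb : Type} [Fintype V] [DecidableEq V] [DecidableEq I]
    {K D g : ℕ} [NeZero K] {F : GF V I K D g} {sd : V → Bool} {S : SD Lb K} (P : LS1 F sd S)
    (i : I) (l : Lb) (B : Finset V) (h : ∀ r ∈ B, r ∈ P.Tp ∧ F.tr r = i ∧ P.lab r = l) :
    #B ≤ P.nn i l := by
  unfold LS1.nn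
  refine card_le_card fun r hr => ?_
  simpa only [mem_filter] using h r hr

theorem kd_nn_le {V I Lb : Type} [Fintype V] [DecidableEq V] [DecidableEq I]
    {K D g : ℕ} [NeZero K] {F : GF V I K D g} {sd : V → Bool} {S : SD Lb K} (P : LS1 F sd S)
    (i : I) (l : Lb) (B : Finset V) (h : ∀ r ∈ P.Tp, F.tr r = i → P.lab r = l → r ∈ B) :
    P.nn i l ≤ #B := by
  unfold LS1.nn
  refine card_le_card fun r hr => ?_
  simp only [mem_filter] at hr
  exact h r hr.1 hr.2.1 hr.2.2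

theorem exists_kinds {V I Sh Cl Cs : Type} [Fintype V] [DecidableEq V] [DecidableEq I]
    [Fintype Sh] [DecidableEq Sh] [Fintype Cl] [DecidableEq Cl] {K D g Q : ℕ} [NeZero K]
    [NeZero Q] {F : GF V I K D g} {sd : V → Bool} {S : SD Sh K} (P : LS1 F sd S)
    (T : DS Cl Cs (RQ Q) Q) (cl : I → Cs) (k q' : ℕ)
    (hsd : ∀ v, v ∉ F.R → sd (F.par v) ≠ sd v) (hwt : ∀ i, 0 < T.wt (cl i))
    (hk : ∀ i, #{v | F.tr v = i} ≤ k) (hbal : g * k ≤ q' ^ 2) :
    ∃ kn : V → Knd Cl Q, Nonempty (KS (P.ext (ko F kn)) (knD Sh T.cs Q)) ∧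
      (∀ i σ, (P.ext (ko F kn)).nn i (none, σ) ≤ (P.ext (mo F)).nn i (none, σ)) ∧
      (∀ i s σ, (P.ext (ko F kn)).nn i (some (Sum.inl s), σ) ≤
        if s = S.sl σ 0 then 0 else (P.ext (mo F)).nn i (some true, σ)) ∧
      ∀ i U a σ, (P.ext (ko F kn)).nn i (some (Sum.inr (U, a)), σ) * (T.wt (cl i) * Q ^ 3) ≤
        if T.cs U = S.sl σ 0 then 0 else
          T.mg (cl i) U * ((P.ext (mo F)).nn i (some false, σ) + T.wt (cl i) * Q ^ 3 * q') := by
  classical
  have hTp : ∀ r ∈ P.Tp, r ∉ F.Z ∧ r ∉ F.La := fun r hr =>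
    ⟨((P.mem_Tp r).1 hr).1, ((P.mem_Tp r).1 hr).2.1⟩
  have hR : ∀ r ∈ P.Tp, r ∉ F.R := fun r hr h => (hTp r hr).1 (F.E_sub (F.R_sub h))
  have hside : ∀ r ∈ P.Tp, sd (F.par r) ≠ S.sl (P.lab r) 0 := by
    intro r hr
    rw [← (P.top_self r hr).2, P.side r (hTp r hr).1 (hTp r hr).2]
    exact hsd r (hR r hr)
  set s : I → Finset V := fun i => {z ∈ F.Z | z ∉ F.E ∧ F.tr z = i} with hs
  set w : V → Sh → ℕ := fun z σ => #{r ∈ P.Tp | F.par r = z ∧ P.lab r = σ} with hw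
  have hsum : ∀ (B : Finset V) σ, ∑ z ∈ B, w z σ = #{r ∈ P.Tp | F.par r ∈ B ∧ P.lab r = σ} := by
    intro B σ
    rw [card_eq_sum_card_fiberwise (f := F.par) (t := B) fun r hr => by
      simp only [coe_filter, Set.mem_ofPred_eq] at hr
      exact hr.2.1]
    refine sum_congr rfl fun z hz => ?_
    simp only [hw, filter_filter]
    congr 1
    refine filter_congr fun r _ => ⟨fun h => ⟨⟨h.1 ▸ hz, h.2⟩, h.1⟩, fun h => ⟨h.2, h.1.2⟩⟩
  have hbl : ∀ i, ∃ τ : V → (Cl × Cl × RQ Q) × G1 Q, (∀ v, τ v ∈ kdSL T (cl i)) ∧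
      ∀ x c, (∑ v ∈ s i with τ v = x, w v c) * #(kdSL T (cl i)) ≤
        ∑ v ∈ s i, w v c + #(kdSL T (cl i)) * q' := by
    intro i
    refine balance (s i) w g q' _ ?_ ?_ ?_
    · rw [← card_pos, kd_card]
      exact Nat.mul_pos (hwt i) (pow_pos (Nat.pos_of_ne_zero (NeZero.ne Q)) 3)
    · intro z hz σ
      simp only [hs, mem_filter] at hz
      refine le_trans (card_le_card fun r hr => ?_) (F.ch_small z hz.1 hz.2.1)
      simp only [mem_filter, mem_univ, true_and] at hr ⊢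
      exact ⟨hR r hr.1, hr.2.1⟩
    · refine le_trans (Nat.mul_le_mul_left g (le_trans ?_ (hk i))) hbal
      simp only [hsum]
      have e : ∑ σ, #{r ∈ P.Tp | F.par r ∈ s i ∧ P.lab r = σ} = #{r ∈ P.Tp | F.par r ∈ s i} := by
        rw [card_eq_sum_card_fiberwise (f := P.lab) (s := {r ∈ P.Tp | F.par r ∈ s i}) (t := univ)
          fun r _ => mem_univ _]
        simp only [filter_filter]
      rw [e]
      refine card_le_card fun r hr => ?_
      simp only [hs, mem_filter, mem_univ, true_and] at hr ⊢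
      rw [← F.tr_par, hr.2.2.2]
  choose τ hτ1 hτ2 using hbl
  set kn : V → Knd Cl Q := fun z => if z ∈ F.E then Sum.inl (sd z) else
    Sum.inr (if sd z then (τ (F.tr z) z).1.1 else (τ (F.tr z) z).1.2.1, (τ (F.tr z) z).2) with hkn
  have hcs : ∀ z, T.cs (if sd z then (τ (F.tr z) z).1.1 else (τ (F.tr z) z).1.2.1) = sd z := by
    intro z
    have h := hτ1 (F.tr z) z
    simp only [kdSL, mem_filter, mem_univ, true_and] at h
    have := T.supp _ _ _ _ h
    cases hz : sd z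
    · simpa using this.2.1
    · simpa using this.1
  have hko : ∀ r ∈ P.Tp, ∀ κ σ, (P.ext (ko F kn)).lab r = (some κ, σ) →
      F.par r ∈ F.Z ∧ kn (F.par r) = κ ∧ P.lab r = σ := by
    intro r hr κ σ h
    simp only [LS1.ext, (P.top_self r hr).1, ko, Prod.mk.injEq] at h
    by_cases hz : F.par r ∈ F.Z
    · rw [if_pos hz] at h
      exact ⟨hz, Option.some.inj h.1, h.2⟩
    · rw [if_neg hz] at h
      exact absurd h.1 (by simp)
  refine ⟨kn, ⟨⟨kn, ?_, ?_, ?_, ?_, ?_⟩⟩, ?_, ?_, ?_⟩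
  · intro r hr hz
    have hr' : r ∈ P.Tp := hr
    simp [knD, LS1.ext, (P.top_self r hr').1, ko, hz]
  · intro r hr hz
    have hr' : r ∈ P.Tp := hr
    simp [knD, LS1.ext, (P.top_self r hr').1, ko, hz]
  · intro z _
    by_cases hE : z ∈ F.E
    · simp [knD, hkn, hE]
    · simp only [knD, hkn, hE, if_false, Sum.elim_inr]
      exact hcs z
  · intro z _
    by_cases hE : z ∈ F.E <;> simp [knD, hkn, hE]
  · intro u hu v hv _ h
    simp [hkn, hu, hv, h]
  · intro i σ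
    unfold LS1.nn
    refine card_le_card fun r hr => ?_
    simp only [mem_filter, LS1.ext, Prod.mk.injEq, ko, mo] at hr ⊢
    refine ⟨hr.1, hr.2.1, ?_, hr.2.2.2⟩
    by_cases hz : F.par (F.top r) ∈ F.Z
    · simp [hz] at hr
    · simp [hz]
  · intro i b σ
    have key : ∀ r ∈ P.Tp, (P.ext (ko F kn)).lab r = (some (Sum.inl b), σ) →
        F.par r ∈ F.E ∧ sd (F.par r) = b ∧ P.lab r = σ := by
      intro r hr h
      obtain ⟨-, h2, h3⟩ := hko r hr _ _ h
      by_cases hE : F.par r ∈ F.E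
      · simp only [hkn, hE, if_true, Sum.inl.injEq] at h2
        exact ⟨hE, h2, h3⟩
      · simp [hkn, hE] at h2
    split_ifs with hb
    · refine kd_nn_le _ i _ ∅ fun r hr _ h => ?_
      obtain ⟨-, h2, h3⟩ := key r hr h
      exact absurd (by rw [h2, h3, hb]) (hside r hr)
    · refine le_trans (kd_nn_le _ i _ {r ∈ P.Tp | F.tr r = i ∧ F.par r ∈ F.E ∧ P.lab r = σ}
        fun r hr hi h => ?_) (kd_le_nn _ i _ _ fun r hr => ?_)
      · obtain ⟨h1, -, h3⟩ := key r hr h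
        exact mem_filter.2 ⟨hr, hi, h1, h3⟩
      · obtain ⟨hr', hi, h1, h3⟩ := mem_filter.1 hr
        refine ⟨hr', hi, ?_⟩
        simp [LS1.ext, (P.top_self r hr').1, mo, F.E_sub h1, h1, h3]
  · intro i U a σ
    have key : ∀ r ∈ P.Tp, F.tr r = i → (P.ext (ko F kn)).lab r = (some (Sum.inr (U, a)), σ) →
        F.par r ∈ s i ∧ sd (F.par r) = T.cs U ∧ P.lab r = σ ∧
          (if T.cs U then (τ i (F.par r)).1.1 else (τ i (F.par r)).1.2.1) = U ∧
          (τ i (F.par r)).2 = a := by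
      intro r hr hi h
      obtain ⟨h1, h2, h3⟩ := hko r hr _ _ h
      have ht : F.tr (F.par r) = i := (F.tr_par r).trans hi
      by_cases hE : F.par r ∈ F.E
      · simp [hkn, hE] at h2
      · simp only [hkn, hE, if_false, Sum.inr.injEq, Prod.mk.injEq] at h2
        have h4 := hcs (F.par r)
        rw [h2.1] at h4
        rw [ht] at h2
        refine ⟨by simp [hs, h1, hE, ht], h4.symm, h3, ?_, h2.2⟩
        rw [h4]
        exact h2.1
    split_ifs with hb
    · rw [Nat.le_zero, Nat.mul_eq_zero]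
      left
      rw [← Nat.le_zero]
      refine kd_nn_le _ i _ ∅ fun r hr hi h => ?_
      obtain ⟨-, h2, h3, -⟩ := key r hr hi h
      exact absurd (by rw [h2, h3, hb]) (hside r hr)
    · set B := {t ∈ kdSL T (cl i) | (if T.cs U then t.1.1 else t.1.2.1) = U ∧ t.2 = a} with hB
      have h1 : (P.ext (ko F kn)).nn i (some (Sum.inr (U, a)), σ) ≤
          ∑ x ∈ B, ∑ v ∈ s i with τ i v = x, w v σ := by
        rw [sum_fiberwise_eq_sum_filter, hsum]
        refine kd_nn_le _ i _ _ fun r hr hi h => ?_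
        obtain ⟨a1, -, a3, a4, a5⟩ := key r hr hi h
        simp only [mem_filter, hB]
        exact ⟨hr, ⟨a1, hτ1 _ _, a4, a5⟩, a3⟩
      have h2 : ∑ v ∈ s i, w v σ ≤ (P.ext (mo F)).nn i (some false, σ) := by
        rw [hsum]
        refine kd_le_nn _ i _ _ fun r hr => ?_
        obtain ⟨hr', a1, a2⟩ := mem_filter.1 hr
        simp only [hs, mem_filter] at a1
        refine ⟨hr', (F.tr_par r).symm.trans a1.2.2, ?_⟩
        simp [LS1.ext, (P.top_self r hr').1, mo, a1.1, a1.2.1, a2]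
      rw [← kd_card]
      refine le_trans (Nat.mul_le_mul_right _ h1) ?_
      rw [sum_mul]
      refine le_trans (sum_le_card_nsmul _ _ _ fun x _ => hτ2 i x σ) ?_
      rw [smul_eq_mul]
      exact Nat.mul_le_mul (kd_mg T _ U a _) (Nat.add_le_add_right h2 _)

end Pool.Agent.Lib.MP_12a5fd_co.BT
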