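import Pool.Agent.Lib.MP_12a5fd_co.BT.Defs
import Pool.Agent.Lib.MP_2b1ae8_co.AT.Tree
import Pool.Agent.Lib.MP_2b1ae8_co.AT.Labels

/-! Decomposed forests with true parent edges, and labels with sides. -/

set_option autoImplicit false
set_option linter.unusedSectionVars false

namespace Pool.Agent.Lib.MP_12a5fd_co.BT

open Finset Pool.Agent.Lib.MP_2b1ae8_co.AT

/-- A finite tree, rooted at `ρ`, is described by a parent function along edges. -/
theorem exists_parent2 {α : Type} [Fintype α] [DecidableEq α] (T : SimpleGraph α)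
    (hT : T.IsTree) (ρ : α) :
    ∃ (par : α → α) (d : α → ℕ), (∀ w, w ≠ ρ → d (par w) < d w) ∧
      (∀ a b, T.Adj a b → (a ≠ ρ ∧ b = par a) ∨ (b ≠ ρ ∧ a = par b)) ∧
      ∀ w, w ≠ ρ → T.Adj w (par w) := by
  classical
  obtain ⟨par, d, h1, h2⟩ := Pool.Agent.Lib.MP_2b1ae8_co.exists_parent T hT ρ
  refine ⟨par, d, h1, h2, ?_⟩
  have hsub : T.edgeFinset ⊆ (univ.erase ρ).image (fun w => s(w, par w)) := by
    intro e he
    induction e using Sym2.ind with
    | _ a b =>
      rcases h2 a b (SimpleGraph.mem_edgeFinset.1 he) with ⟨h, rfl⟩ | ⟨h, rfl⟩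
      · exact mem_image.2 ⟨a, mem_erase.2 ⟨h, mem_univ _⟩, rfl⟩
      · exact mem_image.2 ⟨b, mem_erase.2 ⟨h, mem_univ _⟩, Sym2.eq_swap⟩
  have hcard : ((univ.erase ρ).image (fun w => s(w, par w))).card ≤ Fintype.card α - 1 := by
    refine card_image_le.trans ?_
    rw [card_erase_of_mem (mem_univ _), card_univ]
  have hc2 := hT.card_edgeFinset
  have heq := eq_of_subset_of_card_le hsub (by omega)
  intro w hw
  have : s(w, par w) ∈ T.edgeFinset := by
    rw [heq]
    exact mem_image.2 ⟨w, mem_erase.2 ⟨hw, mem_univ _⟩, rfl⟩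
  exact SimpleGraph.mem_edgeFinset.1 this

theorem exists_GF2 {I : Type} [Fintype I] [DecidableEq I] (n : I → ℕ)
    (T : (i : I) → SimpleGraph (Fin (n i))) (hT : ∀ i, (T i).IsTree) (K D g : ℕ)
    (hK : 0 < K) (hg : 0 < g) :
    ∃ F : GF (Σ i, Fin (n i)) I K D g, F.tr = Sigma.fst ∧ (∀ i a b, (T i).Adj a b →
      ((⟨i, a⟩ : Σ i, Fin (n i)) ∉ F.R ∧ F.par ⟨i, a⟩ = ⟨i, b⟩) ∨
      ((⟨i, b⟩ : Σ i, Fin (n i)) ∉ F.R ∧ F.par ⟨i, b⟩ = ⟨i, a⟩)) ∧
      ∀ i a, (⟨i, a⟩ : Σ i, Fin (n i)) ∉ F.R → ∃ b, F.par ⟨i, a⟩ = ⟨i, b⟩ ∧ (T i).Adj a b := by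
  have ρ : ∀ i, Fin (n i) := fun i => Classical.choice (hT i).connected.nonempty
  choose par d h1 h2 h4 using fun i => exists_parent2 (T i) (hT i) (ρ i)
  choose dep h3 using fun i => tr_exists_dep (ρ i) (par i) (d i) (h1 i)
  let F : Fo (Σ i, Fin (n i)) I :=
    { tr := Sigma.fst
      R := {v | v.2 = ρ v.1}
      par := fun v => ⟨v.1, par v.1 v.2⟩
      dep := fun v => dep v.1 v.2
      rho := fun v => ⟨v.1, ρ v.1⟩
      tr_par := fun _ => rfl
      dep_par := fun v hv => h3 v.1 v.2 (by simpa using hv)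
      tr_rho := fun _ => rfl
      rho_R := fun v => by simp
      uniq := by
        rintro ⟨i, r⟩ hr ⟨j, v⟩ e
        simp only [mem_filter, mem_univ, true_and] at hr e
        subst e
        rw [hr] }
  obtain ⟨G, e1, e2, e3⟩ := F.exists_GF K D g hK hg
  refine ⟨G, e1, fun i a b hab => ?_, fun i a ha => ?_⟩
  · rw [e2, e3]
    rcases h2 i a b hab with ⟨h, rfl⟩ | ⟨h, rfl⟩
    · exact Or.inl ⟨by simpa [F] using h, rfl⟩
    · exact Or.inr ⟨by simpa [F] using h, rfl⟩
  · rw [e2] at ha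
    rw [e3]
    exact ⟨par i a, rfl, h4 i a (by simpa [F] using ha)⟩

theorem exists_LS1 {V I : Type} [Fintype V] [DecidableEq V] [DecidableEq I] {K D g : ℕ} [NeZero K]
    (F : GF V I K D g) (sd : V → Bool) : Nonempty (LS1 F sd (shD K)) := by
  classical
  obtain ⟨P⟩ := exists_LS F
  refine ⟨{
    lab := fun v =>
      (fun j => decide (∃ u, (u ∉ F.Z ∧ u ∉ F.La) ∧ F.top u = F.top v ∧ P.ix u = j),
       fun j => decide (∃ u, (u ∉ F.Z ∧ u ∉ F.La) ∧ F.top u = F.top v ∧ P.ix u = j ∧ sd u = true),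
       (lblD K).ma (P.lab v), (lblD K).cp (P.lab v))
    ix := P.ix
    Tp := P.Tp
    mem_Tp := P.mem_Tp
    top_mem := ?_
    top_self := P.top_self
    ix_inj := P.ix_inj
    inner := ?_
    side := ?_
    mark := P.mark
    cnt_side := ?_
    cnt_ma := P.cnt_ma }⟩
  · intro v h1 h2
    obtain ⟨a1, a2, a3, -⟩ := P.top_mem v h1 h2
    refine ⟨a1, a2, ?_, ?_⟩
    · rw [(P.top_self _ a1).1, a3]
    · simp only [shD, decide_eq_true_eq]
      exact ⟨v, ⟨h1, h2⟩, rfl, rfl⟩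
  · intro v h1 h2 h3
    obtain ⟨a1, a2, a3, -⟩ := P.inner v h1 h2 h3
    exact ⟨a1, a2, a3⟩
  · intro v h1 h2
    simp only [shD]
    cases hs : sd v with
    | true => exact decide_eq_true ⟨v, ⟨h1, h2⟩, rfl, rfl, hs⟩
    | false =>
      refine decide_eq_false ?_
      rintro ⟨u, ⟨u1, u2⟩, u3, u4, u5⟩
      rw [P.ix_inj u v u1 u2 h1 h2 u3 u4, hs] at u5
      exact Bool.false_ne_true u5
  · intro i s
    refine le_trans (sum_le_sum (g := fun r =>
      #{u ∈ ({u | (u ∉ F.Z ∧ u ∉ F.La) ∧ sd u = s} : Finset V) | F.top u = r}) fun r hr => ?_) ?_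
    · have ht := (P.top_self r (mem_filter.1 hr).1).1
      refine le_trans (card_le_card ?_) (card_image_le (f := P.ix))
      intro j hj
      obtain ⟨-, j1, j2⟩ := mem_filter.1 hj
      simp only [shD, decide_eq_true_eq, ht] at j1 j2
      cases s with
      | true =>
        obtain ⟨u, u1, u2, u3, u4⟩ := of_decide_eq_true j2
        exact mem_image.2 ⟨u, by simp [u1, u2, u4], u3⟩
      | false =>
        obtain ⟨u, u1, u2, u3⟩ := j1
        have u4 : sd u = false := by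
          cases hs : sd u with
          | false => rfl
          | true => exact absurd ⟨u, u1, u2, u3, hs⟩ (of_decide_eq_false j2)
        exact mem_image.2 ⟨u, by simp [u1, u2, u4], u3⟩
    · rw [sum_card_fiberwise_eq_card_filter]
      apply card_le_card
      intro u hu
      simp only [mem_filter, mem_univ, true_and] at hu ⊢
      refine ⟨?_, hu.1.2⟩
      rw [← (P.top_mem u hu.1.1.1 hu.1.1.2).2.1]
      exact hu.2.2

end Pool.Agent.Lib.MP_12a5fd_co.BT
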