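import Pool.Agent.Lib.MP_12a5fd_co.BT.MicroA
import Pool.Agent.Lib.MP_2b1ae8_co.AT.Late

/-! Bundles, positions of the top vertices, shifts, late vertices. -/

set_option autoImplicit false
set_option linter.unusedSectionVars false

namespace Pool.Agent.Lib.MP_12a5fd_co.BT

open Finset Pool.Agent.Lib.MP_2b1ae8_co.AT

variable {V I Lb Kd Bn BB CC Sb Hd : Type} [Fintype V] [DecidableEq V] [Fintype I]
  [DecidableEq I] [Fintype Lb] [DecidableEq Lb] [Fintype Bn] [DecidableEq Bn] [Fintype BB]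
  [DecidableEq BB] [DecidableEq CC] [Fintype Sb] [DecidableEq Sb] [Fintype Hd] [DecidableEq Hd]
  {K D g : ℕ} [NeZero K] {F : GF V I K D g} {sd : V → Bool} {S : SD Lb K} {Y : KD Lb Kd}
  {m q q' n0 r1 Mk : ℕ} (P : LS1 F sd S)
  (M : MS2 I Lb Kd Bn BB CC Sb Hd S Y P.nn m q q' n0 r1 Mk)

theorem colour2 {X : Type} [DecidableEq X] [NeZero q] [Nonempty Bn] (φ : V → X) (U : ℕ)
    (hload : ∀ x B, ∑ r ∈ P.Tp with φ r = x, rho2 P M B r ≤ U)
    (hq : U + Fintype.card Sb ≤ q) (hq' : q' ≤ q) :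
    ∃ (bn : V → Bn) (col : V → Fin q), (∀ r ∈ P.Tp, bn r ∈ M.bs (M.sc (F.tr r)) (P.lab r)) ∧
      ∀ r ∈ P.Tp, ∀ r' ∈ P.Tp, M.bl (M.sc (F.tr r)) (P.lab r) (bn r) 0 =
        M.bl (M.sc (F.tr r')) (P.lab r') (bn r') 0 → col r = col r' →
        (F.tr r = F.tr r' ∨ φ r = φ r') → r = r' := by
  obtain ⟨bn, b1, b2, b3⟩ := equitable P.Tp (fun r => (M.sc (F.tr r), P.lab r)) F.tr
    φ (fun k => M.bs k.1 k.2) (fun r hr => bs_ne P M hr)
  let rb : V → BB := fun r => M.bl (M.sc (F.tr r)) (P.lab r) (bn r) 0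
  have same : ∀ r ∈ P.Tp, ∀ r' ∈ P.Tp, M.sc (F.tr r) = M.sc (F.tr r') → rb r = rb r' →
      P.lab r = P.lab r' ∧ bn r = bn r' := fun r hr r' hr' h h' => by
    have h1 := b1 r hr
    simp only [rb, h] at h1 h'
    have := M.bl_inj _ _ _ _ _ _ _ h1 (P.us0 hr) (b1 r' hr') (P.us0 hr') h'
    exact ⟨this.1, this.2.1⟩
  obtain ⟨col, hcol⟩ := konig P.Tp (fun r => (F.tr r, rb r)) (fun r => (φ r, rb r)) q
    (Nat.pos_of_ne_zero (NeZero.ne q))
    (by
      rintro ⟨i, B⟩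
      rw [← Nat.cast_le (α := ℝ)]
      refine card_le_of_ne (by positivity) fun r hr => Nat.cast_le.2 ?_
      obtain ⟨hr, h⟩ := mem_filter.1 hr
      obtain ⟨rfl, rfl⟩ := Prod.mk.inj h
      replace hr := (mem_filter.1 hr).1
      refine le_trans (card_le_card fun e he => ?_) ((b2 (M.sc (F.tr r), P.lab r) (F.tr r) (bn r) q'
        (le_trans (card_le_card fun e he => ?_)
          ((P.nn_eq _ _).symm.le.trans (M.size (F.tr r) (P.lab r))))).trans hq')
      · obtain ⟨he, h⟩ := mem_filter.1 he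
        obtain ⟨h1, h2⟩ := Prod.mk.inj h
        obtain ⟨h3, h4⟩ := same e he r hr (by rw [h1]) h2
        exact mem_filter.2 ⟨he, by rw [h1, h3], h1, h4⟩
      · obtain ⟨he, h, h1⟩ := mem_filter.1 he
        exact mem_filter.2 ⟨he, h1, (Prod.mk.inj h).2⟩)
    (by
      rintro ⟨x, B⟩
      rw [← Nat.cast_le (α := ℝ)]
      have step : ∀ σ, (#{r ∈ {r ∈ P.Tp | (φ r, rb r) = (x, B)} | M.sc (F.tr r) = σ} : ℝ) ≤
          ∑ r ∈ {r ∈ P.Tp | φ r = x} with M.sc (F.tr r) = σ, rho2 P M B r + 1 := by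
        intro σ
        refine card_le_of_ne (add_nonneg (sum_nonneg fun _ _ => rho2_nonneg P M _ _) zero_le_one)
          fun r hr => ?_
        obtain ⟨hr, rfl⟩ := mem_filter.1 hr
        obtain ⟨hr, h⟩ := mem_filter.1 (mem_filter.1 hr).1
        have hn := card_pos.2 (bs_ne P M hr)
        have e1 := b3 (M.sc (F.tr r), P.lab r) x (bn r) _
          ((Nat.lt_mul_div_succ _ hn).le.trans (mul_comm _ _).le)
        refine le_trans (Nat.cast_le.2 (le_trans (card_le_card fun e he => ?_) e1)) ?_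
        · obtain ⟨he, h1⟩ := mem_filter.1 he
          obtain ⟨he, h2⟩ := mem_filter.1 he
          obtain ⟨h3, h4⟩ := same e he r hr h1 ((Prod.mk.inj h2).2.trans (Prod.mk.inj h).2.symm)
          exact mem_filter.2 ⟨he, by rw [h1, h3], (Prod.mk.inj h2).1, h4⟩
        · push_cast
          refine add_le_add_left (Nat.cast_div_le.trans (le_trans (le_of_eq ?_)
            (sum_le_sum_of_subset_of_nonneg (s := {e ∈ P.Tp | (M.sc (F.tr e), P.lab e) =
              (M.sc (F.tr r), P.lab r) ∧ φ e = x}) (fun e he => ?_)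
              fun _ _ _ => rho2_nonneg P M _ _))) _
          · rw [div_eq_mul_one_div, ← nsmul_eq_mul, ← sum_const]
            refine sum_congr rfl fun e he => ?_
            obtain ⟨h1, h2⟩ := Prod.mk.inj (mem_filter.1 he).2.1
            unfold rho2
            rw [h1, h2, if_pos ⟨bn r, b1 r hr, (Prod.mk.inj h).2⟩]
          · obtain ⟨he, h1, h2⟩ := mem_filter.1 he
            exact mem_filter.2 ⟨mem_filter.2 ⟨he, h2⟩, (Prod.mk.inj h1).1⟩
      have e2 := sum_le_sum fun σ (_ : σ ∈ univ) => step σ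
      rw [sum_add_distrib, sum_fiberwise, ← Nat.cast_sum,
        ← card_eq_sum_card_fiberwise (fun _ _ => mem_univ _)] at e2
      have e3 := hload x B
      have e4 : (U + Fintype.card Sb : ℝ) ≤ q := by exact_mod_cast hq
      simp only [sum_const, card_univ, nsmul_eq_mul, mul_one] at e2
      linarith)
  refine ⟨bn, col, b1, fun r hr r' hr' h1 h2 h3 => hcol r hr r' hr' h2 ?_⟩
  exact h3.imp (fun h => Prod.ext h h1) (fun h => Prod.ext h h1)

/-- The edges between blocks used by the bundles. -/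
def ME2 : Finset (I × Lb × Bn × Fin K) :=
  {x | x.2.2.1 ∈ M.bs (M.sc x.1) x.2.1 ∧ x.2.2.2 ≠ 0 ∧ S.us x.2.1 x.2.2.2 = true ∧
    S.us x.2.1 (S.cp x.2.1 x.2.2.2) = true ∧ S.sl x.2.1 x.2.2.2 ≠ S.sl x.2.1 (S.cp x.2.1 x.2.2.2)}

/-- The ordered pair of blocks of such an edge. -/
def mkey2 (x : I × Lb × Bn × Fin K) : BB × BB :=
  (M.bl (M.sc x.1) x.2.1 x.2.2.1 (S.re x.2.1 x.2.2.2),
    M.bl (M.sc x.1) x.2.1 x.2.2.1 (S.ce x.2.1 x.2.2.2))

theorem shifts2 [NeZero q] :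
    ∃ (δ : I × Lb × Bn × Fin K → Fin q) (sh : I → Lb → Bn → Fin K → Fin q),
    (∀ x ∈ ME2 P M, ∀ y ∈ ME2 P M, mkey2 P M x = mkey2 P M y → δ x = δ y → x = y) ∧
    (∀ i l b, sh i l b 0 = 0) ∧
    ∀ i l b j, S.cp l j < j → sh i l b (S.ce l j) - sh i l b (S.re l j) = δ (i, l, b, j) := by
  obtain ⟨δ, -, h⟩ := fib_inj (β := Fin q) (ME2 P M) (mkey2 P M) (fun _ => univ) (by
    rintro ⟨B, B'⟩
    rw [card_univ, Fintype.card_fin]
    refine le_trans (card_le_card fun x hx => ?_) (M.cnt_pair B B')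
    simpa [ME2, mkey2, and_assoc] using hx)
  choose t t0 t1 using fun i l b => exists_shift
    (fun j => if h : j < K then (S.cp l ⟨j, h⟩ : ℕ) else 0)
    (fun j => if h : j < K then
      (if S.sl l ⟨j, h⟩ then -δ (i, l, b, ⟨j, h⟩) else δ (i, l, b, ⟨j, h⟩)) else 0)
  refine ⟨δ, fun i l b j => t i l b j, h, fun i l b => t0 i l b, fun i l b j hj => ?_⟩
  have := t1 i l b j (by simpa using hj)
  simp only [j.2, dif_pos, Fin.eta] at this
  unfold SD.re SD.ce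
  split_ifs at this ⊢ <;> simp [this]

theorem late2 {H : Type} [DecidableEq H] (F : GF V I K D g) (ψ : V → H) (lam U w : ℕ)
    (hinj : ∀ u v, u ∉ F.La → v ∉ F.La → F.tr u = F.tr v → ψ u = ψ v → u = v)
    (hedge : ∀ u v, u ∉ F.R → v ∉ F.R → u ∉ F.La → F.par u ∉ F.La → v ∉ F.La → F.par v ∉ F.La →
      s(ψ u, ψ (F.par u)) = s(ψ v, ψ (F.par v)) → F.tr u = F.tr v)
    (hlam : ∀ i, #{v ∈ F.La | F.tr v = i} ≤ lam)
    (huse : ∀ y, #{u ∈ F.La | ψ (F.par u) = y} +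
      #{u | u ∉ F.R ∧ F.par u ∈ F.La ∧ ψ u = y} ≤ U)
    (hw : lam + (D + 1) * U < w) (sd : V → Bool) (sh : H → Bool)
    (hs : ∀ v, v ∉ F.La → sh (ψ v) = sd v) :
    ∃ f : V → H ⊕ (Bool × Fin w), (∀ u v, F.tr u = F.tr v → f u = f v → u = v) ∧
      (∀ u v, u ∉ F.R → v ∉ F.R → s(f u, f (F.par u)) = s(f v, f (F.par v)) →
        F.tr u = F.tr v) ∧ ∀ v, (f v).elim sh Prod.fst = sd v := by
  classical
  obtain ⟨N, hN⟩ : ∃ N : V → Finset H, ∀ v, N v =
      insert (ψ (F.par v)) (({u | u ∉ F.R ∧ F.par u = v} : Finset V).image ψ) :=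
    ⟨_, fun _ => rfl⟩
  have n1 : ∀ v, ψ (F.par v) ∈ N v := fun v => by rw [hN]; exact mem_insert_self _ _
  have n2 : ∀ u, u ∉ F.R → ψ u ∈ N (F.par u) := fun u hu => by
    rw [hN]
    exact mem_insert_of_mem (mem_image_of_mem _ (by simpa using hu))
  have n3 : ∀ v ∈ F.La, #(N v) ≤ D + 1 := fun v hv => by
    rw [hN]
    exact (card_insert_le _ _).trans (Nat.succ_le_succ (card_image_le.trans (F.ch_La v hv)))
  have n4 : ∀ y, #{v ∈ F.La | y ∈ N v} ≤ U := fun y => by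
    refine le_trans ?_ (huse y)
    refine le_trans (card_le_card (t := {u ∈ F.La | ψ (F.par u) = y} ∪
      ({u | u ∉ F.R ∧ F.par u ∈ F.La ∧ ψ u = y} : Finset V).image F.par) fun v hv => ?_)
      ((card_union_le _ _).trans (Nat.add_le_add_left card_image_le _))
    obtain ⟨hv1, hv2⟩ := mem_filter.1 hv
    rw [hN] at hv2
    rcases mem_insert.1 hv2 with h | h
    · exact mem_union_left _ (mem_filter.2 ⟨hv1, h.symm⟩)
    · obtain ⟨u, hu, rfl⟩ := mem_image.1 h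
      obtain ⟨hu1, rfl⟩ := (mem_filter.1 hu).2
      exact mem_union_right _ (mem_image.2 ⟨u, by simpa using ⟨hu1, hv1⟩, rfl⟩)
  have : Nonempty (Fin w) := ⟨⟨0, by omega⟩⟩
  obtain ⟨c, -, hc⟩ := greedy_col (fun v v' => F.tr v = F.tr v' ∨ ∃ y ∈ N v, y ∈ N v')
    (fun v v' h => h.imp Eq.symm fun ⟨y, h1, h2⟩ => ⟨y, h2, h1⟩) (univ : Finset (Fin w)) F.La
    (fun v hv => by
      rw [card_univ, Fintype.card_fin]
      refine lt_of_le_of_lt ?_ hw
      refine le_trans (card_le_card (t := {v' ∈ F.La | F.tr v' = F.tr v} ∪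
        (N v).biUnion fun y => {v' ∈ F.La | y ∈ N v'}) fun v' hv' => ?_)
        ((card_union_le _ _).trans (Nat.add_le_add (hlam _) ?_))
      · obtain ⟨h1, h2⟩ := mem_filter.1 hv'
        rcases h2 with h2 | ⟨y, h2, h3⟩
        · exact mem_union_left _ (mem_filter.2 ⟨h1, h2.symm⟩)
        · exact mem_union_right _ (mem_biUnion.2 ⟨y, h2, mem_filter.2 ⟨h1, h3⟩⟩)
      · refine card_biUnion_le.trans ((sum_le_sum fun y _ => n4 y).trans ?_)
        rw [sum_const, smul_eq_mul]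
        exact Nat.mul_le_mul_right _ (n3 v hv))
  have key : ∀ a ∈ F.La, ∀ b ∈ F.La, ∀ y ∈ N a, y ∈ N b → c a = c b → F.tr a = F.tr b :=
    fun a ha b hb y h1 h2 h3 => by rw [hc a ha b hb (Or.inr ⟨y, h1, h2⟩) h3]
  refine ⟨fun v => if v ∈ F.La then Sum.inr (sd v, c v) else Sum.inl (ψ v), fun u v ht h => ?_,
    fun u v hu hv h => ?_, fun v => ?_⟩
  · by_cases h1 : u ∈ F.La <;> by_cases h2 : v ∈ F.La <;>
      simp only [h1, h2, if_true, if_false, Sum.inr.injEq, Sum.inl.injEq, reduceCtorEq,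
        Prod.mk.injEq] at h
    · exact hc u h1 v h2 (Or.inl ht) h.2
    · exact hinj u v h1 h2 ht h
  · by_cases h1 : u ∈ F.La <;> by_cases h2 : v ∈ F.La <;>
      by_cases h3 : F.par u ∈ F.La <;> by_cases h4 : F.par v ∈ F.La <;>
      first
        | exact absurd h3 (F.par_La u h1)
        | exact absurd h4 (F.par_La v h2)
        | simp only [h1, h2, h3, h4, if_true, if_false, Sym2.eq_iff, Sum.inr.injEq, Sum.inl.injEq,
            reduceCtorEq, and_false, false_and, or_false, false_or, and_self, or_self,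
            Prod.mk.injEq] at h
    · exact key u h1 v h2 _ (n1 u) (h.2 ▸ n1 v) h.1.2
    · rw [← F.tr_par v]
      exact key u h1 _ h4 _ (n1 u) (h.2 ▸ n2 v hv) h.1.2
    · rw [← F.tr_par u]
      exact key _ h3 v h2 _ (n2 u hu) (h.1 ▸ n1 v) h.2.2
    · rw [← F.tr_par u, ← F.tr_par v]
      exact key _ h3 _ h4 _ (n2 u hu) (h.1 ▸ n2 v hv) h.2.2
    · exact hedge u v hu hv h1 h3 h2 h4 (Sym2.eq_iff.2 h)
  · by_cases h1 : v ∈ F.La
    · simp only [h1, if_true, Sum.elim_inr]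
    · simp only [h1, if_false, Sum.elim_inl, hs v h1]

end Pool.Agent.Lib.MP_12a5fd_co.BT
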