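import Pool.Agent.Lib.MP_12a5fd_co.BT.Defs
import Pool.Agent.Lib.MP_12a5fd_co.BT.Hub
import Pool.Agent.Lib.MP_2b1ae8_co.AT.Late
import Pool.Agent.Lib.MP_12a5fd_co.BT.MicroB

/-! From the block structure to an edge-disjoint placement that respects the sides. -/

set_option autoImplicit false
set_option linter.unusedSectionVars false

namespace Pool.Agent.Lib.MP_12a5fd_co.BT

open Finset Pool.Agent.Lib.MP_2b1ae8_co.AT

theorem micro2 {V I Lb Kd Bn BB CC Sb Hd : Type} [Fintype V] [DecidableEq V] [Fintype I]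
    [DecidableEq I] [Fintype Lb] [DecidableEq Lb] [Fintype Bn] [DecidableEq Bn] [Fintype BB]
    [DecidableEq BB] [Fintype Sb] [Fintype Hd] {K D g : ℕ} [NeZero K] {F : GF V I K D g}
    {sd : V → Bool} {S : SD Lb K} {Y : KD Lb Kd} {m q q' n0 r1 Mk : ℕ}
    (P : LS1 F sd S) (N : KS P Y) (M : MS2 I Lb Kd Bn BB CC Sb Hd S Y P.nn m q q' n0 r1 Mk)
    [NeZero m] [NeZero q] [Nonempty Bn] (ζ lam e η η' θ Mh w : ℕ)
    (hsd : ∀ v, v ∉ F.R → sd (F.par v) ≠ sd v)
    (hZ : ∀ i, #{v ∈ F.Z | F.tr v = i} ≤ ζ) (hLa : ∀ i, #{v ∈ F.La | F.tr v = i} ≤ lam)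
    (hE : ∀ i, #{v ∈ F.E | F.tr v = i} ≤ e) (hη : 0 < η) (hη' : 0 < η') (hn0 : 0 < n0)
    (hM1 : q' ≤ Mh * η') (hM2 : 2 * ζ ≤ Mh * η') (hM3 : (D + 1) * lam ≤ Mh * η')
    (hroom : n0 + (Mh + 1) ^ (e * (Fintype.card BB + 2)) * (e + Fintype.card Hd * e ^ 4) ≤ m * q)
    (hθ : (g + 1) * n0 * (Fintype.card BB * q' + r1 * (2 * ζ) + r1 * ((D + 1) * lam)) ≤
      θ * η ^ 2)
    (hfree : ζ + 2 * (Fintype.card Hd * (2 * ζ + e * η') + r1 * (2 * ζ) + η + g + 1) + θ + n0 ≤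
      m * q)
    (hq : q' + e * η' + η + g + 1 + Fintype.card Sb ≤ q)
    (hw : lam + (D + 1) * (Fintype.card Hd * ((D + 1) * lam + e * η') + r1 * ((D + 1) * lam) +
      η + g + 1 + 2 * Mk) < w) :
    ∃ f : V → (BB × Fin q) ⊕ (Bool × Fin w), (∀ u v, F.tr u = F.tr v → f u = f v → u = v) ∧
      (∀ u v, u ∉ F.R → v ∉ F.R → s(f u, f (F.par u)) = s(f v, f (F.par v)) →
        F.tr u = F.tr v) ∧
      ∀ v, (f v).elim (fun x => M.sb x.1) Prod.fst = sd v := by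
  classical
  obtain ⟨φ, p1, p2, p3, p4, p5⟩ := place2 P M N ζ lam e η η' θ Mh hsd hZ hLa hE hη hη' hn0 hM1
    hM2 hM3 hroom hθ hfree
  let hk : V → (BB × Fin q) ⊕ V := fun r =>
    if F.par r ∈ F.Z then Sum.inl (φ (F.par r)) else Sum.inr r
  obtain ⟨bn, col, c1, c2⟩ := colour2 P M hk (q' + e * η' + η + g + 1) (by
    rintro (x | r0) B
    · refine (sum_le_sum_of_subset_of_nonneg (fun r hr => ?_)
        fun _ _ _ => rho2_nonneg P M _ _).trans (p4 x B)
      obtain ⟨h1, h2⟩ := mem_filter.1 hr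
      by_cases a : F.par r ∈ F.Z
      · exact mem_filter.2 ⟨h1, a, by simpa [hk, a] using h2⟩
      · simp [hk, a] at h2
    · refine (sum_le_sum_of_subset_of_nonneg (t := {r0}) (fun r hr => ?_)
        fun _ _ _ => rho2_nonneg P M _ _).trans ?_
      · obtain ⟨h1, h2⟩ := mem_filter.1 hr
        by_cases a : F.par r ∈ F.Z
        · simp [hk, a] at h2
        · simpa [hk, a] using h2
      · rw [sum_singleton]
        exact (rho2_le P M _ _).trans (by exact_mod_cast Nat.le_add_left _ _)) hq (by omega)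
  obtain ⟨δ, sh, d1, d2, d3⟩ := shifts2 P M
  let ψ : V → BB × Fin q := fun v => if v ∈ F.Z then φ v else
    (M.bl (M.sc (F.tr v)) (P.lab v) (bn (F.top v)) (P.ix v),
      col (F.top v) + sh (F.tr v) (P.lab v) (bn (F.top v)) (P.ix v))
  have ψ1 : ∀ v ∈ F.Z, ψ v = φ v := fun v hv => if_pos hv
  have ψ2 : ∀ v, v ∉ F.Z → ψ v = (M.bl (M.sc (F.tr v)) (P.lab v) (bn (F.top v)) (P.ix v),
      col (F.top v) + sh (F.tr v) (P.lab v) (bn (F.top v)) (P.ix v)) := fun v hv => if_neg hv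
  have hb : ∀ v, v ∉ F.Z → v ∉ F.La → bn (F.top v) ∈ M.bs (M.sc (F.tr v)) (P.lab v) := by
    intro v h1 h2
    obtain ⟨a1, a2, a3, -⟩ := P.top_mem v h1 h2
    simpa only [a2, a3] using c1 _ a1
  have hu : ∀ v, v ∉ F.Z → v ∉ F.La → S.us (P.lab v) (P.ix v) = true :=
    fun v h1 h2 => (P.top_mem v h1 h2).2.2.2
  have hside : ∀ v, v ∉ F.La → M.sb (ψ v).1 = sd v := by
    intro v h
    by_cases a : v ∈ F.Z
    · obtain ⟨j, hj⟩ := p1 v
      rw [ψ1 v a, hj, M.cb_side, N.kn_side v a]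
    · rw [ψ2 v a, M.bl_side _ _ _ _ (hb v a h) (hu v a h), P.side v a h]
  have hinj : ∀ u v, u ∉ F.La → v ∉ F.La → F.tr u = F.tr v → ψ u = ψ v → u = v := by
    have mixed : ∀ u v, u ∈ F.Z → v ∉ F.Z → v ∉ F.La → F.tr u = F.tr v → ψ u ≠ ψ v := by
      intro u v h1 h2 h3 ht h
      obtain ⟨j, hj⟩ := p1 u
      rw [ψ1 u h1, ψ2 v h2] at h
      rw [h, ht] at hj
      exact M.bl_ne _ _ _ _ _ _ (hb v h2 h3) (hu v h2 h3) hj
    intro u v h1 h2 ht h
    by_cases a : u ∈ F.Z <;> by_cases b : v ∈ F.Z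
    · exact p2 u a v b ht (by rwa [ψ1 u a, ψ1 v b] at h)
    · exact absurd h (mixed u v a b h2 ht)
    · exact absurd h.symm (mixed v u b a h1 ht.symm)
    · rw [ψ2 u a, ψ2 v b, ht, Prod.mk.injEq] at h
      obtain ⟨e1, e2, e3⟩ := M.bl_inj _ _ _ _ _ _ _ (ht ▸ hb u a h1) (hu u a h1) (hb v b h2)
        (hu v b h2) h.1
      obtain ⟨a1, a2, a3, -⟩ := P.top_mem u a h1
      obtain ⟨b1, b2, b3, -⟩ := P.top_mem v b h2
      have e4 := h.2
      rw [e1, e2, e3, add_left_inj] at e4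
      exact P.ix_inj u v a h1 b h2 (c2 _ a1 _ b1 (by rw [a2, a3, b2, b3, ht, e1, e2]) e4
        (Or.inl (by rw [a2, b2, ht]))) e3
  have cls : ∀ u, u ∉ F.R → u ∉ F.La → F.par u ∉ F.La → ∃ x y, s(ψ u, ψ (F.par u)) = s(x, y) ∧
      M.sb x.1 = true ∧ M.sb y.1 = false ∧
      ((u ∈ F.Z ∧ F.par u ∈ F.Z ∧ M.pu x.1 y.1 = none) ∨
       (u ∈ P.Tp ∧ ∃ h, M.pu x.1 y.1 = some (some h) ∧
          hk u = Sum.inl (if M.hs h = true then x else y) ∧
          (M.bl (M.sc (F.tr u)) (P.lab u) (bn u) 0, col u) = if M.hs h = true then y else x) ∨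
       (∃ z ∈ ME2 P M, z.1 = F.tr u ∧ mkey2 P M z = (x.1, y.1) ∧ δ z = y.2 - x.2 ∧
          M.pu x.1 y.1 = some none)) := by
    intro u h1 h2 h3
    have s1 := hside u h2
    have s2 := hside _ h3
    have s3 := hsd u h1
    by_cases a : u ∈ F.Z
    · have b := (F.par_Z u a h1).resolve_right h3
      obtain ⟨j, hj⟩ := p1 u
      obtain ⟨j', hj'⟩ := p1 (F.par u)
      rw [F.tr_par] at hj'
      have k1 := N.kn_side u a
      have k2 := N.kn_side _ b
      cases hs : sd u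
      · have hs' : sd (F.par u) = true := by simpa [hs] using s3
        refine ⟨_, _, Sym2.eq_swap, s2.trans hs', s1.trans hs, Or.inl ⟨a, b, ?_⟩⟩
        rw [ψ1 u a, ψ1 _ b, hj, hj']
        exact M.pu_core _ _ _ _ _ (k2.trans hs') (k1.trans hs)
      · have hs' : sd (F.par u) = false := by simpa [hs] using s3
        refine ⟨_, _, rfl, s1.trans hs, s2.trans hs', Or.inl ⟨a, b, ?_⟩⟩
        rw [ψ1 u a, ψ1 _ b, hj, hj']
        exact M.pu_core _ _ _ _ _ (k1.trans hs) (k2.trans hs')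
    by_cases b : F.par u ∈ F.Z
    · have t := (P.mem_Tp u).2 ⟨a, h2, Or.inl b⟩
      obtain ⟨t1, t2⟩ := P.top_self u t
      obtain ⟨j, hj⟩ := p1 (F.par u)
      rw [F.tr_par] at hj
      have k := M.pu_root _ _ _ _ j (c1 u t) (P.us0 t) (N.hub_some u t b)
      have k1 := M.hs_hid (F.tr u) (N.kn (F.par u))
      have k2 := N.kn_side _ b
      have e0 : ψ u = (M.bl (M.sc (F.tr u)) (P.lab u) (bn u) 0, col u) := by
        rw [ψ2 u a, t1, t2, d2, add_zero]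
      have e1 : hk u = Sum.inl (ψ (F.par u)) := by simp only [hk, b, if_true, ψ1 _ b]
      rw [k2] at k k1
      rw [← hj, ← ψ1 _ b] at k
      cases hs : sd u
      · have hs' : sd (F.par u) = true := by simpa [hs] using s3
        rw [hs'] at k k1
        refine ⟨_, _, Sym2.eq_swap, s2.trans hs', s1.trans hs, Or.inr (Or.inl
          ⟨t, M.hid (M.sc (F.tr u)) (N.kn (F.par u)), ?_, ?_, ?_⟩)⟩
        · rw [e0]
          exact (if_pos rfl).symm.trans k
        · rw [if_pos k1, e1]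
        · rw [if_pos k1, e0]
      · have hs' : sd (F.par u) = false := by simpa [hs] using s3
        rw [hs'] at k k1
        refine ⟨_, _, rfl, s1.trans hs, s2.trans hs', Or.inr (Or.inl
          ⟨t, M.hid (M.sc (F.tr u)) (N.kn (F.par u)), ?_, ?_, ?_⟩)⟩
        · rw [e0]
          exact (if_neg Bool.false_ne_true).symm.trans k
        · rw [if_neg (by simp [k1]), e1]
        · rw [if_neg (by simp [k1]), e0]
    · have t : u ∉ P.Tp := fun h => by have := ((P.mem_Tp u).1 h).2.2; tauto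
      obtain ⟨i1, i2, i3⟩ := P.inner u a h2 t
      have i5 : P.lab (F.par u) = P.lab u := by
        rw [← (P.top_mem _ b h3).2.2.1, i1, (P.top_mem u a h2).2.2.1]
      have i6 := hu _ b h3
      have i7 := P.side _ b h3
      have i8 := P.side u a h2
      rw [i5, ← i2] at i6 i7
      rw [← i2] at i3
      have i4 : S.sl (P.lab u) (P.ix u) ≠ S.sl (P.lab u) (S.cp (P.lab u) (P.ix u)) := by
        rw [i7, i8]
        exact s3.symm
      have o : S.us (P.lab u) (S.re (P.lab u) (P.ix u)) = true ∧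
          S.us (P.lab u) (S.ce (P.lab u) (P.ix u)) = true ∧
          S.sl (P.lab u) (S.re (P.lab u) (P.ix u)) = true ∧
          S.sl (P.lab u) (S.ce (P.lab u) (P.ix u)) = false := by
        have i9 := hu u a h2
        unfold SD.re SD.ce
        split_ifs with h
        · exact ⟨i9, i6, h, by simpa [h] using i4⟩
        · exact ⟨i6, i9, by simpa [h] using i4, by simpa using h⟩
      obtain ⟨o1, o2, o3, o4⟩ := o
      refine ⟨(M.bl (M.sc (F.tr u)) (P.lab u) (bn (F.top u)) (S.re (P.lab u) (P.ix u)),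
          col (F.top u) + sh (F.tr u) (P.lab u) (bn (F.top u)) (S.re (P.lab u) (P.ix u))),
        (M.bl (M.sc (F.tr u)) (P.lab u) (bn (F.top u)) (S.ce (P.lab u) (P.ix u)),
          col (F.top u) + sh (F.tr u) (P.lab u) (bn (F.top u)) (S.ce (P.lab u) (P.ix u))), ?_,
        (M.bl_side _ _ _ _ (hb u a h2) o1).trans o3, (M.bl_side _ _ _ _ (hb u a h2) o2).trans o4,
        Or.inr (Or.inr ⟨(F.tr u, P.lab u, bn (F.top u), P.ix u), ?_, rfl, rfl, ?_,
          M.pu_in _ _ _ _ _ (hb u a h2) o1 o2 o3 o4⟩)⟩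
      · rw [ψ2 u a, ψ2 _ b, F.tr_par, i5, i1, ← i2]
        unfold SD.re SD.ce
        split_ifs
        · rfl
        · exact Sym2.eq_swap
      · simp only [ME2, mem_filter, mem_univ, true_and]
        exact ⟨hb u a h2, (lt_of_le_of_lt (Fin.zero_le _) i3).ne', hu u a h2, i6, i4⟩
      · rw [← d3 _ _ _ _ i3, add_sub_add_left_eq_sub]
  have mark : ∀ (y : BB × Fin q) (s : Finset V) (f : V → V), Set.InjOn f s →
      (∀ u ∈ s, f u ∉ F.Z ∧ f u ∉ F.La ∧ (F.par (f u) ∈ F.La ∨ ∃ u' ∈ F.La, F.par u' = f u) ∧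
        ψ (f u) = y) → #s ≤ Mk := by
    intro y s f hf hs
    refine le_trans (card_le_card_of_injOn
      (fun u => (F.tr (f u), P.lab (f u), bn (F.top (f u)), P.ix (f u))) (fun u h => ?_)
      (fun u h v h' e => ?_)) (M.cnt_ma y.1)
    · obtain ⟨a, b, c, d⟩ := hs u h
      simp only [coe_filter, mem_univ, true_and, Set.mem_ofPred_eq]
      exact ⟨hb _ a b, hu _ a b, P.mark _ a b c, by rw [← d, ψ2 _ a]⟩
    · exact hf h h' (hinj _ _ (hs u h).2.1 (hs v h').2.1 (Prod.mk.inj e).1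
        ((hs u h).2.2.2.trans (hs v h').2.2.2.symm))
  refine late2 F ψ lam _ w hinj (fun u v h1 h2 h3 h4 h5 h6 h => ?_) hLa (fun y => ?_) hw sd
    (fun x => M.sb x.1) hside
  · obtain ⟨x, y, e1, sx, sy, k1⟩ := cls u h1 h3 h4
    obtain ⟨x', y', e2, sx', sy', k2⟩ := cls v h2 h5 h6
    obtain ⟨rfl, rfl⟩ : x = x' ∧ y = y' := by
      refine (Sym2.eq_iff.1 (e1.symm.trans (h.trans e2))).resolve_right ?_
      rintro ⟨rfl, rfl⟩
      exact absurd (sx.symm.trans sy') (by simp)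
    rcases k1 with ⟨a1, a2, a3⟩ | ⟨a1, ha, a3, a4, a5⟩ | ⟨z, a1, a2, a4, a5, a3⟩ <;>
      rcases k2 with ⟨b1, b2, b3⟩ | ⟨b1, hb', b3, b4, b5⟩ | ⟨z', b1, b2, b4, b5, b3⟩
    · exact p3 u a1 v b1 h1 h2 a2 b2 (by rwa [ψ1 _ a1, ψ1 _ a2, ψ1 _ b1, ψ1 _ b2] at h)
    any_goals (have h0 := a3.symm.trans b3; simp at h0; done)
    · obtain rfl : ha = hb' := Option.some.inj (Option.some.inj (a3.symm.trans b3))
      obtain ⟨e4, e5⟩ := Prod.mk.inj (a5.trans b5.symm)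
      rw [c2 u a1 v b1 e4 e5 (Or.inr (a4.trans b4.symm))]
    · rw [← a2, ← b2, d1 z a1 z' b1 (a4.trans b4.symm) (a5.trans b5.symm)]
  · have e1 := mark y {u ∈ F.La | F.par u ∉ F.Z ∧ ψ (F.par u) = y} F.par
      (fun u h v h' e => F.one_La u (mem_filter.1 h).1 v (mem_filter.1 h').1 e (mem_filter.1 h).2.1)
      (fun u h => ⟨(mem_filter.1 h).2.1, F.par_La u (mem_filter.1 h).1,
        Or.inr ⟨u, (mem_filter.1 h).1, rfl⟩, (mem_filter.1 h).2.2⟩)
    have e2 := mark y {u | u ∉ F.Z ∧ F.par u ∈ F.La ∧ ψ u = y} id (Set.injOn_id _)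
      (fun u h => ⟨(mem_filter.1 h).2.1, fun h' => F.par_La u h' (mem_filter.1 h).2.2.1,
        Or.inl (mem_filter.1 h).2.2.1, (mem_filter.1 h).2.2.2⟩)
    have e3 := p5 y
    have e4 : #{u ∈ F.La | ψ (F.par u) = y} ≤ #{u ∈ F.La | F.par u ∈ F.Z ∧ φ (F.par u) = y} +
        #{u ∈ F.La | F.par u ∉ F.Z ∧ ψ (F.par u) = y} := by
      refine le_trans (card_le_card fun u h => ?_) (card_union_le _ _)
      by_cases a : F.par u ∈ F.Z
      · simpa [a, ψ1 _ a] using h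
      · simpa [a] using h
    have e5 : #{u | u ∉ F.R ∧ F.par u ∈ F.La ∧ ψ u = y} ≤
        #{u ∈ F.Z | u ∉ F.R ∧ F.par u ∈ F.La ∧ φ u = y} +
        #{u | u ∉ F.Z ∧ F.par u ∈ F.La ∧ ψ u = y} := by
      refine le_trans (card_le_card fun u h => ?_) (card_union_le _ _)
      by_cases a : u ∈ F.Z
      · simpa [a, ψ1 _ a] using h
      · simpa [a, F.nR a] using h
    omega

end Pool.Agent.Lib.MP_12a5fd_co.BT
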