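import Pool.Agent.Lib.MP_12a5fd_co.BT.Defs

/-! Choice of the parameters. -/

set_option autoImplicit false
set_option linter.unusedSectionVars false

namespace Pool.Agent.Lib.MP_12a5fd_co.BT

open Finset Pool.Agent.Lib.MP_2b1ae8_co.AT

theorem par2_main {s m m0 L B k A t : ℕ} (hs : 8 ≤ s) (hm : m = L + m0) (hL : (s + 8) * L ≤ m0)
    (hA : A * t = B * m0 * ((s + 6) * s * (s + 7) ^ 2)) (ht : A * t ≤ k + A)
    (hk : (s + 8) * A ≤ k) :
    (s + 8) * (B * m * (s + 8) ^ 3 * (s + 9)) ≤ (s + 48) * k := by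
  have h1 : (s + 8) * m ≤ (s + 9) * m0 := by rw [hm]; nlinarith
  have h2 : (s + 8) * (A * t) ≤ (s + 9) * k := by nlinarith
  have h3 : (s + 9) ^ 3 * (s + 8) ^ 2 ≤ (s + 6) * s * (s + 7) ^ 2 * (s + 48) := by
    obtain ⟨a, rfl⟩ := Nat.exists_eq_add_of_le hs
    have : ((8 + a) + 6) * (8 + a) * ((8 + a) + 7) ^ 2 * ((8 + a) + 48) =
      ((8 + a) + 9) ^ 3 * ((8 + a) + 8) ^ 2 +
      (25 * a ^ 4 + 1154 * a ^ 3 + 18429 * a ^ 2 + 111392 * a + 153472) := by ring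
    omega
  obtain ⟨P, hP⟩ : ∃ P, P = (s + 6) * s * (s + 7) ^ 2 := ⟨_, rfl⟩
  have P0 : 0 < P := by
    have : 0 < s := by omega
    rw [hP]
    positivity
  rw [← hP] at hA h3
  refine Nat.le_of_mul_le_mul_left (c := (s + 8) * P) ?_ (by positivity)
  calc (s + 8) * P * ((s + 8) * (B * m * (s + 8) ^ 3 * (s + 9)))
      = B * P * (s + 8) ^ 4 * (s + 9) * ((s + 8) * m) := by ring
    _ ≤ B * P * (s + 8) ^ 4 * (s + 9) * ((s + 9) * m0) := Nat.mul_le_mul_left _ h1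
    _ = (s + 9) ^ 2 * (s + 8) ^ 3 * ((s + 8) * (A * t)) := by rw [hA]; ring
    _ ≤ (s + 9) ^ 2 * (s + 8) ^ 3 * ((s + 9) * k) := Nat.mul_le_mul_left _ h2
    _ = (s + 9) ^ 3 * (s + 8) ^ 2 * ((s + 8) * k) := by ring
    _ ≤ P * (s + 48) * ((s + 8) * k) := Nat.mul_le_mul_right _ h3
    _ = _ := by ring

theorem par2_w {Q L D K lam y c v X m0 k A r : ℕ} (hL : 1 ≤ L)
    (hK : K = 4 * Q * (D + 1) ^ 2 * (21 * L + r)) (hlam : K * lam ≤ 2 * k + K)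
    (hy : 9 * (L * y) ≤ c * v) (h1 : 6 * L * (D + 1) * Q * Q * X ≤ m0)
    (h2 : Q * (D + 1) ≤ m0) (h3 : m0 * (4 * (c * v)) ≤ k + A) (hk : K + A + Q ≤ k) :
    Q * (lam + (D + 1) * (8 * L * ((D + 1) * lam + y) + r * ((D + 1) * lam) + c * v + y +
      2 * (3 * L * (2 * ((D + 1) * lam) + Q * (4 * (c * v)) * X))) + 1) ≤ 8 * k := by
  obtain ⟨x, hx⟩ : ∃ x, x = (D + 1) ^ 2 := ⟨_, rfl⟩
  have hx1 : 1 ≤ x := hx ▸ Nat.one_le_pow _ _ (by omega)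
  have a1 : 1 * 1 ≤ L * x := Nat.mul_le_mul hL hx1
  have a2 : (1 + 20 * (L * x) + r * x) * (Q * lam) ≤ (84 * (L * x) + 4 * (r * x)) * (Q * lam) :=
    Nat.mul_le_mul_right _ (by omega)
  have a3 : (84 * (L * x) + 4 * (r * x)) * (Q * lam) = K * lam := by rw [hK, hx]; ring
  have a0 : 1 * y ≤ L * y := Nat.mul_le_mul_right _ hL
  have a4 : Q * (D + 1) * (8 * (L * y) + c * v + y) ≤ m0 * (4 * (c * v)) :=
    Nat.mul_le_mul h2 (by omega)
  have a5 : 6 * L * (D + 1) * Q * Q * X * (4 * (c * v)) ≤ m0 * (4 * (c * v)) :=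
    Nat.mul_le_mul_right _ h1
  have a6 : Q * (lam + (D + 1) * (8 * L * ((D + 1) * lam + y) + r * ((D + 1) * lam) + c * v + y +
      2 * (3 * L * (2 * ((D + 1) * lam) + Q * (4 * (c * v)) * X))) + 1)
      = (1 + 20 * (L * x) + r * x) * (Q * lam) + Q * (D + 1) * (8 * (L * y) + c * v + y)
        + 6 * L * (D + 1) * Q * Q * X * (4 * (c * v)) + Q := by rw [hx]; ring
  omega

theorem par2_hk {a T cap k wd : ℕ} (hT : 4 ≤ T) (hc : 1 ≤ cap) (hk : k ≤ 2 * a * T * cap)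
    (hwd : (a + 2) * wd ≤ k + cap + (a + 2)) :
    k + wd + 2 + cap * T ≤ cap * (2 * ((a + 2) * T)) := by
  refine Nat.le_of_mul_le_mul_left (c := a + 2) ?_ (by omega)
  have h1 : (a + 3) * k ≤ (a + 3) * (2 * a * T * cap) := Nat.mul_le_mul_left _ hk
  have h2 : (a + 2) * cap * 4 ≤ (a + 2) * cap * T := Nat.mul_le_mul_left _ hT
  have h3 : (a + 2) * 1 ≤ (a + 2) * cap := Nat.mul_le_mul_left _ hc
  have h4 : 1 * cap ≤ (a + 2) * cap := Nat.mul_le_mul_right _ (by omega)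
  have h5 : (a + 2) * (cap * (2 * ((a + 2) * T))) =
      (a + 3) * (2 * a * T * cap) + 2 * ((a + 2) * cap * T) + 4 * (T * cap) := by ring
  have h6 : (a + 2) * (k + wd + 2 + cap * T) + k =
      (a + 3) * k + (a + 2) * wd + 2 * (a + 2) + (a + 2) * cap * T := by ring
  omega

theorem par2_theta {y n0 S Q m v Nb c : ℕ} (hc : 1 ≤ c) (hn : n0 ≤ Q * m * (4 * (c * v)))
    (hS : S ≤ 3 * (Nb * Q * (4 * (c * v)))) (hv : v = 12 * Q * Q * Nb * y) :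
    y * n0 * S ≤ m * (4 * (c * v)) * (c * v) ^ 2 := by
  calc y * n0 * S ≤ y * (Q * m * (4 * (c * v))) * (3 * (Nb * Q * (4 * (c * v)))) :=
        Nat.mul_le_mul (Nat.mul_le_mul_left _ hn) hS
    _ = m * (4 * (c * v)) * (c * v) * (1 * (12 * Q * Q * Nb * y)) := by ring
    _ ≤ m * (4 * (c * v)) * (c * v) * (c * (12 * Q * Q * Nb * y)) :=
        Nat.mul_le_mul_left _ (Nat.mul_le_mul_right _ hc)
    _ = _ := by rw [← hv]; ring

theorem par2_nat (s : ℕ) (hs : 8 ≤ s) (lbN : ℕ → ℕ) (JN : ℕ → ℕ → ℕ → ℕ → ℕ) :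
    ∃ C k0 : ℕ, 0 < C ∧ ∀ k, k0 ≤ k →
      ∃ K D g Q Lr m q q' ζ lam e η η' θ Mh n0 r1 Mk w wd : ℕ,
        Num2 k K D g Q Lr m q q' ζ lam e η η' θ Mh n0 r1 Mk w wd (lbN K) (JN K Q Lr m) ∧
        2 * Lr * e * Q ≤ C ∧
        (s + 8) * (2 * (Lr * (Q ^ 4) ^ (3 * Lr) * m * q + w)) ≤ (s + 64) * k := by
  obtain ⟨Q, hQ⟩ : ∃ Q, Q = s + 8 := ⟨_, rfl⟩
  obtain ⟨T, hT⟩ : ∃ T, T = 2 * ((Q + 1) ^ 5 * Q) ^ 2 + 8 := ⟨_, rfl⟩
  obtain ⟨L, hL⟩ : ∃ L, L = Q * T := ⟨_, rfl⟩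
  have Q1 : 1 ≤ Q := by omega
  have s0 : 0 < s := by omega
  have T8 : 8 ≤ T := by omega
  have L1 : 1 ≤ L := by rw [hL]; exact Nat.mul_pos Q1 (by omega)
  obtain ⟨H, hH⟩ : ∃ H, H = (Q ^ 4) ^ (3 * L - 2) := ⟨_, rfl⟩
  obtain ⟨G, hG⟩ : ∃ G, G = (Q ^ 4) ^ (3 * L) := ⟨_, rfl⟩
  have H1 : 1 ≤ H := hH ▸ Nat.one_le_pow _ _ (by positivity)
  have G1 : 1 ≤ G := hG ▸ Nat.one_le_pow _ _ (by positivity)
  have GH : G = H * (Q ^ 4) ^ 2 := by
    rw [hG, hH, ← pow_add, Nat.sub_add_cancel (by omega)]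
  obtain ⟨r, hr⟩ : ∃ r, r = 4 * L * Q ^ 3 := ⟨_, rfl⟩
  have r1 : 1 ≤ r := by rw [hr]; exact Nat.succ_le_of_lt (by positivity)
  obtain ⟨c, hc⟩ : ∃ c, c = 1 + 32 * L + 4 * r := ⟨_, rfl⟩
  have c1 : 1 ≤ c := by omega
  obtain ⟨D, hD⟩ : ∃ D, D = 16 * L * G * Q * c := ⟨_, rfl⟩
  obtain ⟨K, hK⟩ : ∃ K, K = 4 * Q * (D + 1) ^ 2 * (21 * L + r) := ⟨_, rfl⟩
  have D1 : 0 < D := by rw [hD]; positivity
  have KD : 4 * (r * (D + 1)) ≤ K := by
    have a1 : 1 * (D + 1) ≤ (Q * (D + 1)) * (D + 1) :=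
      Nat.mul_le_mul_right _ (Nat.mul_pos (by omega) (by omega))
    have a2 : r * (1 * (D + 1)) ≤ (21 * L + r) * ((Q * (D + 1)) * (D + 1)) :=
      Nat.mul_le_mul (by omega) a1
    have a3 : K = 4 * ((21 * L + r) * ((Q * (D + 1)) * (D + 1))) := by rw [hK]; ring
    rw [one_mul] at a2
    omega
  have rD : D + 1 ≤ r * (D + 1) := Nat.le_mul_of_pos_left _ r1
  obtain ⟨lb, hlb⟩ : ∃ lb, lb = lbN K := ⟨_, rfl⟩
  obtain ⟨X, hX⟩ : ∃ X, X = 18 * L ^ 2 * Q ^ 9 * (K * lb) := ⟨_, rfl⟩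
  obtain ⟨m0, hm0⟩ : ∃ m0, m0 = Q * (3 * L) + 4 * Q ^ 2 * K * lb + 6 * L * (D + 1) * Q * Q * X +
    Q * (D + 1) := ⟨_, rfl⟩
  obtain ⟨m, hm⟩ : ∃ m, m = 3 * L + m0 := ⟨_, rfl⟩
  have m01 : 1 ≤ m0 := by
    have : 0 < Q * (D + 1) := by positivity
    omega
  have hml : m - 3 * L = m0 := by omega
  obtain ⟨J, hJ⟩ : ∃ J, J = JN K Q L m := ⟨_, rfl⟩
  obtain ⟨Nb, hNb⟩ : ∃ Nb, Nb = 3 * L * G * m := ⟨_, rfl⟩
  have mNb : m ≤ Nb := by
    rw [hNb]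
    exact Nat.le_mul_of_pos_left _ (by positivity)
  have Nb1 : 1 ≤ Nb := by omega
  obtain ⟨d, hd⟩ : ∃ d, d = 12 * Q * Q * Nb := ⟨_, rfl⟩
  have dNb : Nb ≤ d := by
    rw [hd]
    exact Nat.le_mul_of_pos_left _ (by positivity)
  obtain ⟨e, he⟩ : ∃ e, e = 16 * (Nb * Q * c * d) + 1 := ⟨_, rfl⟩
  have e1 : 1 ≤ e := by omega
  obtain ⟨A, hA⟩ : ∃ A, A = 2 * T * H * (4 * (c * (d * e))) * Q ^ 6 * m0 *
    ((s + 6) * s * (s + 7) ^ 2) := ⟨_, rfl⟩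
  have A1 : 0 < A := by
    have : 0 < d := by omega
    have : 0 < T := by omega
    rw [hA]
    positivity
  obtain ⟨Mh, hMh⟩ : ∃ Mh, Mh = Nb * Q * (4 * (c * (d * e))) := ⟨_, rfl⟩
  obtain ⟨C, hC⟩ : ∃ C, C = (Mh + 1) ^ (e * (Nb + 2)) * (e + 8 * L * e ^ 4) := ⟨_, rfl⟩
  refine ⟨2 * L * e * Q, (J + C + K) * A + Q * A + (K + A + Q), by positivity, fun k hk => ?_⟩
  obtain ⟨t, ht⟩ : ∃ t, t = k / A + 1 := ⟨_, rfl⟩
  have t1 : J + C + K + 1 ≤ t := by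
    have := (Nat.le_div_iff_mul_le A1).2 (show (J + C + K) * A ≤ k by omega)
    omega
  have t2 : k ≤ A * t := by
    rw [ht]
    exact (Nat.lt_mul_div_succ k A1).le
  have t3 : A * t ≤ k + A := by
    have := Nat.mul_div_le k A
    rw [ht, mul_add, mul_one]
    omega
  obtain ⟨y, hy⟩ : ∃ y, y = e * t := ⟨_, rfl⟩
  obtain ⟨v, hv⟩ : ∃ v, v = d * y := ⟨_, rfl⟩
  have ty : t ≤ y := hy ▸ Nat.le_mul_of_pos_left _ e1
  have yv : y ≤ v := hv ▸ Nat.le_mul_of_pos_left _ (by omega)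
  have vc : v ≤ c * v := Nat.le_mul_of_pos_left _ c1
  have Ly : 32 * (L * y) ≤ c * v := by
    rw [← mul_assoc]
    exact Nat.mul_le_mul (by omega) yv
  obtain ⟨g, hg⟩ : ∃ g, y = g + 1 := ⟨y - 1, by omega⟩
  obtain ⟨u, hu⟩ : ∃ u, u = 4 * (c * v) := ⟨_, rfl⟩
  have u1 : 1 ≤ u := by omega
  have At : A * t = 2 * T * H * u * Q ^ 6 * m0 * ((s + 6) * s * (s + 7) ^ 2) := by
    rw [hA, hu, hv, hy]; ring
  obtain ⟨cap, hcap⟩ : ∃ cap, cap = s * (Q ^ 5 * (s + 7) ^ 2 * (Q * u) * (H * m0)) := ⟨_, rfl⟩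
  have cap0 : capN Q L m (Q * u) = cap := by
    rw [capN, mP, ← hH, hml, hcap, show Q - 8 = s by omega, show Q - 1 = s + 7 by omega]
  have cap1 : 1 ≤ cap := by rw [hcap]; exact Nat.succ_le_of_lt (by positivity)
  have cap2 : cap ≤ G * (s * m0 * u) := by
    have a1 : (s + 7) ^ 2 ≤ Q ^ 2 := Nat.pow_le_pow_left (by omega) 2
    calc cap = (s + 7) ^ 2 * (Q ^ 6 * H * (s * m0 * u)) := by rw [hcap]; ring
      _ ≤ Q ^ 2 * (Q ^ 6 * H * (s * m0 * u)) := Nat.mul_le_mul_right _ a1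
      _ = _ := by rw [GH]; ring
  have At2 : A * t = 2 * (s + 6) * T * cap := by rw [At, hcap]; ring
  have kb0 : k ≤ 2 * (L * (G * (s * m0 * u))) := by
    calc k ≤ A * t := t2
      _ = 2 * ((s + 6) * T * cap) := by rw [At2]; ring
      _ ≤ _ := Nat.mul_le_mul_left _ (Nat.mul_le_mul
        (hL ▸ Nat.mul_le_mul_right _ (by omega)) cap2)
  have n0 : u ≤ s * m0 * u := Nat.le_mul_of_pos_left _ (by positivity)
  have n1 : s * m0 * u ≤ s * m * u :=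
    Nat.mul_le_mul_right _ (Nat.mul_le_mul_left _ (by omega))
  have n2 : m * ((Q + 1) * u) = s * m * u + 9 * (m * u) := by rw [hQ]; ring
  have n3 : Q * m * u = s * m * u + 8 * (m * u) := by rw [hQ]; ring
  have um : u ≤ m * u := Nat.le_mul_of_pos_left _ (by omega)
  have n5 : s * m0 * u ≤ L * (G * (s * m0 * u)) :=
    (Nat.le_mul_of_pos_left _ G1).trans (Nat.le_mul_of_pos_left _ L1)
  have n6 : L * (G * (s * m0 * u)) ≤ L * (G * (Q * m * u)) :=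
    Nat.mul_le_mul_left _ (Nat.mul_le_mul_left _ (by omega))
  have n7 : Nb * Q * u = 3 * (L * (G * (Q * m * u))) := by rw [hNb]; ring
  have kb : k ≤ Nb * Q * u := by omega
  have mv : m * u ≤ Nb * Q * u :=
    Nat.mul_le_mul_right _ (mNb.trans (Nat.le_mul_of_pos_right _ Q1))
  have Qv : Q * u ≤ Nb * Q * u := by
    rw [mul_assoc]
    exact Nat.le_mul_of_pos_left _ Nb1
  have mu : m * u = 4 * (c * (m * v)) := by rw [hu]; ring
  have cm : c * (m * v) = m * v + 32 * (L * (m * v)) + 4 * (r * (m * v)) := by rw [hc]; ring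
  have vm : v ≤ m * v := Nat.le_mul_of_pos_left _ (by omega)
  obtain ⟨lam, hlam⟩ : ∃ lam, lam = 2 * k / K + 1 := ⟨_, rfl⟩
  have l1 : 2 * k ≤ K * lam := by
    rw [hlam]
    exact (Nat.lt_mul_div_succ _ (by omega)).le
  have l2 : K * lam ≤ 2 * k + K := by
    have := Nat.mul_div_le (2 * k) K
    rw [hlam, mul_add, mul_one]
    omega
  have l3 : r * ((D + 1) * lam) ≤ Nb * Q * u := by
    have a1 : 4 * (r * (D + 1)) * lam ≤ K * lam := Nat.mul_le_mul_right _ KD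
    rw [mul_assoc, mul_assoc] at a1
    omega
  have l4 : (D + 1) * lam ≤ r * ((D + 1) * lam) := Nat.le_mul_of_pos_left _ r1
  have Mt : Mh * t = Nb * Q * u := by rw [hMh, hu, hv, hy]; ring
  have n4 : m0 * u ≤ A * t := by
    have : 0 < T := by omega
    rw [At, show 2 * T * H * u * Q ^ 6 * m0 * ((s + 6) * s * (s + 7) ^ 2) =
      (2 * T * H * Q ^ 6 * ((s + 6) * s * (s + 7) ^ 2)) * (m0 * u) by ring]
    exact Nat.le_mul_of_pos_left _ (by positivity)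
  refine ⟨K, D, g, Q, L, m, (Q + 1) * u, Q * u, 2 * (m * v), lam, e, c * v, t,
    m * u, Mh, s * m0 * u + J, r, 3 * L * (2 * ((D + 1) * lam) + Q * u * X),
    lam + (D + 1) * (8 * L * ((D + 1) * lam + y) + r * ((D + 1) * lam) + c * v + y +
      2 * (3 * L * (2 * ((D + 1) * lam) + Q * u * X))) + 1, (k + cap) / Q + 1, ?_, le_rfl, ?_⟩
  · rw [← hlb, ← hJ]
    refine ⟨by omega, D1, by omega, by omega, L1, by omega, Nat.mul_pos Q1 u1, by omega,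
      by omega, by omega, ?_, l1, ?_, ?_, ?_, ?_, ?_, ?_, ?_, ?_, ?_, ?_, ?_, ?_, ?_, ?_, ?_, ?_⟩
    · have a1 : (2 * D + K) * k ≤ (2 * K) * k := Nat.mul_le_mul_right _ (by omega)
      have a2 : D * (m * v) = 4 * (L * (G * (Q * m * u))) := by rw [hD, hu]; ring
      have a3 : K * (2 * k) ≤ K * (D * (m * v)) := Nat.mul_le_mul_left _ (by omega)
      have a4 : K * D * 1 ≤ K * D * (m * v) := Nat.mul_le_mul_left _ (by omega)
      have a5 : K * D * (2 * (m * v)) = K * (D * (m * v)) + K * D * (m * v) := by ring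
      have a6 : 2 * K * k = K * (2 * k) := by ring
      omega
    · have a1 : Nb * Q * u = 4 * (Nb * Q * c * d * (g + 1)) := by rw [hu, hv, hg]; ring
      have a2 : Nb * Q * c * d * (g + 1) ≤ Nb * Q * c * d * (2 * g) :=
        Nat.mul_le_mul_left _ (by omega)
      have a3 : g * e = 8 * (Nb * Q * c * d * (2 * g)) + g := by rw [he]; ring
      omega
    · rw [cap0]
      exact Nat.lt_mul_div_succ _ Q1
    · rw [cap0, ← hT, hL, show Q = s + 6 + 2 by omega]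
      refine par2_hk (by omega) cap1 (At2 ▸ t2) ?_
      have := Nat.mul_div_le (k + cap) (s + 6 + 2)
      rw [mul_add, mul_one]
      omega
    · rw [mP, ← hH, hml]
      exact le_trans (by omega) (Nat.le_mul_of_pos_left _ H1)
    · rw [cap0, ← hG, mul_add]
      exact Nat.add_le_add cap2 (Nat.le_mul_of_pos_left _ G1)
    · rw [← hG]
      have a1 : L * (G * (s * m0 * u)) ≤ L * (G * (s * m0 * u + J)) :=
        Nat.mul_le_mul_left _ (Nat.mul_le_mul_left _ (by omega))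
      calc _ ≤ (4 * (L * (G * (s * m0 * u + J)))) * Q ^ 3 := Nat.mul_le_mul_right _ (by omega)
        _ = _ := by rw [hr]; ring
    · rw [← hG, ← hX]
      calc _ ≤ (3 * (L * (G * (Q * m * u)))) * (2 * ((D + 1) * lam) + Q * u * X) :=
            Nat.mul_le_mul_right _ (by omega)
        _ = _ := by ring
    · have a1 : g * Nb ≤ v := by
        rw [hv, mul_comm]
        exact Nat.mul_le_mul dNb (by omega)
      have a2 : u ≤ Q * u := Nat.le_mul_of_pos_left _ Q1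
      calc g * k ≤ g * (Nb * Q * u) := Nat.mul_le_mul_left _ kb
        _ = g * Nb * (Q * u) := by ring
        _ ≤ Q * u * (Q * u) := Nat.mul_le_mul_right _ (by omega)
        _ = _ := by ring
    · omega
    · omega
    · omega
    · rw [← hG, ← hNb, ← hC]
      omega
    · rw [← hG, ← hNb, ← hg, hu]
      refine par2_theta (Q := Q) (Nb := Nb) c1 (by rw [← hu]; omega) ?_ (by rw [hv, hd])
      rw [← hu]
      have a1 : Nb * (Q * u) = Nb * Q * u := by ring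
      have a2 : r * (2 * (2 * (m * v))) = 4 * (r * (m * v)) := by ring
      omega
    · rw [← hy]
      have a1 : 8 * L * (2 * (2 * (m * v)) + y) = 32 * (L * (m * v)) + 8 * (L * y) := by ring
      have a2 : r * (2 * (2 * (m * v))) = 4 * (r * (m * v)) := by ring
      omega
    · have : (Q + 1) * u = Q * u + u := by ring
      rw [← hy]
      omega
    · rw [← hy, show 8 * L * ((D + 1) * lam + y) + r * ((D + 1) * lam) + c * v + g + 1 =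
        8 * L * ((D + 1) * lam + y) + r * ((D + 1) * lam) + c * v + y by omega]
      exact Nat.lt_succ_self _
  · have a1 := par2_main (B := 2 * T * H * u * Q ^ 6) hs hm (by rw [← hQ]; omega) At t3
      (by rw [← hQ]; omega)
    have a2 := par2_w (y := y) (c := c) (v := v) L1 hK l2 (by omega) (X := X) (m0 := m0)
      (by omega) (by omega) (hu ▸ n4.trans t3) (by omega)
    rw [← hu] at a2
    have a3 : 2 * (L * G * m * ((Q + 1) * u)) =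
        2 * T * H * u * Q ^ 6 * m * (s + 8) ^ 3 * (s + 9) := by
      rw [hL, GH, show s + 9 = Q + 1 by omega, ← hQ]; ring
    rw [← hG, mul_add 2, a3, mul_add (s + 8), show (s + 64) * k = (s + 48) * k + 2 * (8 * k) by ring,
      mul_left_comm (s + 8) 2]
    exact Nat.add_le_add a1 (Nat.mul_le_mul_left _ (hQ ▸ a2))

theorem exists_num2 (ε : ℝ) (hε : 0 < ε) (lbN : ℕ → ℕ) (JN : ℕ → ℕ → ℕ → ℕ → ℕ) :
    ∃ C k0 : ℕ, 0 < C ∧ ∀ k, k0 ≤ k →
      ∃ K D g Q Lr m q q' ζ lam e η η' θ Mh n0 r1 Mk w wd : ℕ,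
        Num2 k K D g Q Lr m q q' ζ lam e η η' θ Mh n0 r1 Mk w wd (lbN K) (JN K Q Lr m) ∧
        2 * Lr * e * Q ≤ C ∧
        ((2 * (Lr * (Q ^ 4) ^ (3 * Lr) * m * q + w) : ℕ) : ℝ) ≤ (1 + ε) * k := by
  obtain ⟨s0, hs0⟩ := exists_nat_ge (56 / ε)
  obtain ⟨C, k0, hC, hk0⟩ := par2_nat (s0 + 8) (by omega) lbN JN
  refine ⟨C, k0, hC, fun k hk => ?_⟩
  obtain ⟨K, D, g, Q, L, m, q, q', ζ, lam, e, η, η', θ, Mh, n0, r1, Mk, w, wd, h1, h0, h2⟩ :=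
    hk0 k hk
  refine ⟨K, D, g, Q, L, m, q, q', ζ, lam, e, η, η', θ, Mh, n0, r1, Mk, w, wd, h1, h0, ?_⟩
  generalize 2 * (L * (Q ^ 4) ^ (3 * L) * m * q + w) = z at h2 ⊢
  have h3 : ((s0 : ℝ) + 8 + 8) * z ≤ ((s0 : ℝ) + 8 + 64) * k := by exact_mod_cast h2
  have h4 : (56 : ℝ) ≤ s0 * ε := (div_le_iff₀ hε).1 hs0
  have h5 : (0 : ℝ) ≤ k := Nat.cast_nonneg k
  have h6 : (0 : ℝ) < (s0 : ℝ) + 8 + 8 := by positivity
  refine le_of_mul_le_mul_left (h3.trans ?_) h6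
  rw [← mul_assoc]
  exact mul_le_mul_of_nonneg_right (by nlinarith) h5

end Pool.Agent.Lib.MP_12a5fd_co.BT
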