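import Pool.Agent.Lib.MP_12a5fd_co.BT.Defs
import Pool.Agent.Lib.MP_2b1ae8_co.AT.Hub1

/-! Types of trees and classes of paired trees. -/

set_option autoImplicit false
set_option linter.unusedSectionVars false

namespace Pool.Agent.Lib.MP_12a5fd_co.BT

open Finset Pool.Agent.Lib.MP_2b1ae8_co.AT

theorem exists_type2 (Q s nE nE' nS nS' nI nO nO' : ℕ) (hQ : 9 ≤ Q) (hs : 0 < s)
    (h1 : nE + nE' + nS + nS' + nI ≤ s) (h2 : nE + nO' ≤ s) (h3 : 2 * (nE' + nO) ≤ s) :
    ∃ a b δ jI jR jC : ℕ, a + b + δ = Q ∧ 2 * b ≤ Q ∧ 0 < δ ∧ 0 < jI ∧ 0 < jR ∧ 0 < jC ∧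
      jI + jR + jC ≤ Q ∧ (Q - 8) * nE + s ≤ a * s ∧ a * s ≤ (Q - 8) * nE + 2 * s ∧
      (Q - 8) * nO' + (a + 1) * s ≤ Q * s ∧ (Q - 8) * nE' + s ≤ b * s ∧
      2 * ((Q - 8) * nO) + (2 * b + 1) * s ≤ Q * s ∧
      (Q - 8) * Q * nI + δ * s ≤ δ * jI * s ∧ (Q - 8) * Q * nS ≤ δ * jR * s ∧
      (Q - 8) * Q * nS' ≤ δ * jC * s := by
  obtain ⟨P, rfl⟩ : ∃ P, Q = P + 8 := ⟨Q - 8, by omega⟩
  rw [Nat.add_sub_cancel]
  have dv : ∀ n d : ℕ, 0 < d → ∃ x, x * d ≤ n ∧ n < x * d + d := fun n d hd =>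
    ⟨n / d, Nat.div_mul_le_self n d, Nat.lt_div_mul_add hd⟩
  obtain ⟨α, a1, a2⟩ := dv (P * nE) s hs
  obtain ⟨β, b1, b2⟩ := dv (P * nE') s hs
  have e1 := Nat.mul_le_mul_left P h1
  have e2 := Nat.mul_le_mul_left P h2
  have e3 := Nat.mul_le_mul_left P h3
  simp only [mul_add, mul_left_comm P 2] at e1 e2 e3
  have hab : α + β ≤ P := Nat.le_of_mul_le_mul_right (by rw [add_mul]; omega) hs
  have hb : 2 * β ≤ P := Nat.le_of_mul_le_mul_right (by rw [mul_assoc]; omega) hs
  obtain ⟨δ, hδ⟩ : ∃ δ, α + β + δ = P + 4 := ⟨P + 4 - (α + β), by omega⟩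
  have hδs : 4 * s + (P * nS + P * nS' + P * nI) ≤ δ * s := by
    have := congrArg (· * s) hδ
    simp only [add_mul] at this
    omega
  have hp : 0 < δ * s := by omega
  obtain ⟨x, x1, x2⟩ := dv (P * (P + 8) * nI) _ hp
  obtain ⟨y, y1, y2⟩ := dv (P * (P + 8) * nS) _ hp
  obtain ⟨z, z1, z2⟩ := dv (P * (P + 8) * nS') _ hp
  have hxyz : x + y + z + 4 ≤ P + 8 := by
    refine Nat.le_of_mul_le_mul_right ?_ hp
    have f1 := Nat.mul_le_mul_left (P + 8) hδs
    have f2 : δ * s ≤ (P + 8) * s := Nat.mul_le_mul_right s (by omega)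
    have f3 : (P + 8) * (4 * s + (P * nS + P * nS' + P * nI)) = 4 * ((P + 8) * s) +
      (P * (P + 8) * nS + P * (P + 8) * nS' + P * (P + 8) * nI) := by ring
    rw [add_mul (x + y + z), add_mul (x + y), add_mul x]
    omega
  have g : ∀ u v, δ * (u + v) * s = u * (δ * s) + v * (δ * s) := fun u v => by ring
  refine ⟨α + 2, β + 2, δ, x + 2, y + 1, z + 1, by omega, by omega, by omega, by omega, by omega,
    by omega, by omega, ?_, ?_, ?_, ?_, ?_, ?_, ?_, ?_⟩
  · rw [add_mul]; omega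
  · rw [add_mul]; omega
  · simp only [add_mul]; omega
  · rw [add_mul]; omega
  · simp only [add_mul, mul_add, mul_assoc]; omega
  · rw [g]; omega
  · rw [g]; omega
  · rw [g]; omega

theorem plan_sort {A : Type} [Fintype A] {n : ℕ} (hn : Fintype.card A = n) (f : A → ℕ) :
    ∃ e : A ≃ Fin n, ∀ x, (e x : ℕ) < #{y | f x ≤ f y} := by
  let e0 := Fintype.equivFinOfCardEq hn
  let g : Fin n → ℕᵒᵈ := fun j => OrderDual.toDual (f (e0.symm j))
  refine ⟨e0.trans (Tuple.sort g).symm, fun x => ?_⟩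
  have h := card_le_card_of_injOn (s := Iic ((Tuple.sort g).symm (e0 x)))
    (t := {y | f x ≤ f y}) (fun j => e0.symm (Tuple.sort g j)) (fun j hj => by
      have := Tuple.monotone_sort g (mem_Iic.1 hj)
      simpa [g] using this)
    (fun _ _ _ _ h => (Tuple.sort g).injective (e0.symm.injective h))
  rw [Fin.card_Iic] at h
  exact h

theorem plan_grp {X Pt : Type} [Fintype Pt] [DecidableEq Pt] (S : Finset X) (t : X → Pt)
    (ρ : X → ℕ) (hρ : ∀ x ∈ S, ρ x < #{y ∈ S | t y = t x}) (cap : ℕ) (R : Pt → Prop)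
    [DecidablePred R] : cap * #(({x ∈ S | R (t x)} : Finset X).image fun x => (t x, ρ x / cap))
      ≤ #{x ∈ S | R (t x)} + cap * Fintype.card Pt := by
  have h1 : (({x ∈ S | R (t x)} : Finset X).image fun x => (t x, ρ x / cap)) ⊆
      ({p | R p} : Finset Pt).biUnion fun p => {p} ×ˢ range (#{y ∈ S | t y = p} / cap + 1) := by
    intro z hz
    obtain ⟨x, hx, rfl⟩ := mem_image.1 hz
    rw [mem_filter] at hx
    refine mem_biUnion.2 ⟨t x, by simp [hx.2], mem_product.2 ⟨mem_singleton_self _, ?_⟩⟩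
    exact mem_range.2 (Nat.lt_succ_of_le (Nat.div_le_div_right (hρ x hx.1).le))
  have h2 := (card_le_card h1).trans card_biUnion_le
  refine (Nat.mul_le_mul_left cap h2).trans ?_
  rw [mul_sum]
  calc _ ≤ ∑ p ∈ ({p | R p} : Finset Pt), (#{y ∈ S | t y = p} + cap) := sum_le_sum fun p _ => by
        rw [card_product, card_singleton, card_range, one_mul, mul_add, mul_one]
        exact Nat.add_le_add_right (Nat.mul_div_le _ _) _
    _ ≤ _ := by
        rw [sum_add_distrib, sum_card_fiberwise_eq_card_filter, sum_const, smul_eq_mul, mul_comm]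
        refine add_le_add (le_of_eq ?_) (Nat.mul_le_mul_left _ (card_le_univ _))
        simp

theorem plan_pair {I : Type} [Fintype I] [DecidableEq I] (rk : I → ℕ)
    (hrk : Function.Injective rk) (π : I → I) (hπ : ∀ i, π (π i) = i)
    (hfix : ∀ i j, π i = i → π j = j → i = j) (R : I → Prop) [DecidablePred R] :
    #{l ∈ ({l | rk l ≤ rk (π l)} : Finset I) | R (π l)} +
      #{l ∈ ({l | rk l ≤ rk (π l)} : Finset I) | R l} ≤ #{l | R l} + 1 := by
  have h1 : #{l ∈ ({l | rk l ≤ rk (π l)} : Finset I) | R (π l)} ≤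
      #(({l | R l ∧ ¬ rk l ≤ rk (π l)} : Finset I) ∪ ({l | π l = l} : Finset I)) := by
    refine card_le_card_of_injOn π (fun l hl => ?_) fun a _ b _ h => by rw [← hπ a, h, hπ]
    simp only [coe_filter, mem_filter, mem_univ, true_and, Set.mem_ofPred_eq, coe_union,
      Set.mem_union, hπ] at hl ⊢
    rcases hl.1.eq_or_lt with h | h
    · exact Or.inr (hrk h)
    · exact Or.inl ⟨hl.2, h.not_ge⟩
  have h2 : #({l | π l = l} : Finset I) ≤ 1 := card_le_one.2 fun a ha b hb =>
    hfix a b (mem_filter.1 ha).2 (mem_filter.1 hb).2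
  have h3 := card_union_le ({l | R l ∧ ¬ rk l ≤ rk (π l)} : Finset I) {l | π l = l}
  have h4 := card_filter_add_card_filter_not (s := ({l | R l} : Finset I))
    fun l => rk l ≤ rk (π l)
  rw [filter_filter, filter_filter] at h4
  rw [filter_filter _ R, filter_congr fun l _ => and_comm (b := R l)]
  omega

theorem exists_plan2 {I Ty : Type} [Fintype I] [DecidableEq I] [Fintype Ty] [DecidableEq Ty]
    (ty : I → Ty) (sz rk : I → ℕ) (hrk : Function.Injective rk) (π : I → I)
    (hπ : ∀ i, π (π i) = i) (hfix : ∀ i j, π i = i → π j = j → i = j) (k T0 wd cap Lr : ℕ)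
    (hcap : 0 < cap) (hk : ∀ i, sz i + rk i ≤ k) (hwd : k < T0 * wd)
    (hL : Fintype.card I + 1 + 2 * cap * (Fintype.card Ty * T0) ^ 2 ≤ 2 * cap * Lr) :
    ∃ (cl : I → Fin (2 * Lr)) (xr : Fin (2 * Lr) → Fin Lr) (tyc : Fin (2 * Lr) → Option Ty),
      (∀ i, tyc (cl i) = some (ty i)) ∧ (∀ Z τ, tyc Z = some τ → ∃ i, ty i = τ) ∧
      (∀ Z, #{i | cl i = Z} ≤ cap) ∧
      (∀ i, sz i + cap * cl i ≤ k + wd + 2 + 2 * cap * (Fintype.card Ty * T0) ^ 2) ∧
      ∀ (A : Ty → ℕ) (Q : ℕ), (∀ i, A (ty i) ≤ Q) → (∀ i, π i ≠ i → A (ty i) + A (ty (π i)) ≤ Q) →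
        ∀ X, ∑ Z with xr Z = X, (tyc Z).elim 0 A ≤ Q := by
  classical
  have hwd0 : 0 < wd := Nat.pos_of_mul_pos_left (Nat.zero_lt_of_lt hwd)
  have hLr : 0 < Lr := Nat.pos_of_mul_pos_left (a := 2 * cap) (by omega)
  have : Nonempty (Fin Lr) := ⟨⟨0, hLr⟩⟩
  let sl : I → Ty × Fin T0 := fun i =>
    (ty i, ⟨sz i / wd, (Nat.div_lt_iff_lt_mul hwd0).2 (by have := hk i; omega)⟩)
  let pat : I → (Ty × Fin T0) × (Ty × Fin T0) := fun i => (sl i, sl (π i))
  have hnp : Fintype.card ((Ty × Fin T0) × (Ty × Fin T0)) = (Fintype.card Ty * T0) ^ 2 := by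
    simp [sq]
  set np := (Fintype.card Ty * T0) ^ 2
  let L : Finset I := {l | rk l ≤ rk (π l)}
  obtain ⟨ρ, ρ1, ρ2⟩ := hub_rank L pat
  let gr : I → ((Ty × Fin T0) × (Ty × Fin T0)) × ℕ := fun l => (pat l, ρ l / cap)
  have hG : #(L.image gr) ≤ Fintype.card (Fin Lr) := by
    have h1 := plan_grp L pat ρ ρ1 cap fun _ => True
    have h2 := plan_pair rk hrk π hπ hfix fun _ => True
    simp only [filter_true, hnp, card_univ] at h1 h2
    rw [Fintype.card_fin]
    refine Nat.le_of_mul_le_mul_left (?_ : cap * _ ≤ cap * _) hcap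
    rw [mul_assoc, mul_assoc] at hL
    change #L + #L ≤ _ at h2
    change cap * #(L.image gr) ≤ _ at h1
    omega
  obtain ⟨gx, hgx⟩ := hub_inj _ hG
  let ld : I → I := fun i => if i ∈ L then i else π i
  have hld : ∀ i, ld i ∈ L := fun i => by
    by_cases h : i ∈ L
    · simp [ld, h]
    · have h' : ¬ rk i ≤ rk (π i) := by simpa [L] using h
      simp only [ld, h, if_false]
      simp only [L, mem_filter, mem_univ, true_and, hπ]
      omega
  let key : I → Fin Lr × Bool := fun i => (gx (gr (ld i)), decide (i ∈ L))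
  have hkey : ∀ i j, key i = key j → gr (ld i) = gr (ld j) ∧ (i ∈ L ↔ j ∈ L) := fun i j h =>
    ⟨hgx _ (mem_image_of_mem _ (hld i)) _ (mem_image_of_mem _ (hld j)) (congrArg Prod.fst h),
      decide_eq_decide.1 (congrArg Prod.snd h)⟩
  have hsl : ∀ i j, key i = key j → sl i = sl j := fun i j h => by
    obtain ⟨h1, h2⟩ := hkey i j h
    by_cases hi : i ∈ L
    · simp only [ld, hi, h2.1 hi, if_true] at h1
      exact congrArg (·.1.1) h1
    · simp only [ld, hi, mt h2.2 hi, if_false] at h1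
      have := congrArg (·.1.2) h1
      simpa only [gr, pat, hπ] using this
  let T : Fin Lr × Bool → Option (Ty × Fin T0) := fun κ =>
    if h : ∃ i, key i = κ then some (sl h.choose) else none
  have hT : ∀ i, T (key i) = some (sl i) := fun i => by
    have h : ∃ j, key j = key i := ⟨i, rfl⟩
    simp only [T, dif_pos h, hsl _ _ h.choose_spec]
  have hT' : ∀ κ, T κ = none ∨ ∃ i, key i = κ := fun κ => by
    by_cases h : ∃ i, key i = κ
    · exact Or.inr h
    · exact Or.inl (dif_neg h)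
  obtain ⟨e, he⟩ := plan_sort (A := Fin Lr × Bool) (n := 2 * Lr) (by simp [mul_comm])
    fun κ => (T κ).elim 0 fun p => p.2 + 1
  refine ⟨fun i => e (key i), fun Z => (e.symm Z).1, fun Z => (T (e.symm Z)).map Prod.fst,
    fun i => ?_, fun Z τ h => ?_, fun Z => ?_, fun i => ?_, fun A Q hA hA2 X => ?_⟩
  · simp only [e.symm_apply_apply, hT]
    rfl
  · rcases hT' (e.symm Z) with h' | ⟨i, h'⟩
    · simp [h'] at h
    · simp only [← h', hT] at h
      exact ⟨i, Option.some.inj h⟩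
  · rw [← card_range cap]
    refine card_le_card_of_injOn (fun i => ρ (ld i) % cap)
      (fun i _ => mem_coe.2 (mem_range.2 (Nat.mod_lt _ hcap))) fun i hi j hj h => ?_
    obtain ⟨h1, h2⟩ := hkey i j
      (e.injective ((mem_filter.1 hi).2.trans (mem_filter.1 hj).2.symm))
    have h3 : ld i = ld j := ρ2 _ (hld i) _ (hld j) (congrArg Prod.fst h1) (by
      have h4 : ρ (ld i) / cap = ρ (ld j) / cap := congrArg Prod.snd h1
      rw [← Nat.div_add_mod (ρ (ld i)) cap, ← Nat.div_add_mod (ρ (ld j)) cap, h4]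
      exact congrArg _ h)
    by_cases hi : i ∈ L
    · simpa only [ld, hi, h2.1 hi, if_true] using h3
    · simp only [ld, hi, mt h2.2 hi, if_false] at h3
      rw [← hπ i, h3, hπ]
  · have h0 := he (key i)
    rw [hT, Option.elim_some] at h0
    set s : ℕ := sz i / wd with hs
    have h1 := plan_grp L pat ρ ρ1 cap fun p => s ≤ p.1.2
    have h2 := plan_grp L pat ρ ρ1 cap fun p => s ≤ p.2.2
    have h3 := plan_pair rk hrk π hπ hfix fun j => s ≤ (sl j).2
    rw [hnp] at h1 h2
    have h4 : #{j | s ≤ (sl j).2} ≤ #(range (k - s * wd + 1)) :=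
      card_le_card_of_injOn rk (fun j hj => by
        have h5 : s * wd ≤ sz j := (Nat.le_div_iff_mul_le hwd0).1 (mem_filter.1 hj).2
        have := hk j
        exact mem_coe.2 (mem_range.2 (by omega))) hrk.injOn
    rw [card_range] at h4
    have h5 : ({κ | s + 1 ≤ (T κ).elim 0 fun p => (p.2 : ℕ) + 1} : Finset (Fin Lr × Bool)) ⊆
        (({l ∈ L | s ≤ (pat l).1.2} : Finset I).image gr).image (fun z => (gx z, true)) ∪
        (({l ∈ L | s ≤ (pat l).2.2} : Finset I).image gr).image (fun z => (gx z, false)) := by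
      intro κ hκ
      have h6 := (mem_filter.1 hκ).2
      rcases hT' κ with h' | ⟨j, rfl⟩
      · simp [h'] at h6
      rw [hT, Option.elim_some, Nat.add_le_add_iff_right] at h6
      by_cases hj : j ∈ L
      · refine mem_union_left _ (mem_image.2 ⟨_, mem_image_of_mem _ (mem_filter.2 ⟨hj, h6⟩), ?_⟩)
        simp only [key, ld, hj, if_true, decide_true]
      · refine mem_union_right _ (mem_image.2 ⟨gr (π j), mem_image_of_mem _ (mem_filter.2
          ⟨by simpa only [ld, hj, if_false] using hld j, by simpa only [pat, hπ] using h6⟩), ?_⟩)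
        simp only [key, ld, hj, if_false, decide_false]
    have h6 := Nat.mul_le_mul_left cap ((h0.le.trans (card_le_card h5)).trans
      ((card_union_le _ _).trans (add_le_add card_image_le card_image_le)))
    have h7 : sz i < s * wd + wd := Nat.lt_div_mul_add hwd0
    have h8 : s * wd ≤ sz i := Nat.div_mul_le_self _ _
    have h9 := hk i
    rw [mul_add] at h6
    rw [mul_assoc]
    change #{l ∈ L | s ≤ (pat l).2.2} + #{l ∈ L | s ≤ (pat l).1.2} ≤ _ at h3
    change cap * #(image gr _) ≤ _ at h1 h2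
    beta_reduce
    omega
  · have h1 : ∑ Z with (e.symm Z).1 = X, ((T (e.symm Z)).map Prod.fst).elim 0 A =
        ((T (X, true)).map Prod.fst).elim 0 A + ((T (X, false)).map Prod.fst).elim 0 A := by
      rw [sum_filter, e.symm.sum_comp fun κ =>
        if κ.1 = X then ((T κ).map Prod.fst).elim 0 A else 0, Fintype.sum_prod_type]
      simp
    rw [h1]
    rcases hT' (X, false) with h | ⟨j, h⟩
    · rcases hT' (X, true) with h' | ⟨j, h'⟩
      · simp [h, h']
      · rw [h, ← h', hT]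
        exact hA j
    · have hj : j ∉ L := by simpa [key] using congrArg Prod.snd h
      have hj' : π j ∈ L := by simpa only [ld, hj, if_false] using hld j
      have h2 : key (π j) = (X, true) := by
        have := congrArg Prod.fst h
        simp only [key, ld, hj, hj', if_true, if_false, decide_true] at this ⊢
        rw [this]
      rw [← h, ← h2, hT, hT, add_comm]
      exact hA2 j fun h3 => hj (h3 ▸ hj')

end Pool.Agent.Lib.MP_12a5fd_co.BT
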