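import Pool.Agent.Lib.MP_12a5fd_co.BT.Main1
import Pool.Agent.Lib.MP_12a5fd_co.BT.Micro
import Pool.Agent.Lib.MP_12a5fd_co.BT.Labels
import Pool.Agent.Lib.MP_12a5fd_co.BT.Kinds
import Pool.Agent.Lib.MP_12a5fd_co.BT.Design
import Pool.Agent.Lib.MP_12a5fd_co.BT.Plan
import Pool.Agent.Lib.MP_12a5fd_co.BT.Params

/-! Asymptotic packing of trees into a complete bipartite graph: assembling the parts. -/

set_option autoImplicit false
set_option synthInstance.maxSize 4000

namespace Pool.Agent.Lib.MP_12a5fd_co.BT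

open Finset Pool.Agent.Lib.MP_2b1ae8_co.AT

/-- The forest version. -/
theorem pack_forest {V I : Type} [Fintype V] [DecidableEq V] [Fintype I] [DecidableEq I]
    {k K D g Q Lr m q q' ζ lam e η η' θ Mh n0 r1 Mk w wd : ℕ} [NeZero K] [NeZero Q] [NeZero m]
    (H : Num2 k K D g Q Lr m q q' ζ lam e η η' θ Mh n0 r1 Mk w wd
      (Fintype.card (Option Bool × Shp K))
      (Fintype.card (Pn (Fin (2 * Lr)) (Shp K) (Q ^ 2 * mP Q Lr m + 2)) *
        Fintype.card (Tn (GG Q) (Fin Lr ⊕ Fin (2 * Lr)) m)))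
    (F : GF V I K D g) (sd : V → Bool) (hsd : ∀ v, v ∉ F.R → sd (F.par v) ≠ sd v)
    (n rk : I → ℕ) (hrk : Function.Injective rk) (hn : ∀ i, n i + rk i ≤ k) (hn0 : ∀ i, 0 < n i)
    (hsz : ∀ i, #{v | F.tr v = i} ≤ n i) (hrow : ∀ i, 2 * #{v | F.tr v = i ∧ sd v = true} ≤ n i)
    (π : I → I) (hπ : ∀ i, π (π i) = i) (hfix : ∀ i j, π i = i → π j = j → i = j)
    (hd : I → ℕ) (α : I → ℝ) (hα : ∀ i, (hd i : ℝ) ≤ α i * n i)
    (hpair : ∀ i, π i ≠ i → α i + α (π i) ≤ 1)
    (hhub : ∀ i, Q * ∑ z ∈ F.E with F.tr z = i ∧ sd z = true, #{u | u ∉ F.R ∧ F.par u = z} ≤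
      Q * hd i + capN Q Lr m q') :
    ∃ f : V → (Bk (GG Q) (Fin Lr ⊕ Fin (2 * Lr)) m × Fin q) ⊕ (Bool × Fin w),
      (∀ u v, F.tr u = F.tr v → f u = f v → u = v) ∧
      (∀ u v, u ∉ F.R → v ∉ F.R → s(f u, f (F.par u)) = s(f v, f (F.par v)) →
        F.tr u = F.tr v) ∧
      ∀ v, (f v).elim (fun x => x.1.1.isLeft) Prod.fst = sd v := by
  have hQ := H.hQ
  have hL := H.hL
  have : NeZero q := ⟨by have := H.hq; omega⟩
  have : NeZero Lr := ⟨by omega⟩
  have hCl : Fintype.card (Fin Lr ⊕ Fin (2 * Lr)) = 3 * Lr := by simp; omega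
  obtain ⟨P⟩ := exists_LS1 F sd
  have hm'0 : 0 < mP Q Lr m := lt_of_lt_of_le (by
    have := Fintype.card_pos (α := Option Bool × Shp K)
    have := H.hK
    positivity) H.hlb
  have hcap0 : 0 < capN Q Lr m q' := by
    have := H.hq'
    have : 0 < Q - 8 := by omega
    have : 0 < Q - 1 := by omega
    unfold capN
    positivity
  set cap := capN Q Lr m q' with hcap
  have hsz' : ∀ i, #{v | F.tr v = i} ≤ k := fun i => by
    have := hsz i
    have := hn i
    omega
  have hLa : ∀ i, #{v ∈ F.La | F.tr v = i} ≤ lam := fun i => Nat.le_of_mul_le_mul_left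
    ((F.card_La i).trans ((Nat.mul_le_mul_left _ (hsz' i)).trans H.hlam)) H.hK
  have hZ : ∀ i, #{v ∈ F.Z | F.tr v = i} ≤ ζ := fun i => Nat.le_of_mul_le_mul_left
    ((F.card_Z i).trans ((Nat.add_le_add_right (Nat.mul_le_mul_left _ (hsz' i)) _).trans H.hζ))
    (Nat.mul_pos H.hK H.hD)
  have hE : ∀ i, #{v ∈ F.E | F.tr v = i} ≤ e := fun i => Nat.le_of_mul_le_mul_left
    ((F.card_E i).trans ((Nat.add_le_add_right (Nat.mul_le_mul_left _ (hsz' i)) _).trans H.he))
    H.hg
  have hI : Fintype.card I ≤ k + 1 := by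
    rw [← card_range (k + 1), ← card_univ]
    exact card_le_card_of_injOn rk (fun i _ => by have := hn i; simp; omega) hrk.injOn
  let s : I → ℕ := fun i => max (n i) cap
  have hs1 : ∀ i, n i ≤ s i := fun i => le_max_left _ _
  have hs2 : ∀ i, cap ≤ s i := fun i => le_max_right _ _
  have hs0 : ∀ i, 0 < s i := fun i => hcap0.trans_le (hs2 i)
  have hc := fun i s => cnt_side_le P i s
  choose a b δ jI jR jC t1 t2 t3 t4 t5 t6 t7 u1 u2 u3 u4 u5 u6 u7 u8 using fun i =>
    exists_type2 Q (s i) _ _ _ _ _ _ _ hQ (hs0 i)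
      ((cnt_edges_le P i).trans ((hsz i).trans (hs1 i)))
      ((hc i false).trans ((card_le_card fun v hv => by simp_all).trans ((hsz i).trans (hs1 i))))
      ((Nat.mul_le_mul_left 2 (hc i true)).trans ((hrow i).trans (hs1 i)))
  let ty : I → Fin (Q + 1) × Fin (Q + 1) × Fin (Q + 1) × Fin (Q + 1) × Fin (Q + 1) := fun i =>
    (⟨a i, by have := t1 i; omega⟩, ⟨b i, by have := t1 i; omega⟩, ⟨jI i, by have := t7 i; omega⟩,
      ⟨jR i, by have := t7 i; omega⟩, ⟨jC i, by have := t7 i; omega⟩)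
  have hTy : Fintype.card (Fin (Q + 1) × Fin (Q + 1) × Fin (Q + 1) × Fin (Q + 1) × Fin (Q + 1)) =
      (Q + 1) ^ 5 := by simp; ring
  have hk := H.hk
  rw [← hcap, mul_add] at hk
  obtain ⟨cl, xr, tyc, c1, c2, c3, c4, c5⟩ := exists_plan2 ty s rk hrk π hπ hfix (k + cap) Q wd cap
    Lr hcap0 (fun i => by have := hn i; simp only [s]; omega) H.hwd (by rw [hTy]; nlinarith)
  rw [hTy] at c4
  let aZ : Fin (2 * Lr) → ℕ := fun Z => (tyc Z).elim 0 fun τ => τ.1
  let bZ : Fin (2 * Lr) → ℕ := fun Z => (tyc Z).elim 0 fun τ => τ.2.1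
  let iZ : Fin (2 * Lr) → ℕ := fun Z => (tyc Z).elim 0 fun τ => τ.2.2.1
  let sZ : Fin (2 * Lr) → Bool → ℕ := fun Z o =>
    (tyc Z).elim 0 fun τ => if o = true then τ.2.2.2.1 else τ.2.2.2.2
  have hZ1 : ∀ Z, aZ Z + bZ Z ≤ Q ∧ 2 * bZ Z ≤ Q ∧ iZ Z + sZ Z true + sZ Z false ≤ Q := by
    intro Z
    cases h : tyc Z with
    | none => simp [aZ, bZ, iZ, sZ, h]
    | some τ =>
      obtain ⟨i, rfl⟩ := c2 Z τ h
      have := t1 i
      simp only [aZ, bZ, iZ, sZ, h, Option.elim, ty, if_true, Bool.false_eq_true, if_false]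
      exact ⟨by omega, t2 i, t7 i⟩
  have e1 : ∀ i, aZ (cl i) = a i := fun i => by simp [aZ, c1, ty]
  have e2 : ∀ i, bZ (cl i) = b i := fun i => by simp [bZ, c1, ty]
  have e3 : ∀ i, iZ (cl i) = jI i := fun i => by simp [iZ, c1, ty]
  have e4 : ∀ i, sZ (cl i) true = jR i := fun i => by simp [sZ, c1, ty]
  have e5 : ∀ i, sZ (cl i) false = jC i := fun i => by simp [sZ, c1, ty]
  have ha : ∀ i, a i * s i ≤ (Q - 8) * hd i + 3 * s i := fun i => by
    have h1 := (Nat.mul_le_mul_left Q (cnt_E_le P hsd i)).trans (hhub i)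
    have h2 := u2 i
    have h3 := hs2 i
    generalize cnt ((P.ext (mo F)).nn i) (fun l j => (shD K).us l.2 j = true ∧
      (shD K).sl l.2 j = false ∧ zoE l j = true) = x at h1 h2
    have h4 : (Q - 8) * x ≤ (Q - 8) * hd i + cap := by
      refine Nat.le_of_mul_le_mul_left (c := Q) ?_ (by omega)
      calc _ = (Q - 8) * (Q * x) := by ring
        _ ≤ (Q - 8) * (Q * hd i + cap) := by gcongr
        _ = Q * ((Q - 8) * hd i) + (Q - 8) * cap := by ring
        _ ≤ Q * ((Q - 8) * hd i) + Q * cap := by gcongr; omega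
        _ = _ := by ring
    omega
  obtain ⟨T, d1, d2, d3, d4, d5⟩ := design2 Q Lr aZ bZ (fun Z => Q - aZ Z - bZ Z) xr
    (fun Z => by have := hZ1 Z; omega) (fun Z => (hZ1 Z).2.1)
    (c5 (fun τ => τ.1) Q (fun i => by have := t1 i; simp only [ty]; omega) fun i hi =>
      pair_num Q _ _ _ _ _ _ _ _ _ _ hQ (hn0 i) (hn0 _) (hs1 i) (hs1 _) (ha i) (ha _) (hα i) (hα _)
        (hpair i hi))
  have f1 : ∀ i, T.a (cl i) = a i := fun i => by rw [d2, e1]
  have f2 : ∀ i, T.b (cl i) = b i := fun i => by rw [d3, e2]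
  have f3 : ∀ i, T.δ (cl i) = δ i := fun i => by
    have := t1 i
    simp only [d4, e1, e2]
    omega
  have hst : ∀ i, s i ≤ cap * T.t (cl i) := fun i => by
    have h1 := c4 i
    have h2 : s i + cap * (cl i + 7) ≤ cap * (2 * Lr) := by nlinarith
    rw [d5, Nat.sub_sub, Nat.mul_sub]
    omega
  have ht : ∀ i, 0 < T.t (cl i) := fun i =>
    Nat.pos_of_mul_pos_left ((hs0 i).trans_le (hst i))
  let St : I → ℕ := fun i => T.t (cl i) * (Q ^ 6 * (Q - 1) ^ 2 * q' * mP Q Lr m)
  have hSt : ∀ i, Q * s i ≤ (Q - 8) * St i := fun i =>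
    (Nat.mul_le_mul_left _ (hst i)).trans (le_of_eq (by simp only [St, hcap, capN]; ring))
  have sc := fun i x y z => scale_le (Q - 8) Q (s i) (St i) x y z (by omega) (hs0 i) (hSt i)
  obtain ⟨kn, ⟨N⟩, n1, n2, n3⟩ := exists_kinds P T cl k q' hsd
    (fun i => lt_of_lt_of_le (by have := t3 i; have := ht i; rw [f3]; positivity) (T.tot (cl i)))
    hsz' H.hbal
  obtain ⟨M, hM⟩ := exists_MS2 (m := m) (shD K) T cl iZ sZ (P.ext (mo F)).nn (P.ext (ko F kn)).nn
    (mP Q Lr m) q q' n0 r1 Mk cap _ ((D + 1) * lam) St (by omega) (by omega) (hCl ▸ H.hm)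
    (by rw [hCl, mP]) H.hq' rfl H.hlb (hCl ▸ H.hcap) (by have := H.hfree; omega)
    (le_trans (by gcongr) (hCl ▸ H.hr1))
    (le_trans (by
      rw [hCl, show 2 * (3 * Lr) ^ 2 = 18 * Lr ^ 2 by ring]
      gcongr) (hCl ▸ H.hMk)) c3
    (fun Z => (hZ1 Z).2.2) (fun i => e3 i ▸ t4 i)
    (fun i o => by
      cases o
      · exact e5 i ▸ t6 i
      · exact e4 i ▸ t5 i)
    (fun i => f3 i ▸ t3 i) (fun i => by have := t1 i; rw [f3]; omega) ht (fun _ => rfl)
    (fun i l => by
      refine (nn_le _ i l).trans ((hsz i).trans ((hs1 i).trans ?_))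
      exact Nat.le_of_mul_le_mul_left ((hSt i).trans (Nat.mul_le_mul_right _ (Nat.sub_le _ _)))
        (by omega))
    (fun i => by simpa only [one_mul, f1] using sc i _ 1 _ (by simpa only [one_mul] using u1 i))
    (fun i => by simpa only [one_mul, f2] using sc i _ 1 _ (by simpa only [one_mul] using u4 i))
    (fun i => f1 i ▸ sc i _ _ _ (u3 i))
    (fun i => by
      have := sc i _ _ _ (by rw [mul_left_comm]; exact u5 i)
      rwa [mul_left_comm, ← f2] at this)
    (fun i => by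
      rw [f3, e3, mul_assoc]
      exact sc i _ _ _ (by rw [← mul_assoc]; exact u6 i))
    (fun i o => by
      rw [f3, mul_assoc]
      cases o
      · simpa only [zero_mul, add_zero, e5] using sc i _ 0 _
          (by rw [← mul_assoc, zero_mul, add_zero]; exact u8 i)
      · simpa only [zero_mul, add_zero, e4] using sc i _ 0 _
          (by rw [← mul_assoc, zero_mul, add_zero]; exact u7 i))
    (fun i => (cnt_nn _ i _).trans_le ((P.cnt_ma i).trans (Nat.mul_le_mul_left _ (hLa i))))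
    n1 n2 n3
  have hB : Fintype.card (Bk (GG Q) (Fin Lr ⊕ Fin (2 * Lr)) m) =
      3 * Lr * (Q ^ 4) ^ (3 * Lr) * m := by
    rw [Fintype.card_prod, Fintype.card_prod, Fintype.card_pi, prod_const, card_univ, hCl, card_GG,
      Fintype.card_fin, mul_assoc (3 * Lr)]
  have hH : Fintype.card (Fin (2 * Lr) × Bool × Bool) = 8 * Lr := by simp; omega
  have : DecidableEq (Option (Knd (Fin Lr ⊕ Fin (2 * Lr)) Q) × Shp K) := Classical.decEq _
  obtain ⟨f, g1, g2, g3⟩ := micro2 (P.ext (ko F kn)) N M ζ lam e η η' θ Mh w hsd hZ hLa hE H.hη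
    H.hη' H.hn0 H.hM1 H.hM2 H.hM3 (by rw [hB, hH]; exact H.hroom) (by rw [hB]; exact H.hθ)
    (by rw [hH]; exact H.hfree) (by rw [Fintype.card_prod]; exact H.hq) (by rw [hH]; exact H.hw)
  refine ⟨f, g1, g2, fun v => ?_⟩
  rw [← g3 v, hM, d1]

/-- Trees whose orders `n i` satisfy `n i + rk i ≤ k` for an injective `rk`, paired so that the
shares of the edges at row vertices of large degree add up to at most one. -/
theorem pack2 (ε : ℝ) (hε : 0 < ε) : ∃ γ : ℝ, 0 < γ ∧ ∃ k0 : ℕ, ∀ k a b : ℕ, k0 ≤ k →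
    (1 + ε) * k / 2 ≤ a → (1 + ε) * k ≤ b →
    ∀ (I : Type) [Fintype I] [DecidableEq I] (n rk : I → ℕ), Function.Injective rk →
      (∀ i, n i + rk i ≤ k) → ∀ T : (i : I) → SimpleGraph (Fin (n i)), (∀ i, (T i).IsTree) →
      ∀ A : (i : I) → Finset (Fin (n i)), (∀ i x y, (T i).Adj x y → (x ∈ A i ↔ y ∉ A i)) →
      (∀ i, 2 * #(A i) ≤ n i) → ∀ α : I → ℝ, (∀ i, 0 ≤ α i) →
      (∀ i, ((∑ x ∈ A i with γ * k < ((T i).neighborSet x).ncard,
        ((T i).neighborSet x).ncard : ℕ) : ℝ) ≤ α i * n i + γ * k) →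
      ∀ π : I → I, (∀ i, π (π i) = i) → (∀ i j, π i = i → π j = j → i = j) →
      (∀ i, π i ≠ i → α i + α (π i) ≤ 1) →
      ∃ f : (i : I) → Fin (n i) → Fin a ⊕ Fin b, (∀ i, Function.Injective (f i)) ∧
        (∀ i x, (f i x).isLeft = decide (x ∈ A i)) ∧
        ∀ i j x y z t, (T i).Adj x y → (T j).Adj z t → s(f i x, f i y) = s(f j z, f j t) →
          i = j := by
  obtain ⟨C0, k0, hC0, h0⟩ := exists_num2 ε hε (fun K => Fintype.card (Option Bool × Shp K))
    (fun K Q Lr m => if h : Q ≠ 0 then haveI : NeZero Q := ⟨h⟩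
      Fintype.card (Pn (Fin (2 * Lr)) (Shp K) (Q ^ 2 * mP Q Lr m + 2)) *
        Fintype.card (Tn (GG Q) (Fin Lr ⊕ Fin (2 * Lr)) m) else 0)
  obtain ⟨C, hCC⟩ : ∃ C, C = 3 * C0 := ⟨_, rfl⟩
  have hC : 0 < C := by omega
  have hC' : (0 : ℝ) < C := by exact_mod_cast hC
  refine ⟨1 / C, by positivity, k0, fun k a b hk ha hb I _ _ n rk hrk hn T hT A hA hA2 α hα0 hα π
    hπ hfix hpair => ?_⟩
  obtain ⟨K, D, g, Q, Lr, m, q, q', ζ, lam, e, η, η', θ, Mh, n0, r1, Mk, w, wd, H, hCe, hε'⟩ :=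
    h0 k hk
  clear h0
  have hQ : Q ≠ 0 := by have := H.hQ; omega
  have : NeZero K := ⟨H.hK.ne'⟩
  have : NeZero Q := ⟨hQ⟩
  have : NeZero m := ⟨by have := H.hL; have := H.hm; omega⟩
  rw [dif_pos hQ] at H
  obtain ⟨F, hF, hadj, hpar⟩ := exists_GF2 n T hT K D g H.hK H.hg
  have fib : ∀ i (p : (Σ i, Fin (n i)) → Prop) [DecidablePred p],
      ({v | F.tr v = i ∧ p v} : Finset _) =
        ({x | p ⟨i, x⟩} : Finset (Fin (n i))).image fun x => (⟨i, x⟩ : Σ i, Fin (n i)) := by
    intro i p _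
    ext ⟨j, x⟩
    simp only [hF, mem_filter, mem_univ, true_and, mem_image]
    refine ⟨?_, ?_⟩
    · rintro ⟨rfl, h⟩
      exact ⟨x, h, rfl⟩
    · rintro ⟨y, h, e⟩
      exact ⟨(congrArg Sigma.fst e).symm, e ▸ h⟩
  have hsz : ∀ i, #{v | F.tr v = i} ≤ n i := fun i => by
    have := (congrArg card (fib i fun _ => True)).trans_le card_image_le
    simpa only [and_true, filter_true, card_fin] using this
  have hE : ∀ i, #{v ∈ F.E | F.tr v = i} ≤ e := fun i => by
    have h1 : #{v | F.tr v = i} ≤ k := by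
      have := hsz i
      have h2 := hn i
      omega
    exact Nat.le_of_mul_le_mul_left
      ((F.card_E i).trans ((Nat.add_le_add_right (Nat.mul_le_mul_left _ h1) _).trans H.he)) H.hg
  obtain ⟨f, f1, f2, f3⟩ := pack_forest H F (fun v => decide (v.2 ∈ A v.1))
    (by
      rintro ⟨i, x⟩ hv
      obtain ⟨y, h1, h2⟩ := hpar i x hv
      have := hA i x y h2
      rw [h1]
      by_cases h : y ∈ A i <;> simp [h, this])
    n rk hrk hn (fun i => Fin.pos_iff_nonempty.2 (hT i).connected.nonempty)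
    hsz
    (fun i => by
      refine le_trans (Nat.mul_le_mul_left _ ?_) (hA2 i)
      rw [fib]
      exact card_image_le.trans (card_le_card fun x hx => by simpa using hx))
    π hπ hfix (fun i => ∑ x ∈ A i with 1 / (C : ℝ) * k < ((T i).neighborSet x).ncard,
      ((T i).neighborSet x).ncard - (k / C + 1)) α (fun i => by
      have h1 := hα i
      have h2 : 1 / (C : ℝ) * k ≤ (k / C + 1 : ℕ) := by
        rw [one_div, inv_mul_eq_div, div_le_iff₀ hC']
        exact_mod_cast ((Nat.lt_mul_div_succ k hC).le.trans_eq (mul_comm _ _))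
      generalize ∑ x ∈ A i with 1 / (C : ℝ) * k < ((T i).neighborSet x).ncard,
        ((T i).neighborSet x).ncard = y at h1
      rcases le_total y (k / C + 1) with h | h
      · rw [Nat.sub_eq_zero_of_le h, Nat.cast_zero]
        exact mul_nonneg (hα0 i) (Nat.cast_nonneg _)
      · rw [Nat.cast_sub h]
        linarith) hpair (fun i => by
      have h1 : ∑ z ∈ F.E with F.tr z = i ∧ decide (z.2 ∈ A z.1) = true,
          #{u | u ∉ F.R ∧ F.par u = z} ≤
          ∑ x ∈ A i with (⟨i, x⟩ : Σ i, Fin (n i)) ∈ F.E, ((T i).neighborSet x).ncard := by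
        have e1 : ({z ∈ F.E | F.tr z = i ∧ decide (z.2 ∈ A z.1) = true} : Finset _) =
            ({x ∈ A i | (⟨i, x⟩ : Σ i, Fin (n i)) ∈ F.E}).image
              fun x => (⟨i, x⟩ : Σ i, Fin (n i)) := by
          have := fib i fun v => v.2 ∈ A v.1 ∧ v ∈ F.E
          convert this using 1
          · ext v
            simp only [mem_filter, mem_univ, true_and, decide_eq_true_eq]
            tauto
          · congr 1
            ext x
            simp
        rw [e1, sum_image fun x _ y _ h => by simpa using h]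
        refine sum_le_sum fun x _ => ?_
        rw [Set.ncard_eq_toFinset_card _ (Set.toFinite _)]
        refine le_trans (card_le_card ?_) (card_image_le (f := fun y => (⟨i, y⟩ : Σ i, Fin (n i))))
        rintro ⟨j, y⟩ hy
        obtain ⟨h1, h2⟩ := (mem_filter.1 hy).2
        obtain ⟨z, h3, h4⟩ := hpar j y h1
        obtain ⟨rfl, h5⟩ := Sigma.mk.inj (h3.symm.trans h2)
        obtain rfl := eq_of_heq h5
        exact mem_image_of_mem _ (by simpa using h4.symm)
      have h2 : ∑ x ∈ A i with (⟨i, x⟩ : Σ i, Fin (n i)) ∈ F.E, ((T i).neighborSet x).ncard ≤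
          ∑ x ∈ A i with 1 / (C : ℝ) * k < ((T i).neighborSet x).ncard,
            ((T i).neighborSet x).ncard + e * (k / C) := by
        rw [← sum_filter_add_sum_filter_not _
          fun x => 1 / (C : ℝ) * k < ((T i).neighborSet x).ncard]
        refine Nat.add_le_add (sum_le_sum_of_subset fun x hx => ?_) ?_
        · simp only [mem_filter] at hx ⊢
          tauto
        · refine (sum_le_card_nsmul _ _ (k / C) fun x hx => ?_).trans
            (Nat.mul_le_mul_right _ (le_trans ?_ (hE i)))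
          · have := not_lt.1 (mem_filter.1 hx).2
            rw [Nat.le_div_iff_mul_le hC]
            rw [one_div, inv_mul_eq_div, le_div_iff₀ hC'] at this
            exact_mod_cast this
          · refine card_le_card_of_injOn (fun x => (⟨i, x⟩ : Σ i, Fin (n i))) (fun x hx => ?_)
              fun x _ y _ h => by simpa using h
            simp only [coe_filter, mem_filter, Set.mem_ofPred_eq] at hx ⊢
            exact ⟨hx.1.2, by rw [hF]⟩
      have h3 : 3 * (Q * (e * (k / C))) ≤ capN Q Lr m q' := by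
        have h4 := H.hk
        have h5 := Nat.mul_div_le k C
        refine Nat.le_of_mul_le_mul_right (c := 2 * Lr) ?_ (by have := H.hL; omega)
        calc _ = 3 * (2 * Lr * e * Q) * (k / C) := by ring
          _ ≤ 3 * C0 * (k / C) := by gcongr
          _ ≤ _ := by rw [← hCC]; omega
      have h4 : Q * (k / C) ≤ Q * (e * (k / C)) := by
        have h5 := H.he
        have h6 := H.hg
        exact Nat.mul_le_mul_left _ (Nat.le_mul_of_pos_left _
          (Nat.pos_of_mul_pos_left (a := g) (by omega)))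
      have h5 : 3 * Q ≤ capN Q Lr m q' := by
        have h6 : 0 < mP Q Lr m := lt_of_lt_of_le (by
          have := Fintype.card_pos (α := Option Bool × Shp K)
          have := H.hK
          positivity) H.hlb
        have h7 := H.hq'
        have h8 := H.hQ
        unfold capN
        calc _ = 1 * (Q ^ 1 * 3 * 1 * 1) := by ring
          _ ≤ (Q - 8) * (Q ^ 5 * 3 ^ 2 * q' * mP Q Lr m) := by gcongr <;> omega
          _ ≤ _ := by gcongr; omega
      have h6 := Nat.mul_le_mul_left Q ((h1.trans h2).trans (Nat.add_le_add_right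
        (le_tsub_add (a := k / C + 1)) _))
      simp only [mul_add, mul_one] at h6
      omega)
  have hw : 0 < w := by have := H.hw; omega
  have ha' : Lr * (Q ^ 4) ^ (3 * Lr) * m * q + w ≤ a := by
    have : ((2 * (Lr * (Q ^ 4) ^ (3 * Lr) * m * q + w) : ℕ) : ℝ) ≤ (2 * a : ℕ) := by
      refine hε'.trans ?_
      push_cast
      linarith
    exact Nat.le_of_mul_le_mul_left (Nat.cast_le.1 this) (by omega)
  have hb' : 2 * (Lr * (Q ^ 4) ^ (3 * Lr) * m * q + w) ≤ b := Nat.cast_le.1 (hε'.trans hb)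
  have hB : Fintype.card (((Fin Lr ⊕ Fin (2 * Lr)) → GG Q) × Fin m) = (Q ^ 4) ^ (3 * Lr) * m := by
    rw [Fintype.card_prod, Fintype.card_pi, prod_const, card_univ, card_GG, Fintype.card_fin,
      Fintype.card_sum, Fintype.card_fin, Fintype.card_fin, show Lr + 2 * Lr = 3 * Lr by ring]
  obtain ⟨ι, ι1, ι2⟩ := exists_side (H := (Bk (GG Q) (Fin Lr ⊕ Fin (2 * Lr)) m × Fin q) ⊕
    (Bool × Fin w)) (fun x => x.elim (fun x => x.1.1.isLeft) Prod.fst) a b (by omega)
    (by
      refine (card_side Sum.isLeft q w true).trans (le_trans ?_ ha')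
      have : #({U | U.isLeft = true} : Finset (Fin Lr ⊕ Fin (2 * Lr))) ≤ Lr := by
        refine le_trans (card_le_card ?_) (card_image_le (s := univ) (f := Sum.inl) |>.trans
          (by simp))
        rintro (x | x) hx
        · exact mem_image_of_mem _ (mem_univ _)
        · simp at hx
      rw [hB, ← mul_assoc]
      gcongr)
    (by
      refine (card_side Sum.isLeft q w false).trans (le_trans ?_ hb')
      have : #({U | U.isLeft = false} : Finset (Fin Lr ⊕ Fin (2 * Lr))) ≤ 2 * Lr := by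
        refine le_trans (card_le_card ?_) (card_image_le (s := univ) (f := Sum.inr) |>.trans
          (by simp))
        rintro (x | x) hx
        · simp at hx
        · exact mem_image_of_mem _ (mem_univ _)
      rw [hB]
      calc _ ≤ 2 * Lr * ((Q ^ 4) ^ (3 * Lr) * m) * q + 2 * w := by gcongr; omega
        _ = _ := by ring)
  refine ⟨fun i x => ι (f ⟨i, x⟩), fun i x y h => ?_, fun i x => (ι2 _).trans (f3 _),
    fun i j x y z t h1 h2 h => ?_⟩
  · simpa using f1 ⟨i, x⟩ ⟨i, y⟩ (by rw [hF]) (ι1 h)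
  · have h3 : s(f ⟨i, x⟩, f ⟨i, y⟩) = s(f ⟨j, z⟩, f ⟨j, t⟩) :=
      Sym2.map.injective ι1 (by simpa using h)
    have key : ∀ i x y, (T i).Adj x y → ∃ u, u ∉ F.R ∧ F.tr u = i ∧
        s(f u, f (F.par u)) = s(f ⟨i, x⟩, f ⟨i, y⟩) := fun i x y h => by
      rcases hadj i x y h with ⟨h1, h2⟩ | ⟨h1, h2⟩
      · exact ⟨_, h1, by rw [hF], by rw [h2]⟩
      · exact ⟨_, h1, by rw [hF], by rw [h2, Sym2.eq_swap]⟩
    obtain ⟨u, u1, rfl, u3⟩ := key i x y h1
    obtain ⟨v, v1, rfl, v3⟩ := key j z t h2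
    exact f2 u v u1 v1 (u3.trans (h3.trans v3.symm))

end Pool.Agent.Lib.MP_12a5fd_co.BT
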