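import Pool.Agent.Lib.MP_12a5fd_co.BT.Blocks

/-! Counting facts about labelled forests, and the final embedding into two sides. -/

set_option autoImplicit false
set_option linter.unusedSectionVars false

namespace Pool.Agent.Lib.MP_12a5fd_co.BT

open Finset Pool.Agent.Lib.MP_2b1ae8_co.AT

lemma exists_side {H : Type} [Fintype H] (s : H → Bool) (a b : ℕ) (hab : 0 < a + b)
    (ha : #{x | s x = true} ≤ a) (hb : #{x | s x = false} ≤ b) :
    ∃ ι : H → Fin a ⊕ Fin b, Function.Injective ι ∧ ∀ x, (ι x).isLeft = s x := by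
  have : Nonempty (Fin a ⊕ Fin b) := Fintype.card_pos_iff.1 (by simpa using hab)
  obtain ⟨g, g1, g2⟩ := fib_inj (β := Fin a ⊕ Fin b) univ s
    (fun o => if o = true then univ.image Sum.inl else univ.image Sum.inr) (by
      rintro (_ | _)
      · simpa [card_image_of_injective _ Sum.inr_injective] using hb
      · simpa [card_image_of_injective _ Sum.inl_injective] using ha)
  have h : ∀ x, (g x).isLeft = s x := fun x => by
    have := g1 x (mem_univ _)
    cases hs : s x <;> simp only [hs, if_true, Bool.false_eq_true, if_false, mem_image] at this <;>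
      obtain ⟨y, -, hy⟩ := this <;> rw [← hy] <;> rfl
  exact ⟨g, fun x y e => g2 x (mem_univ _) y (mem_univ _) (by rw [← h, ← h, e]) e, h⟩

lemma card_side {Cl B : Type} [Fintype Cl] [Fintype B] (cs : Cl → Bool) (q w : ℕ) (s : Bool) :
    #({x | x.elim (fun x => cs x.1.1) Prod.fst = s} :
      Finset (((Cl × B) × Fin q) ⊕ (Bool × Fin w))) ≤ #{U | cs U = s} * Fintype.card B * q + w := by
  classical
  refine le_trans (card_le_card (t := ((({U | cs U = s} : Finset Cl) ×ˢ (univ : Finset B)) ×ˢ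
    (univ : Finset (Fin q))).image Sum.inl ∪ (univ : Finset (Fin w)).image fun c => Sum.inr (s, c))
    ?_) ((card_union_le _ _).trans (Nat.add_le_add (card_image_le.trans (by simp))
      (card_image_le.trans (by simp))))
  rintro (x | ⟨t, c⟩) hx
  · exact mem_union_left _ (mem_image_of_mem _ (by simpa using hx))
  · obtain rfl : t = s := by simpa using hx
    exact mem_union_right _ (mem_image_of_mem _ (mem_univ _))

variable {V I Sh : Type} [Fintype V] [DecidableEq V] [DecidableEq I] [Fintype Sh] {K D g : ℕ}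
  [NeZero K] {F : GF V I K D g} {sd : V → Bool} {S : SD Sh K}

lemma cnt_nn (P : LS1 F sd S) (i : I) (p : Sh → Fin K → Prop) [∀ l j, Decidable (p l j)] :
    cnt (P.nn i) p = ∑ r ∈ P.Tp with F.tr r = i, #{j | p (P.lab r) j} := by
  classical
  rw [← sum_fiberwise' _ P.lab fun l => #{j | p l j}]
  simp only [cnt, LS1.nn, sum_const, smul_eq_mul, filter_filter]

lemma nn_le (P : LS1 F sd S) (i : I) (l : Sh) : P.nn i l ≤ #{v | F.tr v = i} :=
  card_le_card fun v hv => by simp_all

lemma cnt_side_le (P : LS1 F sd S) (i : I) (s : Bool) :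
    cnt ((P.ext (mo F)).nn i) (fun l j => S.us l.2 j = true ∧ S.sl l.2 j = s ∧ zoE l j = true) +
    cnt ((P.ext (mo F)).nn i) (fun l j => S.us l.2 j = true ∧ S.sl l.2 j = s ∧ zoE l j = false) ≤
      #{v | F.tr v = i ∧ sd v = s} := by
  rw [cnt_nn, cnt_nn, ← sum_add_distrib]
  refine le_trans (sum_le_sum fun r _ => ?_) (P.cnt_side i s)
  rw [← card_union_of_disjoint (disjoint_filter.2 fun j _ h h' => by simp [h.2.2] at h')]
  refine card_le_card fun j hj => ?_
  simp only [mem_union, mem_filter, mem_univ, true_and] at hj ⊢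
  rcases hj with h | h <;> exact ⟨h.1, h.2.1⟩

lemma five_le {α : Type} [DecidableEq α] (A B C D E U : Finset α) (h1 : Disjoint A B)
    (h2 : Disjoint (A ∪ B) C) (h3 : Disjoint (A ∪ B ∪ C) D) (h4 : Disjoint (A ∪ B ∪ C ∪ D) E)
    (h : A ∪ B ∪ C ∪ D ∪ E ⊆ U) : #A + #B + #C + #D + #E ≤ #U := by
  rw [← card_union_of_disjoint h1, ← card_union_of_disjoint h2, ← card_union_of_disjoint h3,
    ← card_union_of_disjoint h4]
  exact card_le_card h

lemma cnt_edges_le (P : LS1 F sd S) (i : I) :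
    cnt ((P.ext (mo F)).nn i) (fun l j => S.us l.2 j = true ∧ S.sl l.2 j = false ∧ zoE l j = true) +
    cnt ((P.ext (mo F)).nn i) (fun l j => S.us l.2 j = true ∧ S.sl l.2 j = true ∧ zoE l j = true) +
    cnt ((P.ext (mo F)).nn i) (fun l j => j = 0 ∧ l.1 = some false ∧ S.us l.2 j = true ∧
      S.sl l.2 j = !true) +
    cnt ((P.ext (mo F)).nn i) (fun l j => j = 0 ∧ l.1 = some false ∧ S.us l.2 j = true ∧
      S.sl l.2 j = !false) +
    cnt ((P.ext (mo F)).nn i) (fun l j => j ≠ 0 ∧ S.us l.2 j = true) ≤ #{v | F.tr v = i} := by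
  simp only [cnt_nn, ← sum_add_distrib]
  have h1 := P.cnt_side i true
  have h2 := P.cnt_side i false
  have h3 : #{v | F.tr v = i ∧ sd v = true} + #{v | F.tr v = i ∧ sd v = false} ≤
      #{v | F.tr v = i} := by
    rw [← card_union_of_disjoint (disjoint_filter.2 fun j _ h h' => by simp [h.2] at h')]
    exact card_le_card fun v hv => by
      simp only [mem_union, mem_filter, mem_univ, true_and] at hv ⊢
      tauto
  refine le_trans ?_ ((Nat.add_le_add h1 h2).trans h3)
  rw [← sum_add_distrib]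
  refine sum_le_sum fun r _ => ?_
  rw [← card_union_of_disjoint (s := {j | S.us (P.lab r) j = true ∧ S.sl (P.lab r) j = true})
    (disjoint_filter.2 fun j _ h h' => by simp [h.2] at h')]
  have e : ((P.ext (mo F)).lab r).2 = P.lab r := rfl
  generalize (P.ext (mo F)).lab r = l at e ⊢
  rw [← e]
  refine five_le _ _ _ _ _ _ ?_ ?_ ?_ ?_ ?_
  all_goals
    simp only [disjoint_left, subset_iff, mem_union, mem_filter, mem_univ, true_and, zoE,
      decide_eq_true_eq, Bool.not_true, Bool.not_false]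
    intro j
    cases S.sl l.2 j <;> aesop

lemma cnt_E_le (P : LS1 F sd S) (hsd : ∀ v, v ∉ F.R → sd (F.par v) ≠ sd v) (i : I) :
    cnt ((P.ext (mo F)).nn i) (fun l j => S.us l.2 j = true ∧ S.sl l.2 j = false ∧ zoE l j = true) ≤
      ∑ z ∈ F.E with F.tr z = i ∧ sd z = true, #{u | u ∉ F.R ∧ F.par u = z} := by
  rw [← card_biUnion (fun z _ z' _ h => disjoint_filter.2 fun u _ h1 h2 =>
    h (h1.2.symm.trans h2.2)), cnt_nn]
  refine le_trans (sum_le_sum (g := fun r => if r ∈ ({z ∈ F.E | F.tr z = i ∧ sd z = true}).biUnion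
    (fun z => ({u | u ∉ F.R ∧ F.par u = z} : Finset V)) then 1 else 0) fun r hr => ?_) ?_
  · obtain ⟨hr, rfl⟩ := mem_filter.1 hr
    replace hr : r ∈ P.Tp := (mem_filter.1 hr).1
    split_ifs with h
    · refine card_le_one.2 fun a ha b hb => ?_
      simp only [mem_filter, zoE, decide_eq_true_eq] at ha hb
      rw [ha.2.2.2.1, hb.2.2.2.1]
    · rw [Nat.le_zero, card_eq_zero, filter_eq_empty_iff]
      rintro j - ⟨-, h2, h3⟩
      simp only [zoE, decide_eq_true_eq] at h3
      obtain ⟨rfl, h3⟩ := h3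
      obtain ⟨t1, t2⟩ := P.top_self r hr
      obtain ⟨z1, z2, -⟩ := (P.mem_Tp r).1 hr
      have hR : r ∉ F.R := fun h => z1 (F.E_sub (F.R_sub h))
      have e1 : mo F (F.top r) = some true := h3
      have e2 : S.sl (P.lab r) 0 = false := h2
      rw [← t2, P.side r z1 z2] at e2
      rw [t1, mo] at e1
      split_ifs at e1
      refine h (mem_biUnion.2 ⟨F.par r, mem_filter.2 ⟨by simpa using e1, F.tr_par r, ?_⟩,
        by simp [hR]⟩)
      simpa [e2] using hsd r hR
  · rw [← card_filter]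
    exact card_le_card fun r hr => (mem_filter.1 hr).2

lemma pair_num (Q a a' s s' n n' h h' : ℕ) (x x' : ℝ) (hQ : 9 ≤ Q) (hn : 0 < n) (hn' : 0 < n')
    (hs : n ≤ s) (hs' : n' ≤ s') (h1 : a * s ≤ (Q - 8) * h + 3 * s)
    (h2 : a' * s' ≤ (Q - 8) * h' + 3 * s') (hx : (h : ℝ) ≤ x * n) (hx' : (h' : ℝ) ≤ x' * n')
    (hxx : x + x' ≤ 1) : a + a' ≤ Q := by
  obtain ⟨P, rfl⟩ : ∃ P, Q = P + 8 := ⟨Q - 8, by omega⟩
  rw [Nat.add_sub_cancel] at h1 h2
  have key : ∀ (a s n h : ℕ) (x : ℝ), 0 < n → n ≤ s → a * s ≤ P * h + 3 * s → (h : ℝ) ≤ x * n →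
      (a : ℝ) ≤ P * x + 3 := by
    intro a s n h x hn hs h1 hx
    have e1 : (0 : ℝ) < n := by exact_mod_cast hn
    have e2 : (n : ℝ) ≤ s := by exact_mod_cast hs
    have e3 : (a * s : ℝ) ≤ P * h + 3 * s := by exact_mod_cast h1
    have e4 : 0 ≤ x := by
      by_contra e
      have : x * n < 0 := mul_neg_of_neg_of_pos (not_le.1 e) e1
      linarith [Nat.cast_nonneg (α := ℝ) h]
    have e5 : (h : ℝ) ≤ x * s := hx.trans (by gcongr)
    have e6 : (P : ℝ) * h ≤ P * (x * s) := by gcongr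
    refine le_of_mul_le_mul_right (a := (s : ℝ)) ?_ (by linarith)
    linarith
  have e1 := key a s n h x hn hs h1 hx
  have e2 := key a' s' n' h' x' hn' hs' h2 hx'
  have e3 : (P : ℝ) * (x + x') ≤ P * 1 := by gcongr
  have : ((a + a' : ℕ) : ℝ) ≤ (P + 8 : ℕ) := by
    push_cast
    linarith
  exact_mod_cast this

end Pool.Agent.Lib.MP_12a5fd_co.BT
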