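import Pool.Agent.Lib.MP_12a5fd_co.BT.Defs
import Pool.Agent.Lib.MP_12a5fd_co.BT.Hub
import Pool.Agent.Lib.MP_2b1ae8_co.AT.Micro2

/-! Placing the cores. -/

set_option autoImplicit false
set_option linter.unusedSectionVars false

namespace Pool.Agent.Lib.MP_12a5fd_co.BT

open Finset Pool.Agent.Lib.MP_2b1ae8_co.AT

variable {V I Lb Kd Bn BB CC Sb Hd : Type} [Fintype V] [DecidableEq V] [Fintype I]
  [DecidableEq I] [Fintype Lb] [DecidableEq Lb] [Fintype Bn] [DecidableEq Bn] [Fintype BB]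
  [DecidableEq BB] [DecidableEq CC] [Fintype Sb] [DecidableEq Sb] [Fintype Hd] [DecidableEq Hd]
  {K D g : ℕ} [NeZero K] {F : GF V I K D g} {sd : V → Bool} {S : SD Lb K} {Y : KD Lb Kd}
  {m q q' n0 r1 Mk : ℕ}

lemma LS1.us0 (P : LS1 F sd S) {r : V} (hr : r ∈ P.Tp) : S.us (P.lab r) 0 = true := by
  obtain ⟨h1, h2, -⟩ := (P.mem_Tp r).1 hr
  have := (P.top_mem r h1 h2).2.2.2
  rwa [(P.top_self r hr).2] at this

lemma LS1.nn_eq (P : LS1 F sd S) (i : I) (l : Lb) :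
    P.nn i l = #{r ∈ P.Tp | F.tr r = i ∧ P.lab r = l} := by
  unfold LS1.nn
  congr

variable (P : LS1 F sd S) (M : MS2 I Lb Kd Bn BB CC Sb Hd S Y P.nn m q q' n0 r1 Mk)

lemma bs_ne {r : V} (hr : r ∈ P.Tp) : (M.bs (M.sc (F.tr r)) (P.lab r)).Nonempty := by
  have h := M.size (F.tr r) (P.lab r)
  have h2 : 0 < P.nn (F.tr r) (P.lab r) := by
    rw [P.nn_eq]
    exact card_pos.2 ⟨r, mem_filter.2 ⟨hr, rfl, rfl⟩⟩
  rw [← card_pos]
  exact Nat.pos_of_mul_pos_left (h2.trans_le h)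

open Classical in
/-- The share of the piece with top `r` in block `B`. -/
noncomputable def rho2 (B : BB) (r : V) : ℝ :=
  if ∃ b ∈ M.bs (M.sc (F.tr r)) (P.lab r), M.bl (M.sc (F.tr r)) (P.lab r) b 0 = B then
    1 / #(M.bs (M.sc (F.tr r)) (P.lab r)) else 0

lemma rho2_nonneg (B : BB) (r : V) : 0 ≤ rho2 P M B r := by
  unfold rho2
  split_ifs <;> positivity

lemma rho2_le (B : BB) (r : V) : rho2 P M B r ≤ 1 := by
  unfold rho2
  split_ifs with h
  · obtain ⟨b, hb, -⟩ := h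
    have := card_pos.2 ⟨b, hb⟩
    exact (div_le_one (by positivity)).2 (by exact_mod_cast this)
  · exact zero_le_one

lemma rho2_ne {B : BB} {r : V} (h : rho2 P M B r ≠ 0) :
    ∃ b ∈ M.bs (M.sc (F.tr r)) (P.lab r), M.bl (M.sc (F.tr r)) (P.lab r) b 0 = B := by
  by_contra h1
  exact h (if_neg h1)

lemma rho2_lab (B : BB) (i : I) (l : Lb) :
    ∑ r ∈ P.Tp with F.tr r = i ∧ P.lab r = l, rho2 P M B r ≤ q' := by
  rcases (M.bs (M.sc i) l).eq_empty_or_nonempty with h | h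
  · rw [sum_eq_zero]
    · positivity
    · intro r hr
      obtain ⟨hr', rfl, rfl⟩ := mem_filter.1 hr
      exact absurd h (bs_ne P M hr').ne_empty
  · have h0 : (0 : ℝ) < #(M.bs (M.sc i) l) := by exact_mod_cast card_pos.2 h
    calc _ ≤ ∑ r ∈ P.Tp with F.tr r = i ∧ P.lab r = l, (1 : ℝ) / #(M.bs (M.sc i) l) := by
          refine sum_le_sum fun r hr => ?_
          obtain ⟨-, rfl, rfl⟩ := mem_filter.1 hr
          unfold rho2
          split_ifs
          · rfl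
          · positivity
      _ = P.nn i l / #(M.bs (M.sc i) l) := by
          rw [sum_const, nsmul_eq_mul, P.nn_eq, mul_one_div]
      _ ≤ _ := (div_le_iff₀ h0).2 (by exact_mod_cast M.size i l)

lemma rho2_tree (B : BB) (i : I) : ∑ r ∈ P.Tp with F.tr r = i, rho2 P M B r ≤ q' := by
  by_cases h : ∃ l, S.us l 0 = true ∧ ∃ b ∈ M.bs (M.sc i) l, M.bl (M.sc i) l b 0 = B
  · obtain ⟨l, hl, b, hb, hB⟩ := h
    refine le_trans (le_of_eq (sum_subset (fun r hr => ?_) (fun r hr hn => ?_)).symm)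
      (rho2_lab P M B i l)
    · exact mem_filter.2 ⟨(mem_filter.1 hr).1, (mem_filter.1 hr).2.1⟩
    · obtain ⟨hr', rfl⟩ := mem_filter.1 hr
      by_contra h1
      obtain ⟨b', hb', hB'⟩ := rho2_ne P M h1
      exact hn (mem_filter.2 ⟨hr', rfl,
        (M.bl_inj _ _ _ _ _ _ _ hb' (P.us0 hr') hb hl (hB'.trans hB.symm)).1⟩)
  · rw [sum_eq_zero]
    · positivity
    · intro r hr
      obtain ⟨hr', rfl⟩ := mem_filter.1 hr
      exact if_neg fun h1 => h ⟨_, P.us0 hr', h1⟩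

/-- The weights of the core vertices. -/
noncomputable def wt2 (z : V) : BB ⊕ Bool → ℝ
  | Sum.inl B => ∑ r ∈ P.Tp with F.par r = z, rho2 P M B r
  | Sum.inr false => 1 + #{u ∈ F.Z | u ∉ F.R ∧ F.par u = z}
  | Sum.inr true => #{u ∈ F.La | F.par u = z} + if z ∉ F.R ∧ F.par z ∈ F.La then 1 else 0

lemma wt2_nonneg (z : V) (c : BB ⊕ Bool) : 0 ≤ wt2 P M z c := by
  rcases c with B | _ | _
  · exact sum_nonneg fun _ _ => rho2_nonneg P M _ _
  · simp only [wt2]; positivity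
  · simp only [wt2]; split_ifs <;> positivity

lemma wt2_small {z : V} (hz : z ∈ F.Z) (hE : z ∉ F.E) (c : BB ⊕ Bool) :
    wt2 P M z c ≤ (g : ℝ) + 1 := by
  have h : ∀ s : Finset V, (∀ u ∈ s, u ∉ F.R ∧ F.par u = z) → (#s : ℝ) ≤ g := fun s hs => by
    exact_mod_cast le_trans (card_le_card fun u hu => by simpa using hs u hu) (F.ch_small z hz hE)
  rcases c with B | _ | _
  · refine (sum_le_card_nsmul _ _ 1 fun _ _ => rho2_le P M _ _).trans ?_
    rw [nsmul_eq_mul, mul_one]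
    refine (h _ fun u hu => ?_).trans (by linarith)
    obtain ⟨hu', rfl⟩ := mem_filter.1 hu
    exact ⟨F.nR ((P.mem_Tp u).1 hu').1, rfl⟩
  · have := h {u ∈ F.Z | u ∉ F.R ∧ F.par u = z} fun u hu => (mem_filter.1 hu).2
    simp only [wt2]
    linarith
  · have := h {u ∈ F.La | F.par u = z} fun u hu =>
      ⟨F.nR (F.nZ (mem_filter.1 hu).1), (mem_filter.1 hu).2⟩
    simp only [wt2]
    split_ifs <;> linarith

lemma wt2_tree (ζ lam : ℕ) (hZ : ∀ i, #{v ∈ F.Z | F.tr v = i} ≤ ζ)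
    (hLa : ∀ i, #{v ∈ F.La | F.tr v = i} ≤ lam) (i : I) (c : BB ⊕ Bool) :
    ∑ v ∈ F.Z with F.tr v = i, wt2 P M v c ≤
      c.elim (fun _ => (q' : ℝ)) (fun b => if b then ((D + 1) * lam : ℕ) else (2 * ζ : ℕ)) := by
  have h1 : (#{v ∈ F.Z | F.tr v = i} : ℝ) ≤ ζ := by exact_mod_cast hZ i
  have h2 : (#{v ∈ F.La | F.tr v = i} : ℝ) ≤ lam := by exact_mod_cast hLa i
  rcases c with B | _ | _
  · refine (sum_fib_le _ _ _ _ _ (rho2_nonneg P M B) fun r hr h => ?_).trans (rho2_tree P M B i)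
    exact mem_filter.2 ⟨hr, (F.tr_par r).symm.trans (mem_filter.1 h).2⟩
  · have := sum_fib_le {u ∈ F.Z | u ∉ F.R} {v ∈ F.Z | F.tr v = i} {v ∈ F.Z | F.tr v = i} F.par
      (fun _ => 1) (fun _ => zero_le_one) fun u hu h =>
        mem_filter.2 ⟨(mem_filter.1 hu).1, (F.tr_par u).symm.trans (mem_filter.1 h).2⟩
    simp only [filter_filter, sum_const, nsmul_eq_mul, mul_one] at this
    simp only [wt2, sum_add_distrib, sum_const, nsmul_eq_mul, mul_one, Sum.elim_inr,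
      Bool.false_eq_true, if_false]
    push_cast
    linarith
  · have := sum_fib_le F.La {v ∈ F.La | F.tr v = i} {v ∈ F.Z | F.tr v = i} F.par
      (fun _ => 1) (fun _ => zero_le_one) fun u hu h =>
        mem_filter.2 ⟨hu, (F.tr_par u).symm.trans (mem_filter.1 h).2⟩
    simp only [sum_const, nsmul_eq_mul, mul_one] at this
    have h3 : (#{v ∈ {v ∈ F.Z | F.tr v = i} | v ∉ F.R ∧ F.par v ∈ F.La} : ℝ) ≤ D * lam := by
      exact_mod_cast le_trans (card_le_card fun u hu => by simp_all)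
        ((F.card_chLa i).trans (Nat.mul_le_mul_left _ (hLa i)))
    simp only [wt2, sum_add_distrib, Sum.elim_inr, if_true, sum_boole]
    push_cast
    linarith

variable (N : KS P Y)

/-- The cell of a core vertex. -/
def clz (z : V) : CC := M.cell (M.sc (F.tr z)) (N.kn z)

/-- The hub instance of a core vertex. -/
def grz (z : V) : Hd := M.hid (M.sc (F.tr z)) (N.kn z)

lemma wt2_root (a : CC) (B : BB) :
    ∑ v ∈ F.Z \ F.E with clz P M N v = a, wt2 P M v (Sum.inl B) ≤ n0 * (q' : ℝ) := by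
  classical
  let T : Finset (I × Lb × Bn) := {x | x.2.2 ∈ M.bs (M.sc x.1) x.2.1 ∧ S.us x.2.1 0 = true ∧
    (∃ κ, Y.hk x.2.1 = some κ ∧ Y.ke κ = false ∧ M.cell (M.sc x.1) κ = a) ∧
    M.bl (M.sc x.1) x.2.1 x.2.2 0 = B}
  have hT : #T ≤ n0 := le_trans (card_le_card fun x hx => by simpa [T] using hx) (M.cnt_root a B)
  let T' : Finset (I × Lb) := T.image fun x => (x.1, x.2.1)
  have hT' : (#T' : ℝ) ≤ n0 := by exact_mod_cast card_image_le.trans hT
  let U : Finset V := {r ∈ P.Tp | F.par r ∈ {v ∈ F.Z \ F.E | clz P M N v = a}}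
  calc _ ≤ ∑ r ∈ U, rho2 P M B r :=
        sum_fib_le _ _ _ _ _ (rho2_nonneg P M B) fun r hr h => mem_filter.2 ⟨hr, h⟩
    _ = ∑ r ∈ U with rho2 P M B r ≠ 0, rho2 P M B r := (sum_filter_ne_zero _).symm
    _ ≤ ∑ k ∈ T', ∑ r ∈ P.Tp with (F.tr r, P.lab r) = k, rho2 P M B r := by
        refine le_sum_fib _ _ _ _ _ (rho2_nonneg P M B) fun r hr => ?_
        obtain ⟨hr, h1⟩ := mem_filter.1 hr
        obtain ⟨hr, h2⟩ := mem_filter.1 hr
        obtain ⟨h2, h3⟩ := mem_filter.1 h2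
        obtain ⟨h2, h4⟩ := mem_sdiff.1 h2
        obtain ⟨b, hb, hB⟩ := rho2_ne P M h1
        refine ⟨hr, mem_image.2 ⟨(F.tr r, P.lab r, b), ?_, rfl⟩⟩
        simp only [T, mem_filter, mem_univ, true_and]
        refine ⟨hb, P.us0 hr, ⟨N.kn (F.par r), N.hub_some r hr h2, ?_, ?_⟩, hB⟩
        · simpa using fun h => h4 ((N.kn_E _ h2).1 h)
        · rw [← h3, clz, F.tr_par]
    _ ≤ ∑ _k ∈ T', (q' : ℝ) := by
        refine sum_le_sum ?_
        rintro ⟨i, l⟩ -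
        simpa only [Prod.mk.injEq] using rho2_lab P M B i l
    _ ≤ _ := by
        rw [sum_const, nsmul_eq_mul]
        exact mul_le_mul_of_nonneg_right hT' (by positivity)

lemma wt2_cell (a : CC) (c : BB ⊕ Bool) (b : ℝ) (hb : 0 ≤ b)
    (h : ∀ i, ∑ v ∈ F.Z with F.tr v = i, wt2 P M v c ≤ b) :
    ∑ v ∈ F.Z \ F.E with clz P M N v = a, wt2 P M v c ≤ n0 * (r1 * b) := by
  classical
  let T : Finset I := {i | ∃ κ, M.cell (M.sc i) κ = a}
  have hT : (#T : ℝ) ≤ r1 * n0 := by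
    exact_mod_cast le_trans (card_le_card fun x hx => by simpa [T] using hx) (M.cnt_tree a)
  calc _ ≤ ∑ i ∈ T, ∑ v ∈ F.Z with F.tr v = i, wt2 P M v c := by
        refine le_sum_fib _ _ _ _ _ (fun v => wt2_nonneg P M v c) fun v hv => ?_
        obtain ⟨h1, h2⟩ := mem_filter.1 hv
        exact ⟨(mem_sdiff.1 h1).1, mem_filter.2 ⟨mem_univ _, _, h2⟩⟩
    _ ≤ ∑ _i ∈ T, b := sum_le_sum fun i _ => h i
    _ ≤ _ := by
        rw [sum_const, nsmul_eq_mul]
        calc _ ≤ r1 * n0 * b := mul_le_mul_of_nonneg_right hT hb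
          _ = _ := by ring

theorem place2 [NeZero m] [NeZero q] (ζ lam e η η' θ Mh : ℕ)
    (hsd : ∀ v, v ∉ F.R → sd (F.par v) ≠ sd v)
    (hZ : ∀ i, #{v ∈ F.Z | F.tr v = i} ≤ ζ) (hLa : ∀ i, #{v ∈ F.La | F.tr v = i} ≤ lam)
    (hE : ∀ i, #{v ∈ F.E | F.tr v = i} ≤ e) (hη : 0 < η) (hη' : 0 < η') (hn0 : 0 < n0)
    (hM1 : q' ≤ Mh * η') (hM2 : 2 * ζ ≤ Mh * η') (hM3 : (D + 1) * lam ≤ Mh * η')
    (hroom : n0 + (Mh + 1) ^ (e * (Fintype.card BB + 2)) * (e + Fintype.card Hd * e ^ 4) ≤ m * q)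
    (hθ : (g + 1) * n0 * (Fintype.card BB * q' + r1 * (2 * ζ) + r1 * ((D + 1) * lam)) ≤
      θ * η ^ 2)
    (hfree : ζ + 2 * (Fintype.card Hd * (2 * ζ + e * η') + r1 * (2 * ζ) + η + g + 1) + θ + n0 ≤
      m * q) :
    ∃ φ : V → BB × Fin q, (∀ z, ∃ j, (φ z).1 = M.cb (M.cell (M.sc (F.tr z)) (N.kn z)) j) ∧
      (∀ u ∈ F.Z, ∀ v ∈ F.Z, F.tr u = F.tr v → φ u = φ v → u = v) ∧
      (∀ u ∈ F.Z, ∀ v ∈ F.Z, u ∉ F.R → v ∉ F.R → F.par u ∈ F.Z → F.par v ∈ F.Z →
        s(φ u, φ (F.par u)) = s(φ v, φ (F.par v)) → F.tr u = F.tr v) ∧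
      (∀ x B, ∑ r ∈ P.Tp with F.par r ∈ F.Z ∧ φ (F.par r) = x, rho2 P M B r ≤
        (q' + e * η' + η + g + 1 : ℕ)) ∧
      ∀ x, #{u ∈ F.La | F.par u ∈ F.Z ∧ φ (F.par u) = x} +
        #{u ∈ F.Z | u ∉ F.R ∧ F.par u ∈ F.La ∧ φ u = x} ≤
          Fintype.card Hd * ((D + 1) * lam + e * η') + r1 * ((D + 1) * lam) + η + g + 1 := by
  classical
  let Bd : BB ⊕ Bool → ℝ := fun c =>
    c.elim (fun _ => (q' : ℝ)) (fun b => if b then ((D + 1) * lam : ℕ) else (2 * ζ : ℕ))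
  let Bd2 : BB ⊕ Bool → ℝ := fun c =>
    c.elim (fun _ => (q' : ℝ)) (fun b => r1 * Bd (Sum.inr b))
  have hBd : ∀ c, 0 ≤ Bd c := by
    rintro (B | _ | _) <;> simp only [Bd, Sum.elim_inl, Sum.elim_inr] <;> positivity
  have hBd2 : ∀ c, 0 ≤ Bd2 c := by
    rintro (B | b)
    · exact hBd (Sum.inl B)
    · exact mul_nonneg (by positivity) (hBd _)
  have hcs : ∀ z ∈ F.Z, ∀ j, M.sb (M.cb (clz P M N z) j) = sd z := fun z hz j =>
    (M.cb_side _ _ _).trans (N.kn_side z hz)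
  obtain ⟨φ, p1, p2, p3, p4⟩ := hub2 (H := Fin m × Fin q) F.tr F.par F.dep F.R F.Z F.E sd
    (clz P M N) (grz P M N) (wt2 P M) (Sum.inr false) e Mh n0 ζ (g + 1) η η' Bd Bd2 F.E_sub F.tr_par
    (fun v hv => by have := F.dep_par v hv; omega) hsd (wt2_nonneg P M) hBd hBd2 (by positivity)
    (by positivity) (by positivity)
    (fun u hu v hv h => by rw [← hcs u (F.E_sub hu) 0, h, hcs v (F.E_sub hv)])
    (fun u hu v hv h1 h2 => by
      unfold clz grz
      rw [h1, N.kn_EE u hu v hv h1 h2]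
      exact ⟨rfl, rfl⟩)
    (fun v _ => le_rfl) hE (fun i => by exact_mod_cast hZ i) F.one_E
    (fun v hv h => wt2_small P M hv h)
    (fun a h => le_trans (card_le_card fun i hi => by
      obtain ⟨v, hv, rfl, h1, h2⟩ := (mem_filter.1 hi).2
      exact mem_filter.2 ⟨mem_univ _, N.kn v, (N.kn_E v (F.E_sub hv)).2 hv, h1, h2⟩) (M.cnt_E a h))
    (fun i c => (sum_le_sum_of_subset_of_nonneg (filter_subset_filter _ F.E_sub)
      fun v _ _ => wt2_nonneg P M v c).trans (wt2_tree P M ζ lam hZ hLa i c))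
    (by
      rintro (B | _ | _) <;> simp only [Bd, Sum.elim_inl, Sum.elim_inr, Bool.false_eq_true,
        if_true, if_false] <;> assumption_mod_cast)
    (by
      rintro a (B | b)
      · exact wt2_root P M N a B
      · exact wt2_cell P M N a _ _ (hBd _) fun i => wt2_tree P M ζ lam hZ hLa i (Sum.inr b))
    hn0 (by simpa using hroom)
    (by
      have e1 : (g + 1 : ℝ) * n0 * (∑ c, Bd2 c) / η ^ 2 ≤ θ := by
        rw [div_le_iff₀ (by positivity)]
        simp only [Bd2, Bd, Fintype.sum_sum_type, Sum.elim_inl, Sum.elim_inr, Fintype.sum_bool,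
          sum_const, card_univ, nsmul_eq_mul, Bool.false_eq_true, if_true, if_false]
        rw [add_comm ((r1 : ℝ) * ((D + 1) * lam : ℕ)), ← add_assoc]
        exact_mod_cast hθ
      have e2 : (ζ + 2 * (Fintype.card Hd * (2 * ζ + e * η') + r1 * (2 * ζ) + η + g + 1) + θ +
        n0 : ℝ) ≤ m * q := by exact_mod_cast hfree
      simp only [Bd2, Bd, Sum.elim_inr, Bool.false_eq_true, if_false, Fintype.card_prod,
        Fintype.card_fin] at e1 ⊢
      push_cast at e1 ⊢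
      linarith)
  let ψ : V → BB × Fin q := fun z => (M.cb (clz P M N z) (φ z).1, (φ z).2)
  have hψ : ∀ u v, ψ u = ψ v → (clz P M N u, φ u) = (clz P M N v, φ v) := fun u v h => by
    obtain ⟨h1, h2⟩ := Prod.mk.inj h
    obtain ⟨h3, h4⟩ := M.cb_inj _ _ _ _ h1
    exact Prod.ext h3 (Prod.ext h4 h2)
  have load : ∀ (x : BB × Fin q) c (s : Finset V) (b : ℝ), 0 ≤ b →
      (∀ a y, ∑ v ∈ s with clz P M N v = a ∧ φ v = y, wt2 P M v c ≤ b) →
      ∑ v ∈ s with ψ v = x, wt2 P M v c ≤ b := by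
    intro x c s b hb h
    rcases (s.filter (ψ · = x)).eq_empty_or_nonempty with h0 | ⟨z, hz⟩
    · rw [h0, sum_empty]
      exact hb
    · refine (sum_le_sum_of_subset_of_nonneg (fun v hv => ?_) fun v _ _ => wt2_nonneg P M v c).trans
        (h (clz P M N z) (φ z))
      exact mem_filter.2 ⟨(mem_filter.1 hv).1,
        Prod.mk.inj (hψ v z ((mem_filter.1 hv).2.trans (mem_filter.1 hz).2.symm))⟩
  have l1 : ∀ h x c, ∑ v ∈ {v ∈ F.E | grz P M N v = h} with ψ v = x, wt2 P M v c ≤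
      Bd c + e * η' := fun h x c =>
    load x c _ _ (by have := hBd c; positivity) fun a y => by
      convert p3 a h y c using 2
      ext v
      simp only [mem_filter]
      tauto
  have l2 : ∀ x c, ∑ v ∈ F.Z \ F.E with ψ v = x, wt2 P M v c ≤ Bd2 c + η + (g + 1) := fun x c =>
    load x c _ _ (by have := hBd2 c; positivity) fun a y => p4 a y c
  refine ⟨ψ, fun z => ⟨_, rfl⟩, fun u hu v hv ht h => ?_, fun u hu v hv hu' hv' pu pv h => ?_,
    fun x B => ?_, fun x => ?_⟩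
  · obtain ⟨h1, h2⟩ := Prod.mk.inj (hψ u v h)
    exact p1 u hu v hv ht h1 h2
  · exact p2 u hu v hv hu' hv' pu pv (Sym2.eq_iff.2 ((Sym2.eq_iff.1 h).imp
      (fun a => ⟨hψ _ _ a.1, hψ _ _ a.2⟩) (fun a => ⟨hψ _ _ a.1, hψ _ _ a.2⟩)))
  · rw [← sum_filter_ne_zero]
    rcases ({r ∈ {r ∈ P.Tp | F.par r ∈ F.Z ∧ ψ (F.par r) = x} |
        rho2 P M B r ≠ 0} : Finset V).eq_empty_or_nonempty with h0 | ⟨r0, hr0⟩
    · rw [h0, sum_empty]
      positivity
    have key : ∀ r ∈ ({r ∈ {r ∈ P.Tp | F.par r ∈ F.Z ∧ ψ (F.par r) = x} |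
        rho2 P M B r ≠ 0} : Finset V), (if M.sb x.1 = true then M.pu x.1 B else M.pu B x.1) =
          some (some (grz P M N (F.par r))) := by
      intro r hr
      obtain ⟨hr, h1⟩ := mem_filter.1 hr
      obtain ⟨hr, h2, h3⟩ := mem_filter.1 hr
      obtain ⟨b, hb, h4⟩ := rho2_ne P M h1
      have := M.pu_root _ _ b _ (φ (F.par r)).1 hb (P.us0 hr) (N.hub_some r hr h2)
      rw [← h3, ← h4]
      simp only [ψ, clz, grz, F.tr_par, M.cb_side]
      exact this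
    have same : ∀ r ∈ ({r ∈ {r ∈ P.Tp | F.par r ∈ F.Z ∧ ψ (F.par r) = x} |
        rho2 P M B r ≠ 0} : Finset V), grz P M N (F.par r) = grz P M N (F.par r0) := fun r hr =>
      Option.some.inj (Option.some.inj ((key r hr).symm.trans (key r0 hr0)))
    have hEE : ∀ z ∈ F.Z, (M.he (grz P M N z) = true ↔ z ∈ F.E) := fun z hz => by
      rw [grz, M.he_hid]
      exact N.kn_E z hz
    push_cast
    by_cases h : M.he (grz P M N (F.par r0)) = true
    · have e1 := l1 (grz P M N (F.par r0)) x (Sum.inl B)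
      simp only [Bd, Sum.elim_inl, wt2] at e1
      refine (le_sum_fib _ _ _ _ _ (rho2_nonneg P M B) fun r hr => ?_).trans
        (e1.trans (by have : (0 : ℝ) ≤ η + g := by positivity
                      linarith))
      have h1 := same r hr
      obtain ⟨hr, h2, h3⟩ := mem_filter.1 (mem_filter.1 hr).1
      exact ⟨hr, mem_filter.2 ⟨mem_filter.2 ⟨(hEE _ h2).1 (h1 ▸ h), h1⟩, h3⟩⟩
    · have e2 := l2 x (Sum.inl B)
      simp only [Bd2, Sum.elim_inl, wt2] at e2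
      refine (le_sum_fib _ _ _ _ _ (rho2_nonneg P M B) fun r hr => ?_).trans
        (e2.trans (by have : (0 : ℝ) ≤ e * η' := by positivity
                      linarith))
      have h1 := same r hr
      obtain ⟨hr, h2, h3⟩ := mem_filter.1 (mem_filter.1 hr).1
      exact ⟨hr, mem_filter.2 ⟨mem_sdiff.2 ⟨h2, fun h4 => h (h1 ▸ (hEE _ h2).2 h4)⟩, h3⟩⟩
  · have e1 : ∑ v ∈ F.E with ψ v = x, wt2 P M v (Sum.inr true) ≤
        Fintype.card Hd * (Bd (Sum.inr true) + e * η') := by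
      rw [← sum_fiberwise (s := F.E.filter (ψ · = x)) (g := grz P M N), ← nsmul_eq_mul,
        ← card_univ, ← sum_const]
      refine sum_le_sum fun h _ => ?_
      rw [filter_comm]
      exact l1 h x _
    have e2 := l2 x (Sum.inr true)
    have e3 : ∑ v ∈ F.Z with ψ v = x, wt2 P M v (Sum.inr true) =
        ∑ v ∈ F.Z \ F.E with ψ v = x, wt2 P M v (Sum.inr true) +
        ∑ v ∈ F.E with ψ v = x, wt2 P M v (Sum.inr true) := by
      simp only [sum_filter, sum_sdiff F.E_sub]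
    have e4 := le_sum_fib F.La {u ∈ F.La | F.par u ∈ F.Z ∧ ψ (F.par u) = x}
      {v ∈ F.Z | ψ v = x} F.par (fun _ => 1) (fun _ => zero_le_one) fun u hu =>
        ⟨(mem_filter.1 hu).1, mem_filter.2 (mem_filter.1 hu).2⟩
    have e5 : #{u ∈ F.Z | u ∉ F.R ∧ F.par u ∈ F.La ∧ ψ u = x} =
        #{u ∈ {v ∈ F.Z | ψ v = x} | u ∉ F.R ∧ F.par u ∈ F.La} := by
      congr 1
      ext u
      simp only [mem_filter]
      tauto
    rw [e5, ← Nat.cast_le (α := ℝ)]
    simp only [Bd2, Bd, Sum.elim_inr, if_true] at e1 e2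
    have e6 := add_le_add e2 e1
    rw [← e3] at e6
    simp only [wt2, sum_add_distrib, sum_boole, sum_const, nsmul_eq_mul, mul_one] at e6 e4
    push_cast at e6 ⊢
    linarith

end Pool.Agent.Lib.MP_12a5fd_co.BT
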