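import Pool.Agent.Lib.MP_12a5fd_co.BT.Base
import Pool.Agent.Lib.MP_12a5fd_co.BT.Defs

/-! Translations of blocks, purposes of pairs of blocks and numerical lemmas. -/

set_option autoImplicit false
set_option linter.unusedSectionVars false

namespace Pool.Agent.Lib.MP_12a5fd_co.BT

open Finset Pool.Agent.Lib.MP_2b1ae8_co.AT

/-- Translations. -/
abbrev Tn (G Cl : Type) (m : ℕ) := (Cl → Cl → G) × (Cl → Fin m)

section
variable {G Cl : Type} [Fintype G] [DecidableEq G] [AddCommGroup G] [Fintype Cl] [DecidableEq Cl]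
  {m : ℕ} [NeZero m]

/-- The translation applied to the blocks of cluster `Y`. -/
def tU (Y : Cl) : Tn G Cl m →+ (Cl → G) × Fin m where
  toFun p := (fun Y' => if Y = Y' then p.1 Y Y else p.1 Y Y' - p.1 Y' Y, p.2 Y)
  map_zero' := by ext Y' <;> simp
  map_add' p p' := by
    refine Prod.ext (funext fun Y' => ?_) rfl
    simp only [Prod.fst_add, Pi.add_apply]
    split_ifs <;> abel

lemma tU_anti (p : Tn G Cl m) {Y Y' : Cl} (h : Y ≠ Y') :
    (tU Y p).1 Y' + (tU Y' p).1 Y = 0 := by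
  simp [tU, h, h.symm]

lemma tU_surj (Y : Cl) (a : (Cl → G) × Fin m) : ∃ p : Tn G Cl m, tU Y p = a := by
  refine ⟨(fun Y1 Y2 => if Y1 = Y then a.1 Y2 else 0, fun _ => a.2), Prod.ext ?_ rfl⟩
  funext Y'
  by_cases h : Y = Y'
  · simp [tU, h]
  · simp [tU, h, Ne.symm h]

/-- Pairs of translations compatible with the invariant. -/
def SQ (G : Type) {Cl : Type} [Fintype G] [DecidableEq G] [AddCommGroup G] [Fintype Cl]
    [DecidableEq Cl] (m : ℕ) (Y Y' : Cl) :
    Finset (((Cl → G) × Fin m) × ((Cl → G) × Fin m)) :=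
  {x | x.1.1 Y' + x.2.1 Y = 0}

/-- The same for a cell and a block. -/
def SQ' (G : Type) {Cl : Type} [Fintype G] [DecidableEq G] [AddCommGroup G] [Fintype Cl]
    [DecidableEq Cl] (m : ℕ) (Y Y' : Cl) : Finset ((Cl → G) × ((Cl → G) × Fin m)) :=
  {x | x.1 Y' + x.2.1 Y = 0}

lemma tU_surj2 {Y Y' : Cl} (h : Y ≠ Y') :
    ∀ a ∈ SQ G m Y Y', ∃ p : Tn G Cl m, ((tU Y).prod (tU Y')) p = a := by
  rintro ⟨a, a'⟩ ha
  have ha : a.1 Y' + a'.1 Y = 0 := by simpa [SQ] using ha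
  refine ⟨(fun Y1 Y2 => if Y1 = Y then a.1 Y2 else if Y1 = Y' ∧ Y2 ≠ Y then a'.1 Y2 else 0,
    fun Y1 => if Y1 = Y then a.2 else a'.2), Prod.ext (Prod.ext ?_ ?_) (Prod.ext ?_ ?_)⟩
  · funext Y2
    by_cases h2 : Y = Y2
    · simp [tU, h2]
    · simp [tU, h2, Ne.symm h2]
  · simp [tU]
  · funext Y2
    by_cases h2 : Y' = Y2
    · subst h2
      simp [tU, h.symm]
    · by_cases h3 : Y2 = Y
      · subst h3
        simp [tU, h.symm, neg_eq_of_add_eq_zero_right ha]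
      · simp [tU, h2, Ne.symm h2, h3, h.symm]
  · simp [tU, h.symm]

lemma tU_surj2' {Y Y' : Cl} (h : Y ≠ Y') : ∀ a ∈ SQ' G m Y Y', ∃ p : Tn G Cl m,
    (((AddMonoidHom.fst _ _).comp (tU Y)).prod (tU Y')) p = a := by
  rintro ⟨a, a'⟩ ha
  obtain ⟨p, hp⟩ := tU_surj2 (m := m) h ((a, 0), a') (by simpa [SQ, SQ'] using ha)
  refine ⟨p, Prod.ext ?_ ?_⟩
  · exact congrArg (fun x => x.1.1) hp
  · exact congrArg (fun x => x.2) hp

lemma card_SQ (Y Y' : Cl) : (Fintype.card G ^ Fintype.card Cl * m) *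
    (Fintype.card G ^ Fintype.card Cl * m) ≤ #(SQ G m Y Y') * Fintype.card G := by
  have : (Fintype.card G ^ Fintype.card Cl * m) * (Fintype.card G ^ Fintype.card Cl * m) =
      #(univ : Finset (((Cl → G) × Fin m) × ((Cl → G) × Fin m))) := by simp
  rw [this, ← card_univ, ← card_product]
  refine card_le_card_of_injOn
    (fun x => ((x.1, (Function.update x.2.1 Y (-x.1.1 Y'), x.2.2)), x.2.1 Y))
    (fun x _ => by simp [SQ]) ?_
  rintro ⟨a, b, j⟩ - ⟨a', b', j'⟩ - h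
  simp only [Prod.mk.injEq] at h
  obtain ⟨⟨rfl, h1, rfl⟩, h2⟩ := h
  have : b = b' := by
    funext y
    by_cases hy : y = Y
    · rw [hy, h2]
    · simpa [hy] using congrFun h1 y
  rw [this]

lemma card_SQ' (Y Y' : Cl) : Fintype.card G ^ Fintype.card Cl *
    (Fintype.card G ^ Fintype.card Cl * m) ≤ #(SQ' G m Y Y') * Fintype.card G := by
  have : Fintype.card G ^ Fintype.card Cl * (Fintype.card G ^ Fintype.card Cl * m) =
      #(univ : Finset ((Cl → G) × ((Cl → G) × Fin m))) := by simp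
  rw [this, ← card_univ, ← card_product]
  refine card_le_card_of_injOn
    (fun x => ((x.1, (Function.update x.2.1 Y (-x.1 Y'), x.2.2)), x.2.1 Y))
    (fun x _ => by simp [SQ']) ?_
  rintro ⟨a, b, j⟩ - ⟨a', b', j'⟩ - h
  simp only [Prod.mk.injEq] at h
  obtain ⟨⟨rfl, h1, rfl⟩, h2⟩ := h
  have : b = b' := by
    funext y
    by_cases hy : y = Y
    · rw [hy, h2]
    · simpa [hy] using congrFun h1 y
  rw [this]

/-- Translate a block. -/
def mv (p : Tn G Cl m) (B : Bk G Cl m) : Bk G Cl m := (B.1, B.2 + tU B.1 p)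

lemma mv_inj (p : Tn G Cl m) {B B' : Bk G Cl m} (h : mv p B = mv p B') : B = B' := by
  obtain ⟨Y, b⟩ := B
  obtain ⟨Y', b'⟩ := B'
  simp only [mv, Prod.mk.injEq] at h
  obtain ⟨rfl, h⟩ := h
  rw [add_right_cancel h]

/-- The colour of a pair of blocks. -/
def col (B B' : Bk G Cl m) : G := B.2.1 B'.1 + B'.2.1 B.1

lemma col_comm (B B' : Bk G Cl m) : col B B' = col B' B := add_comm _ _

lemma col_mv (p : Tn G Cl m) {B B' : Bk G Cl m} (h : B.1 ≠ B'.1) :
    col (mv p B) (mv p B') = col B B' := by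
  have := tU_anti p h
  simp only [col, mv, Prod.fst_add, Pi.add_apply]
  rw [add_add_add_comm, this, add_zero]

lemma col_cell (p : Tn G Cl m) (U : Cl) (a : G) (j : Fin m) {B : Bk G Cl m} (h : U ≠ B.1) :
    col (U, (fun Y => a + (tU U p).1 Y), j) (mv p B) = a + B.2.1 U := by
  have := tU_anti p h
  simp only [col, mv, Prod.fst_add, Pi.add_apply]
  rw [add_add_add_comm, this, add_zero]

lemma col_cells (p : Tn G Cl m) {U U' : Cl} (a a' : G) (j j' : Fin m) (h : U ≠ U') :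
    col (U, (fun Y => a + (tU U p).1 Y), j) (U', (fun Y => a' + (tU U' p).1 Y), j') = a + a' := by
  have := tU_anti p h
  simp only [col]
  rw [add_add_add_comm, this, add_zero]

end

section
variable {Cl Cs : Type} [Fintype Cl] {Q : ℕ} [NeZero Q]

open Classical in
/-- The purpose of the colour `c` in the pair (row cluster `X`, column cluster `Y`). -/
noncomputable def purp (T : DS Cl Cs (RQ Q) Q) (JS : Cs → Bool → Finset (ZMod Q)) (X Y : Cl)
    (c : GG Q) : Option (Option (Cs × Bool × Bool)) :=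
  if c.2 = 0 then none
  else if h : ∃ x : Cs × Bool × Bool, if x.2.2 = true then c.1.1 ∈ T.S X Y x.1 (some x.2.1)
    else c.1.1 ∈ T.S X Y x.1 none ∧ c.1.2 ∈ JS x.1 x.2.1 then some (some h.choose) else some none

lemma purp_root (T : DS Cl Cs (RQ Q) Q) (JS : Cs → Bool → Finset (ZMod Q))
    (hJ : ∀ Z j, j ∈ JS Z true → j ∉ JS Z false) {X Y : Cl} (hX : T.cs X = true)
    (hY : T.cs Y = false) {c : GG Q} (h0 : c.2 ≠ 0) (x : Cs × Bool × Bool)
    (hx : if x.2.2 = true then c.1.1 ∈ T.S X Y x.1 (some x.2.1)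
      else c.1.1 ∈ T.S X Y x.1 none ∧ c.1.2 ∈ JS x.1 x.2.1) :
    purp T JS X Y c = some (some x) := by
  have h : ∃ x : Cs × Bool × Bool, if x.2.2 = true then c.1.1 ∈ T.S X Y x.1 (some x.2.1)
      else c.1.1 ∈ T.S X Y x.1 none ∧ c.1.2 ∈ JS x.1 x.2.1 := ⟨x, hx⟩
  unfold purp
  rw [if_neg h0, dif_pos h]
  have hy := h.choose_spec
  generalize h.choose = y at hy
  obtain ⟨Z, s, e⟩ := x
  obtain ⟨Z', s', e'⟩ := y
  cases e <;> cases e' <;>
    simp only [Bool.false_eq_true, if_false, if_true] at hx hy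
  · obtain ⟨rfl, -⟩ := T.disj _ _ _ _ _ _ _ hX hY hx.1 hy.1
    have : s' = s := by
      cases s <;> cases s'
      · rfl
      · exact absurd hx.2 (hJ _ _ hy.2)
      · exact absurd hy.2 (hJ _ _ hx.2)
      · rfl
    rw [this]
  · simpa using (T.disj _ _ _ _ _ _ _ hX hY hx.1 hy).2
  · simpa using (T.disj _ _ _ _ _ _ _ hX hY hx hy.1).2
  · obtain ⟨rfl, h2⟩ := T.disj _ _ _ _ _ _ _ hX hY hx hy
    rw [Option.some.inj h2]

lemma purp_in (T : DS Cl Cs (RQ Q) Q) (JS : Cs → Bool → Finset (ZMod Q)) {X Y : Cl} {c : GG Q}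
    (h0 : c.2 ≠ 0) (Z : Cs) (h1 : c.1.1 ∈ T.S X Y Z none) (h2 : ∀ s, c.1.2 ∉ JS Z s) :
    purp T JS X Y c = some none := by
  obtain ⟨hX, hY, -⟩ := T.supp _ _ _ _ h1
  unfold purp
  rw [if_neg h0, dif_neg]
  rintro ⟨⟨Z', s, e⟩, hx⟩
  cases e <;> simp only [Bool.false_eq_true, if_false, if_true] at hx
  · obtain ⟨rfl, -⟩ := T.disj _ _ _ _ _ _ _ hX hY h1 hx.1
    exact h2 s hx.2
  · simpa using (T.disj _ _ _ _ _ _ _ hX hY h1 hx).2

lemma exists_J (n1 : ℕ) (n2 : Bool → ℕ) (h : n1 + n2 true + n2 false ≤ Q) :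
    ∃ (A : Finset (ZMod Q)) (B : Bool → Finset (ZMod Q)), #A = n1 ∧ (∀ s, #(B s) = n2 s) ∧
      (∀ j, j ∈ B true → j ∉ B false) ∧ ∀ j s, j ∈ A → j ∉ B s := by
  obtain ⟨A, -, hA⟩ := exists_subset_card_eq (s := (univ : Finset (ZMod Q))) (n := n1)
    (by simp; omega)
  obtain ⟨B, hB, hB'⟩ := exists_subset_card_eq (s := univ \ A) (n := n2 true)
    (by rw [card_univ_sdiff, ZMod.card]; omega)
  obtain ⟨C, hC, hC'⟩ := exists_subset_card_eq (s := univ \ (A ∪ B)) (n := n2 false)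
    (by have := card_union_le A B; rw [card_univ_sdiff, ZMod.card]; omega)
  refine ⟨A, fun s => if s then B else C, hA, fun s => by cases s <;> simpa, fun j h1 h2 => ?_,
    fun j s h1 h2 => ?_⟩
  · exact (mem_sdiff.1 (hC h2)).2 (mem_union_right _ h1)
  · cases s
    · exact (mem_sdiff.1 (hC h2)).2 (mem_union_left _ h1)
    · exact (mem_sdiff.1 (hB h2)).2 h1

end

lemma tr_zero {Lm : Type} [Fintype Lm] (nm u : Lm → ℕ) (r : ℕ) :
    (∑ l, nm l / r * u l) * r ≤ ∑ l, nm l * u l := by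
  rw [sum_mul]
  refine sum_le_sum fun l _ => ?_
  rw [mul_right_comm]
  exact Nat.mul_le_mul_right _ (Nat.div_mul_le_self _ _)

lemma tr_err {Lm : Type} [Fintype Lm] (nm u cs : Lm → ℕ) (r x K : ℕ)
    (h : ∀ l, cs l ≤ nm l / r + x) (hu : ∀ l, u l ≤ K) :
    ∑ l, cs l * u l ≤ ∑ l, nm l / r * u l + x * (K * Fintype.card Lm) := by
  rw [← card_univ, mul_comm K, ← mul_assoc, mul_comm x, mul_assoc, ← smul_eq_mul (card univ),
    ← sum_const, ← sum_add_distrib]
  refine sum_le_sum fun l _ => (Nat.mul_le_mul_right _ (h l)).trans ?_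
  rw [add_mul]
  exact Nat.add_le_add_left (Nat.mul_le_mul_left _ (hu l)) _

lemma tr_bound {Lm : Type} [Fintype Lm] (nm u cs : Lm → ℕ) (r Q K m' St dj c y z : ℕ)
    (h : ∀ l, cs l ≤ nm l / r + 2 * Q) (hu : ∀ l, u l ≤ K) (hSt : 0 < St)
    (hr : dj * St ≤ r * Q ^ 2 * m') (hc : c ≤ 2) (hdj : dj ≤ Q ^ 2)
    (hlb : 4 * Q ^ 2 * K * Fintype.card Lm ≤ m')
    (hx : c * (Q * ∑ l, nm l * u l) + (y + 1) * St ≤ z * St) :
    c * (∑ l, cs l * u l) * dj + y * (Q * m') ≤ z * (Q * m') := by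
  have e1 := tr_zero nm u r
  have e2 := tr_err nm u cs r (2 * Q) K h hu
  generalize ∑ l, nm l / r * u l = t0 at e1 e2
  generalize ∑ l, cs l * u l = t1 at e2
  generalize ∑ l, nm l * u l = X at e1 hx
  have e3 : c * t0 * dj + (y + 1) * (Q * m') ≤ z * (Q * m') := by
    refine Nat.le_of_mul_le_mul_right (c := St) ?_ hSt
    calc _ = c * t0 * (dj * St) + (y + 1) * St * (Q * m') := by ring
      _ ≤ c * t0 * (r * Q ^ 2 * m') + (y + 1) * St * (Q * m') := by gcongr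
      _ = c * (Q * (t0 * r)) * (Q * m') + (y + 1) * St * (Q * m') := by ring
      _ ≤ c * (Q * X) * (Q * m') + (y + 1) * St * (Q * m') := by gcongr
      _ = (c * (Q * X) + (y + 1) * St) * (Q * m') := by ring
      _ ≤ z * St * (Q * m') := by gcongr
      _ = _ := by ring
  have e4 : c * (2 * Q * (K * Fintype.card Lm)) * dj ≤ Q * m' := by
    calc _ ≤ 2 * (2 * Q * (K * Fintype.card Lm)) * Q ^ 2 := by gcongr
      _ = Q * (4 * Q ^ 2 * K * Fintype.card Lm) := by ring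
      _ ≤ _ := by gcongr
  have e5 : c * t1 * dj ≤ c * (t0 + 2 * Q * (K * Fintype.card Lm)) * dj := by gcongr
  rw [mul_add, add_mul] at e5
  rw [add_mul, one_mul] at e3
  omega

lemma tr_in {Lm : Type} [Fintype Lm] (nm u cs : Lm → ℕ) (r Q K m' St d j : ℕ)
    (h : ∀ l, cs l ≤ nm l / r + 2 * Q) (hu : ∀ l, u l ≤ K) (hSt : 0 < St) (hd : 0 < d)
    (hj : 0 < j) (hr : d * j * St ≤ r * Q ^ 2 * m') (hjQ : j ≤ Q)
    (hlb : 4 * Q ^ 2 * K * Fintype.card Lm ≤ m')
    (hx : Q * Q * ∑ l, nm l * u l + d * St ≤ d * j * St) : ∑ l, cs l * u l ≤ m' := by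
  have e1 := tr_zero nm u r
  have e2 := tr_err nm u cs r (2 * Q) K h hu
  generalize ∑ l, nm l / r * u l = t0 at e1 e2
  generalize ∑ l, cs l * u l = t1 at e2
  generalize ∑ l, nm l * u l = X at e1 hx
  have e3 : t0 * j + m' ≤ j * m' := by
    refine Nat.le_of_mul_le_mul_right (c := d * St) ?_ (Nat.mul_pos hd hSt)
    calc _ = t0 * (d * j * St) + d * St * m' := by ring
      _ ≤ t0 * (r * Q ^ 2 * m') + d * St * m' := by gcongr
      _ = Q * Q * (t0 * r) * m' + d * St * m' := by ring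
      _ ≤ Q * Q * X * m' + d * St * m' := by gcongr
      _ = (Q * Q * X + d * St) * m' := by ring
      _ ≤ d * j * St * m' := by gcongr
      _ = _ := by ring
  have e4 : 2 * Q * (K * Fintype.card Lm) * j ≤ m' := by
    calc _ ≤ 4 * Q * (K * Fintype.card Lm) * Q := by gcongr; omega
      _ = 4 * Q ^ 2 * K * Fintype.card Lm := by ring
      _ ≤ _ := hlb
  refine Nat.le_of_mul_le_mul_right (c := j) ?_ hj
  have e5 : t1 * j ≤ (t0 + 2 * Q * (K * Fintype.card Lm)) * j := by gcongr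
  rw [add_mul] at e5
  rw [mul_comm m' j]
  omega

lemma scale_le (P Q s St x y z : ℕ) (hP : 0 < P) (hs : 0 < s) (h1 : Q * s ≤ P * St)
    (h2 : P * x + y * s ≤ z * s) : Q * x + y * St ≤ z * St := by
  have hyz : y ≤ z := Nat.le_of_mul_le_mul_right (le_trans (Nat.le_add_left _ _) h2) hs
  obtain ⟨d, rfl⟩ := Nat.exists_eq_add_of_le hyz
  have e1 : P * x ≤ d * s := by rw [add_mul] at h2; omega
  have e2 : Q * x ≤ d * St := by
    refine Nat.le_of_mul_le_mul_left (c := P) ?_ hP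
    calc _ = Q * (P * x) := by ring
      _ ≤ Q * (d * s) := by gcongr
      _ = d * (Q * s) := by ring
      _ ≤ d * (P * St) := by gcongr
      _ = _ := by ring
  rw [add_mul]
  omega

end Pool.Agent.Lib.MP_12a5fd_co.BT
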